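import Mathlib

/-!
# Rule 150, alpha-asynchronous dynamics on a ring: definitions and interfaces (helper43)
-/

open scoped BigOperators ENNReal NNReal
open MeasureTheory

namespace R150

abbrev Cfg (n : ℕ) := ZMod n → Bool

/-- one step: the cells selected by `D` take the rule 150 value, all others keep their value -/
def step (n : ℕ) (D x : Cfg n) : Cfg n :=
  fun i => if D i then xor (xor (x (i - 1)) (x i)) (x (i + 1)) else x i

/-- the trajectory for a sequence `w` of update sets -/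
def traj (n : ℕ) (w : ℕ → Cfg n) (x : Cfg n) : ℕ → Cfg n
  | 0 => x
  | t + 1 => step n (w t) (traj n w x t)

def Fixed (n : ℕ) (x : Cfg n) : Prop :=
  ∀ i, xor (xor (x (i - 1)) (x i)) (x (i + 1)) = x i

/-- activity: `act x i` iff the two neighbours of `i` differ -/
def act (n : ℕ) (x : Cfg n) : Cfg n := fun i => xor (x (i - 1)) (x (i + 1))

def stepY (n : ℕ) (D y : Cfg n) : Cfg n :=
  fun i => xor (y i) (xor (D (i - 1) && y (i - 1)) (D (i + 1) && y (i + 1)))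

section ops
variable {n : ℕ} [NeZero n]

/-- weight of the update set `D` -/
noncomputable def wt (a : ℝ) (D : Cfg n) : ℝ := ∏ i, if D i then a else 1 - a

noncomputable def Ex (a : ℝ) (F : Cfg n → ℝ) : ℝ := ∑ D : Cfg n, wt a D * F D

/-- transition operator of the activity chain -/
noncomputable def PY (a : ℝ) (f : Cfg n → ℝ) : Cfg n → ℝ :=
  fun y => Ex a (fun D => f (stepY n D y))

/-- position of the first active cell among `c, c+1, …, c+M` (relative to `c`), `M+1` if none -/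
noncomputable def fst (c : ZMod n) (M : ℕ) (y : Cfg n) : ℕ := by
  classical
  exact if h : ∃ k : ℕ, k ≤ M ∧ y (c + (k : ZMod n)) = true then Nat.find h else M + 1

/-- second bit factor -/
noncomputable def chi (β : ℝ) (c : ZMod n) (M : ℕ) (y : Cfg n) : ℝ :=
  if y (c + (fst c M y : ZMod n) + 1) = true then 1 + β else 1

end ops

/-- parameters -/
noncomputable def pb (ε : ℝ) : ℝ := 1 + ε / 16
noncomputable def pbeta (ε : ℝ) : ℝ := 11 / 200 * ε
noncomputable def pkap (ε : ℝ) : ℝ := 1 - ε / 200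

/-- EDGE -/
def EdgeStatement : Prop :=
  ∃ ε0 : ℝ, 0 < ε0 ∧ ∀ ε : ℝ, 0 < ε → ε ≤ ε0 → ∀ (n : ℕ) [NeZero n] (c : ZMod n) (M : ℕ) (C : ℝ)
    (y : Cfg n), M + 8 ≤ n → 0 ≤ C → 2 ≤ fst c M y →
    (fst c M y ≤ M ∨ 1 ≤ C * pkap ε * pb ε ^ (M + 1)) →
    Ex (1 - ε) (fun D => min 1 (C * pb ε ^ (fst c M (stepY n D y)) * chi (pbeta ε) c M (stepY n D y)))
      ≤ C * pkap ε * pb ε ^ (fst c M y) * chi (pbeta ε) c M y + ε ^ 2

/-- indicator that the window of radius `u` around `c` is void -/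
noncomputable def voidInd {n : ℕ} (c : ZMod n) (u : ℕ) (y : Cfg n) : ℝ := by
  classical
  exact if (∀ k : ℤ, |k| ≤ (u : ℤ) → y (c + (k : ZMod n)) = false) then 1 else 0

/-- CENTRE: `y` active at `c'`; probability that the window of radius `t` around `c'` is void after one step -/
def CentreStatement : Prop :=
  ∀ (ε : ℝ), 0 ≤ ε → ε ≤ 1 → ∀ (n : ℕ) [NeZero n] (c' : ZMod n) (t : ℕ) (y : Cfg n), 2 * t + 8 ≤ n →
    1 ≤ t → y c' = true →
    Ex (1 - ε) (fun D => voidInd c' t (stepY n D y))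
      ≤ 4 * ε ^ 2 + 4 * (1 - ε) ^ (2 * (t / 3))

/-- BLOCK -/
def BlockStatement : Prop :=
  ∀ δ : ℝ, 0 < δ → ∃ ε0 : ℝ, 0 < ε0 ∧ ∀ ε : ℝ, 0 < ε → ε ≤ ε0 → ∃ u : ℕ, 1 ≤ u ∧
    ∃ n0 : ℕ, ∀ (n : ℕ) [NeZero n], n0 ≤ n → ∀ (c : ZMod n) (y : Cfg n) (p : ℤ), |p| ≤ 6 * (u : ℤ) →
      y (c + (p : ZMod n)) = true →
      ((PY (1 - ε))^[200 * u] (voidInd c u)) y ≤ δ

/-- FACT: factorization over far windows -/
def FactStatement : Prop :=
  ∀ (a : ℝ), 0 ≤ a → a ≤ 1 → ∀ (n : ℕ) [NeZero n] (h u : ℕ) (A : Finset (ZMod n)),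
    (∀ c ∈ A, ∀ c' ∈ A, c ≠ c' → ∀ k k' : ℤ, |k| ≤ (u + h : ℤ) → |k'| ≤ (u + h : ℤ) →
      c + (k : ZMod n) ≠ c' + (k' : ZMod n)) →
    ∀ y : Cfg n, ((PY a)^[h] (fun z => ∏ c ∈ A, voidInd c u z)) y
      = ∏ c ∈ A, ((PY a)^[h] (voidInd c u)) y

section perc
variable {m : ℕ} [NeZero m]

def erode (D : Finset (ZMod m)) : Finset (ZMod m) :=
  Finset.univ.filter (fun j => j - 1 ∈ D ∧ j ∈ D ∧ j + 1 ∈ D)

noncomputable def opP {S : Type} [Fintype S] (K : S → S → ℝ) (F : S → S → Finset (ZMod m))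
    (ψ : S → Finset (ZMod m) → ℝ) : S → Finset (ZMod m) → ℝ :=
  fun s D => ∑ s', K s s' * ψ s' (erode D ∪ F s s')

end perc

/-- PERC -/
def PercStatement : Prop :=
  ∀ (m : ℕ) [NeZero m], 5 ≤ m → ∀ (S : Type) [Fintype S] (K : S → S → ℝ)
    (F : S → S → Finset (ZMod m)), (∀ s s', 0 ≤ K s s') → (∀ s, ∑ s', K s s' = 1) →
    (∀ s A, ∑ s', (if A ⊆ F s s' then K s s' else 0) ≤ (1 / 100 : ℝ) ^ A.card) →
    ∀ (k : ℕ) (s : S), ((opP K F)^[k] (fun _ D => if D = Finset.univ then (1 : ℝ) else 0)) s ∅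
      ≤ k * m * (1 / 4 : ℝ) ^ m

/-- the probability space: independent update bits, `α` = probability of an update -/
noncomputable def law (α : unitInterval) (n : ℕ) : Measure (ℕ × ZMod n → Bool) :=
  Measure.infinitePi (fun _ => ProbabilityTheory.bernoulliMeasure true false α)

/-- first time at a fixed point -/
noncomputable def tau (n : ℕ) (x : Cfg n) (w : ℕ × ZMod n → Bool) : ℝ≥0∞ :=
  ⨅ (t : ℕ) (_ : Fixed n (traj n (fun s i => w (s, i)) x t)), (t : ℝ≥0∞)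

/-- relaxation time -/
noncomputable def relax (α : unitInterval) (n : ℕ) : ℝ≥0∞ :=
  ⨆ x : Cfg n, ∫⁻ w, tau n x w ∂(law α n)

/-- MEAS -/
def MeasStatement : Prop :=
  ∀ (α : unitInterval) (n : ℕ) [NeZero n] (x : Cfg n) (t : ℕ),
    ENNReal.ofReal ((t : ℝ) * (1 - ((PY (α : ℝ))^[t] (fun y => if y = fun _ => false then 1 else 0))
      (act n x))) ≤ ∫⁻ w, tau n x w ∂(law α n)

def MainStatement : Prop :=
  ∃ α0 : ℝ, α0 < 1 ∧ ∀ α : unitInterval, α0 < (α : ℝ) → (α : ℝ) < 1 →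
    ∃ c : ℝ, 1 < c ∧ ∃ N : ℕ, ∀ n : ℕ, N ≤ n → ENNReal.ofReal (c ^ n) ≤ relax α n

end R150
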