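import Pool.Agent.Lib.MP_28292c_pr.N43.ExLib

/-! BLOCK module (helper43) -/

open scoped BigOperators

set_option linter.unusedSectionVars false

namespace R150

section
variable {n : ℕ} [NeZero n]

/-- reflection about `c` -/
def refl (c : ZMod n) (y : Cfg n) : Cfg n := fun i => y (c + c - i)

lemma refl_refl (c : ZMod n) (y : Cfg n) : refl c (refl c y) = y := by
  funext i
  unfold refl
  congr 1
  ring

lemma refl_apply_add (c : ZMod n) (y : Cfg n) (k : ZMod n) : refl c y (c + k) = y (c - k) := by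
  unfold refl
  congr 1
  ring

lemma stepY_refl (c : ZMod n) (D y : Cfg n) :
    stepY n (refl c D) (refl c y) = refl c (stepY n D y) := by
  funext i
  unfold stepY refl
  have e1 : c + c - (i - 1) = c + c - i + 1 := by ring
  have e2 : c + c - (i + 1) = c + c - i - 1 := by ring
  rw [e1, e2]
  rw [Bool.xor_comm (D (c + c - i + 1) && y (c + c - i + 1))]

def reflEquiv (c : ZMod n) : Cfg n ≃ Cfg n where
  toFun := refl c
  invFun := refl c
  left_inv := refl_refl c
  right_inv := refl_refl c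

lemma wt_refl (a : ℝ) (c : ZMod n) (D : Cfg n) : wt a (refl c D) = wt a D := by
  unfold wt refl
  exact Fintype.prod_equiv (Equiv.subLeft (c + c)) _ _ (fun i => rfl)

lemma Ex_refl (a : ℝ) (c : ZMod n) (F : Cfg n → ℝ) : Ex a (fun D => F (refl c D)) = Ex a F := by
  unfold Ex
  refine Fintype.sum_equiv (reflEquiv c) _ _ ?_
  intro D
  show wt a D * F (refl c D) = wt a (refl c D) * F (refl c D)
  rw [wt_refl]

/-- right potential -/
noncomputable def Rp (ε : ℝ) (c : ZMod n) (M u s : ℕ) (y : Cfg n) : ℝ :=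
  (pkap ε ^ s * (pb ε ^ u)⁻¹) * pb ε ^ (fst c M y) * chi (pbeta ε) c M y

noncomputable def Fp (ε : ℝ) (c : ZMod n) (M u s : ℕ) (y : Cfg n) : ℝ :=
  min 1 (min (Rp ε c M u s y) (Rp ε c M u s (refl c y)))

lemma Rp_nonneg {ε : ℝ} (h0 : 0 < ε) (h1 : ε ≤ 1 / 100) (c : ZMod n) (M u s : ℕ) (y : Cfg n) :
    0 ≤ Rp ε c M u s y := by
  unfold Rp
  have hb : 0 < pb ε := by unfold pb; linarith
  have hκ : 0 < pkap ε := by unfold pkap; linarith
  have hβ : 0 ≤ pbeta ε := by unfold pbeta; linarith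
  have hc := one_le_chi hβ c M y
  positivity

lemma pow200_aux {N : ℕ} {e b r : ℝ} (he : 0 ≤ e) (hr : 1 + e ≤ r) (hb : b ≤ 1 + (N : ℝ) * e) :
    b ≤ r ^ N := by
  have h4 : 1 + (N : ℝ) * e ≤ (1 + e) ^ N := one_add_mul_le_pow (by linarith) N
  exact le_trans hb (le_trans h4 (pow_le_pow_left₀ (by linarith) hr N))

/-- the edge step for `Rp` -/
lemma Rp_step (hE : EdgeStatement) : ∃ ε0 : ℝ, 0 < ε0 ∧ ∀ ε : ℝ, 0 < ε → ε ≤ ε0 → ∀ (n : ℕ) [NeZero n]
    (c : ZMod n) (u s : ℕ) (y : Cfg n), 1 ≤ u → 200 * u + 8 ≤ n → s + 1 ≤ 200 * u →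
    2 ≤ fst c (200 * u) y →
    Ex (1 - ε) (fun D => min 1 (Rp ε c (200 * u) u s (stepY n D y)))
      ≤ Rp ε c (200 * u) u (s + 1) y + ε ^ 2 := by
  obtain ⟨ε1, hε1, hE⟩ := hE
  refine ⟨min ε1 (1 / 100), by positivity, ?_⟩
  intro ε h0 hle n _ c u s y hu hn hs hX
  have hle1 : ε ≤ ε1 := le_trans hle (min_le_left _ _)
  have hle2 : ε ≤ 1 / 100 := le_trans hle (min_le_right _ _)
  have hb1 : 1 ≤ pb ε := by unfold pb; linarith
  have hb0 : 0 < pb ε := by linarith
  have hκ0 : 0 < pkap ε := by unfold pkap; linarith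
  have hκ1 : pkap ε ≤ 1 := by unfold pkap; linarith
  have hkey : 1 ≤ (pkap ε ^ s * (pb ε ^ u)⁻¹) * pkap ε * pb ε ^ (200 * u + 1) := by
    have h1 : pkap ε ^ (200 * u) ≤ pkap ε ^ (s + 1) := pow_le_pow_of_le_one hκ0.le hκ1 hs
    have h2 : 1 + ε / 20 ≤ pkap ε * pb ε := by
      unfold pkap pb
      nlinarith
    have h3 : pb ε ≤ (pkap ε * pb ε) ^ 200 := by
      have h6 : pb ε ≤ 1 + ((200 : ℕ) : ℝ) * (ε / 20) := by
        unfold pb
        push_cast
        linarith
      exact pow200_aux (by linarith) h2 h6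
    have h7 : pb ε ^ u ≤ pkap ε ^ (200 * u) * pb ε ^ (200 * u) := by
      rw [← mul_pow, pow_mul]
      exact pow_le_pow_left₀ hb0.le h3 u
    have h8 : pb ε ^ u ≤ pkap ε ^ (s + 1) * pb ε ^ (200 * u + 1) := by
      calc pb ε ^ u ≤ pkap ε ^ (200 * u) * pb ε ^ (200 * u) := h7
        _ ≤ pkap ε ^ (s + 1) * pb ε ^ (200 * u + 1) := by
            apply mul_le_mul h1 _ (by positivity) (by positivity)
            exact pow_le_pow_right₀ hb1 (by omega)
    have h9 : (pkap ε ^ s * (pb ε ^ u)⁻¹) * pkap ε * pb ε ^ (200 * u + 1)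
        = (pkap ε ^ (s + 1) * pb ε ^ (200 * u + 1)) / pb ε ^ u := by
      rw [pow_succ (pkap ε) s, div_eq_mul_inv]
      ring
    rw [h9, le_div_iff₀ (by positivity), one_mul]
    exact h8
  have h := hE ε h0 hle1 n c (200 * u) (pkap ε ^ s * (pb ε ^ u)⁻¹) y hn (by positivity) hX
    (Or.inr hkey)
  have e : (pkap ε ^ s * (pb ε ^ u)⁻¹) * pkap ε * pb ε ^ (fst c (200 * u) y) * chi (pbeta ε) c (200 * u) y
      = Rp ε c (200 * u) u (s + 1) y := by
    unfold Rp
    rw [pow_succ]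
    ring
  rw [e] at h
  exact h

lemma Rp_le_of_fst {ε : ℝ} (h0 : 0 < ε) (h1 : ε ≤ 1 / 100) (c : ZMod n) (M u s k : ℕ) (y : Cfg n)
    (hk : k ≤ M) (hy : y (c + (k : ZMod n)) = true) :
    Rp ε c M u s y ≤ 2 * (pkap ε ^ s * ((pb ε ^ u)⁻¹ * pb ε ^ k)) := by
  have hb1 : 1 ≤ pb ε := by unfold pb; linarith
  have hb0 : 0 < pb ε := by linarith
  have hκ0 : 0 < pkap ε := by unfold pkap; linarith
  have hβ : 0 ≤ pbeta ε := by unfold pbeta; linarith
  have hf : fst c M y ≤ k := fst_le hk hy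
  have hc := chi_le hβ c M y
  have hc' := one_le_chi hβ c M y
  have hβ2 : 1 + pbeta ε ≤ 2 := by unfold pbeta; linarith
  unfold Rp
  calc (pkap ε ^ s * (pb ε ^ u)⁻¹) * pb ε ^ (fst c M y) * chi (pbeta ε) c M y
      ≤ (pkap ε ^ s * (pb ε ^ u)⁻¹) * pb ε ^ k * 2 := by
        apply mul_le_mul _ (by linarith) (by linarith) (by positivity)
        apply mul_le_mul_of_nonneg_left _ (by positivity)
        exact pow_le_pow_right₀ hb1 hf
    _ = _ := by ring

lemma voidInd_nonneg (c : ZMod n) (u : ℕ) (y : Cfg n) : 0 ≤ voidInd c u y := by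
  classical
  unfold voidInd
  split_ifs <;> norm_num

lemma voidInd_le_one (c : ZMod n) (u : ℕ) (y : Cfg n) : voidInd c u y ≤ 1 := by
  classical
  unfold voidInd
  split_ifs <;> norm_num

lemma voidInd_eq_one {c : ZMod n} {u : ℕ} {y : Cfg n}
    (h : ∀ k : ℤ, |k| ≤ (u : ℤ) → y (c + (k : ZMod n)) = false) : voidInd c u y = 1 := by
  classical
  unfold voidInd
  rw [if_pos h]

lemma voidInd_mono {c c' : ZMod n} {u u' : ℕ} {y : Cfg n} {d : ℤ} (hc : c' = c + (d : ZMod n))
    (h : (u' : ℤ) + |d| ≤ (u : ℤ)) : voidInd c u y ≤ voidInd c' u' y := by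
  classical
  by_cases hv : ∀ k : ℤ, |k| ≤ (u : ℤ) → y (c + (k : ZMod n)) = false
  · have : ∀ k : ℤ, |k| ≤ (u' : ℤ) → y (c' + (k : ZMod n)) = false := by
      intro k hk
      rw [hc]
      have e : c + (d : ZMod n) + (k : ZMod n) = c + ((d + k : ℤ) : ZMod n) := by push_cast; ring
      rw [e]
      apply hv
      calc |d + k| ≤ |d| + |k| := abs_add_le d k
        _ ≤ (u : ℤ) := by linarith
    rw [voidInd_eq_one this]
    exact voidInd_le_one _ _ _
  · have : voidInd c u y = 0 := by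
      unfold voidInd
      rw [if_neg hv]
    rw [this]
    exact voidInd_nonneg _ _ _

/-- pointwise bound in the centre case -/
lemma Fp_le {ε : ℝ} (h0 : 0 < ε) (h1 : ε ≤ 1 / 100) (c : ZMod n) (M u s l : ℕ) (y : Cfg n)
    (hl : l ≤ u) (hM : u ≤ M) :
    Fp ε c M u s y ≤ voidInd c (u - l) y + 2 * (pb ε ^ l)⁻¹ := by
  classical
  have hb1 : 1 ≤ pb ε := by unfold pb; linarith
  have hb0 : 0 < pb ε := by linarith
  have hκ0 : 0 < pkap ε := by unfold pkap; linarith
  have hκ1 : pkap ε ≤ 1 := by unfold pkap; linarith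
  have hpos : 0 ≤ 2 * (pb ε ^ l)⁻¹ := by positivity
  by_cases hv : ∀ k : ℤ, |k| ≤ ((u - l : ℕ) : ℤ) → y (c + (k : ZMod n)) = false
  · rw [voidInd_eq_one hv]
    have : Fp ε c M u s y ≤ 1 := min_le_left _ _
    linarith
  · have hbound : ∀ (z : Cfg n) (k : ℕ), k ≤ u - l → z (c + (k : ZMod n)) = true →
        Rp ε c M u s z ≤ 2 * (pb ε ^ l)⁻¹ := by
      intro z k hk hz
      have h2 := Rp_le_of_fst h0 h1 c M u s k z (by omega) hz
      have h3 : pkap ε ^ s ≤ 1 := pow_le_one₀ hκ0.le hκ1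
      have h4 : (pb ε ^ u)⁻¹ * pb ε ^ k ≤ (pb ε ^ l)⁻¹ := by
        rw [inv_mul_le_iff₀ (by positivity)]
        have : pb ε ^ u * (pb ε ^ l)⁻¹ = pb ε ^ (u - l) := by
          rw [← div_eq_mul_inv, div_eq_iff (by positivity), ← pow_add]
          congr 1
          omega
        rw [this]
        exact pow_le_pow_right₀ hb1 hk
      calc Rp ε c M u s z ≤ 2 * (pkap ε ^ s * ((pb ε ^ u)⁻¹ * pb ε ^ k)) := h2
        _ ≤ 2 * (1 * (pb ε ^ l)⁻¹) := by
            apply mul_le_mul_of_nonneg_left _ (by norm_num)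
            exact mul_le_mul h3 h4 (by positivity) (by norm_num)
        _ = _ := by ring
    push Not at hv
    obtain ⟨k, hk, hyk⟩ := hv
    have hyk' : y (c + (k : ZMod n)) = true := by simpa using hyk
    have hvn := voidInd_nonneg c (u - l) y
    rcases le_total 0 k with hk0 | hk0
    · obtain ⟨m, rfl⟩ := Int.eq_ofNat_of_zero_le hk0
      have h2 := hbound y m (by
        rw [abs_of_nonneg hk0] at hk
        exact_mod_cast hk) (by simpa using hyk')
      calc Fp ε c M u s y ≤ Rp ε c M u s y := le_trans (min_le_right _ _) (min_le_left _ _)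
        _ ≤ 2 * (pb ε ^ l)⁻¹ := h2
        _ ≤ _ := by linarith
    · obtain ⟨m, hm⟩ := Int.eq_ofNat_of_zero_le (by omega : 0 ≤ -k)
      have hkm : k = -(m : ℤ) := by omega
      have h2 := hbound (refl c y) m (by
        rw [abs_of_nonpos hk0, hm] at hk
        exact_mod_cast hk) (by
          rw [refl_apply_add]
          rw [hkm] at hyk'
          have e : c - (m : ZMod n) = c + ((-(m : ℤ) : ℤ) : ZMod n) := by push_cast; ring
          rw [e]
          exact hyk')
      calc Fp ε c M u s y ≤ Rp ε c M u s (refl c y) := le_trans (min_le_right _ _) (min_le_right _ _)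
        _ ≤ 2 * (pb ε ^ l)⁻¹ := h2
        _ ≤ _ := by linarith

/-- the one-step error -/
noncomputable def kap0 (ε : ℝ) (u : ℕ) : ℝ :=
  4 * ε ^ 2 + 4 * (1 - ε) ^ (2 * ((u - u / 2 - 1) / 3)) + 2 * (pb ε ^ (u / 2))⁻¹

lemma PY_mono {a : ℝ} (h0 : 0 ≤ a) (h1 : a ≤ 1) {f g : Cfg n → ℝ} (h : ∀ y, f y ≤ g y) (y : Cfg n) :
    PY a f y ≤ PY a g y := Ex_mono h0 h1 (fun D => h _)

/-- one-step supersolution -/
lemma Fp_step (hE : EdgeStatement) (hC : CentreStatement) : ∃ ε0 : ℝ, 0 < ε0 ∧ ∀ ε : ℝ, 0 < ε → ε ≤ ε0 →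
    ∀ (n : ℕ) [NeZero n] (c : ZMod n) (u s : ℕ) (y : Cfg n), 4 ≤ u → 400 * u + 16 ≤ n →
    s + 1 ≤ 200 * u →
    PY (1 - ε) (Fp ε c (200 * u) u s) y ≤ Fp ε c (200 * u) u (s + 1) y + kap0 ε u := by
  obtain ⟨ε1, hε1, hR⟩ := Rp_step hE
  refine ⟨min ε1 (1 / 100), by positivity, ?_⟩
  intro ε h0 hle n _ c u s y hu hn hs
  have hle1 : ε ≤ ε1 := le_trans hle (min_le_left _ _)
  have hle2 : ε ≤ 1 / 100 := le_trans hle (min_le_right _ _)
  have ha0 : (0 : ℝ) ≤ 1 - ε := by linarith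
  have ha1 : (1 : ℝ) - ε ≤ 1 := by linarith
  have hb1 : 1 ≤ pb ε := by unfold pb; linarith
  have hb0 : 0 < pb ε := by linarith
  have hk0 : ε ^ 2 ≤ kap0 ε u := by
    unfold kap0
    have h1 : 0 ≤ 4 * (1 - ε) ^ (2 * ((u - u / 2 - 1) / 3)) := by positivity
    have h2 : 0 ≤ 2 * (pb ε ^ (u / 2))⁻¹ := by positivity
    nlinarith [sq_nonneg ε]
  by_cases hX : 2 ≤ fst c (200 * u) y ∧ 2 ≤ fst c (200 * u) (refl c y)
  · -- both edges away from the centre
    have h1 : PY (1 - ε) (Fp ε c (200 * u) u s) y ≤ 1 := by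
      unfold PY
      calc _ ≤ Ex (1 - ε) (fun _ : Cfg n => (1 : ℝ)) := Ex_mono ha0 ha1 (fun D => min_le_left _ _)
        _ = 1 := Ex_const _ _
    have h2 : PY (1 - ε) (Fp ε c (200 * u) u s) y ≤ Rp ε c (200 * u) u (s + 1) y + ε ^ 2 := by
      unfold PY
      calc _ ≤ Ex (1 - ε) (fun D => min 1 (Rp ε c (200 * u) u s (stepY n D y))) := by
            apply Ex_mono ha0 ha1
            intro D
            unfold Fp
            exact le_min (min_le_left _ _) (le_trans (min_le_right _ _) (min_le_left _ _))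
        _ ≤ _ := hR ε h0 hle1 n c u s y (by omega) (by omega) hs hX.1
    have h3 : PY (1 - ε) (Fp ε c (200 * u) u s) y
        ≤ Rp ε c (200 * u) u (s + 1) (refl c y) + ε ^ 2 := by
      unfold PY
      calc _ ≤ Ex (1 - ε) (fun D => min 1 (Rp ε c (200 * u) u s (refl c (stepY n D y)))) := by
            apply Ex_mono ha0 ha1
            intro D
            unfold Fp
            exact le_min (min_le_left _ _) (le_trans (min_le_right _ _) (min_le_right _ _))
        _ = Ex (1 - ε) (fun D => min 1 (Rp ε c (200 * u) u s (stepY n D (refl c y)))) := by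
            rw [← Ex_refl (1 - ε) c (fun D => min 1 (Rp ε c (200 * u) u s (stepY n D (refl c y))))]
            congr 1
            funext D
            rw [stepY_refl]
        _ ≤ _ := hR ε h0 hle1 n c u s (refl c y) (by omega) (by omega) hs hX.2
    have h4 : PY (1 - ε) (Fp ε c (200 * u) u s) y - kap0 ε u ≤ Fp ε c (200 * u) u (s + 1) y := by
      unfold Fp at h1 h2 h3 ⊢
      apply le_min
      · linarith [sq_nonneg ε]
      · apply le_min
        · linarith
        · linarith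
    linarith
  · -- centre case
    obtain ⟨d, hd, hyd⟩ : ∃ d : ℤ, |d| ≤ 1 ∧ y (c + (d : ZMod n)) = true := by
      rcases not_and_or.mp hX with h | h
      · have hlt : fst c (200 * u) y ≤ 1 := by omega
        have hs := fst_spec (c := c) (M := 200 * u) (y := y) (by omega)
        refine ⟨(fst c (200 * u) y : ℤ), ?_, ?_⟩
        · rw [abs_of_nonneg (by positivity)]
          exact_mod_cast hlt
        · push_cast
          exact hs
      · have hlt : fst c (200 * u) (refl c y) ≤ 1 := by omega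
        have hs := fst_spec (c := c) (M := 200 * u) (y := refl c y) (by omega)
        rw [refl_apply_add] at hs
        refine ⟨-(fst c (200 * u) (refl c y) : ℤ), ?_, ?_⟩
        · rw [abs_neg, abs_of_nonneg (by positivity)]
          exact_mod_cast hlt
        · push_cast
          rw [← sub_eq_add_neg]
          exact hs
    set l := u / 2 with hl
    have hcen := hC ε h0.le (by linarith) n (c + (d : ZMod n)) (u - l - 1) y (by omega) (by omega) hyd
    have hpos : 0 ≤ Fp ε c (200 * u) u (s + 1) y := by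
      unfold Fp
      apply le_min (by norm_num)
      apply le_min
      · exact Rp_nonneg h0 hle2 _ _ _ _ _
      · exact Rp_nonneg h0 hle2 _ _ _ _ _
    have hPY : PY (1 - ε) (Fp ε c (200 * u) u s) y
        ≤ Ex (1 - ε) (fun D => voidInd (c + (d : ZMod n)) (u - l - 1) (stepY n D y)) + 2 * (pb ε ^ l)⁻¹ := by
      unfold PY
      calc _ ≤ Ex (1 - ε) (fun D => voidInd (c + (d : ZMod n)) (u - l - 1) (stepY n D y)
            + 2 * (pb ε ^ l)⁻¹) := by
            apply Ex_mono ha0 ha1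
            intro D
            have h1 := Fp_le h0 hle2 c (200 * u) u s l (stepY n D y) (by omega) (by omega)
            have h2 : voidInd c (u - l) (stepY n D y)
                ≤ voidInd (c + (d : ZMod n)) (u - l - 1) (stepY n D y) :=
              voidInd_mono (d := d) rfl (by
                have : ((u - l - 1 : ℕ) : ℤ) = ((u - l : ℕ) : ℤ) - 1 := by
                  have : 1 ≤ u - l := by omega
                  push_cast [Nat.cast_sub this]
                  ring
                rw [this]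
                linarith)
            linarith
        _ = _ := by rw [Ex_add, Ex_const]
    unfold kap0
    rw [← hl]
    linarith

lemma PY_add_const (a c : ℝ) (f : Cfg n → ℝ) (y : Cfg n) :
    PY a (fun z => f z + c) y = PY a f y + c := by
  unfold PY
  rw [Ex_add, Ex_const]

/-- iterated supersolution -/
lemma iterate_le (hE : EdgeStatement) (hC : CentreStatement) : ∃ ε0 : ℝ, 0 < ε0 ∧ ∀ ε : ℝ, 0 < ε → ε ≤ ε0 →
    ∀ (n : ℕ) [NeZero n] (c : ZMod n) (u : ℕ), 4 ≤ u → 400 * u + 16 ≤ n →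
    ∀ s, s ≤ 200 * u → ∀ y : Cfg n,
    ((PY (1 - ε))^[s] (voidInd c u)) y ≤ Fp ε c (200 * u) u s y + s * kap0 ε u := by
  obtain ⟨ε1, hε1, hS⟩ := Fp_step hE hC
  refine ⟨min ε1 (1 / 100), by positivity, ?_⟩
  intro ε h0 hle n _ c u hu hn s
  have hle1 : ε ≤ ε1 := le_trans hle (min_le_left _ _)
  have hle2 : ε ≤ 1 / 100 := le_trans hle (min_le_right _ _)
  have ha0 : (0 : ℝ) ≤ 1 - ε := by linarith
  have ha1 : (1 : ℝ) - ε ≤ 1 := by linarith
  have hb1 : 1 ≤ pb ε := by unfold pb; linarith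
  have hb0 : 0 < pb ε := by linarith
  induction s with
  | zero =>
    intro _ y
    simp only [Function.iterate_zero, id_eq, Nat.cast_zero, zero_mul, add_zero]
    classical
    by_cases hv : ∀ k : ℤ, |k| ≤ (u : ℤ) → y (c + (k : ZMod n)) = false
    · rw [voidInd_eq_one hv]
      have hR : ∀ z : Cfg n, (∀ k : ℕ, k ≤ u → z (c + (k : ZMod n)) = false) →
          1 ≤ Rp ε c (200 * u) u 0 z := by
        intro z hz
        have hf : u < fst c (200 * u) z := by
          by_contra hcon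
          have h2 := fst_spec (c := c) (M := 200 * u) (y := z) (by omega)
          rw [hz _ (by omega)] at h2
          exact absurd h2 (by simp)
        have hβ : 0 ≤ pbeta ε := by unfold pbeta; linarith
        have hch := one_le_chi hβ c (200 * u) z
        unfold Rp
        rw [pow_zero, one_mul]
        have h3 : 1 ≤ (pb ε ^ u)⁻¹ * pb ε ^ fst c (200 * u) z := by
          rw [inv_mul_eq_div, le_div_iff₀ (by positivity), one_mul]
          exact pow_le_pow_right₀ hb1 hf.le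
        nlinarith
      unfold Fp
      apply le_min le_rfl
      apply le_min
      · apply hR
        intro k hk
        have := hv (k : ℤ) (by rw [abs_of_nonneg (by positivity)]; exact_mod_cast hk)
        simpa using this
      · apply hR
        intro k hk
        rw [refl_apply_add]
        have := hv (-(k : ℤ)) (by rw [abs_neg, abs_of_nonneg (by positivity)]; exact_mod_cast hk)
        simpa [sub_eq_add_neg] using this
    · have : voidInd c u y = 0 := by
        unfold voidInd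
        rw [if_neg hv]
      rw [this]
      unfold Fp
      apply le_min (by norm_num)
      apply le_min
      · exact Rp_nonneg h0 hle2 _ _ _ _ _
      · exact Rp_nonneg h0 hle2 _ _ _ _ _
  | succ s ih =>
    intro hs y
    rw [Function.iterate_succ_apply']
    calc PY (1 - ε) ((PY (1 - ε))^[s] (voidInd c u)) y
        ≤ PY (1 - ε) (fun z => Fp ε c (200 * u) u s z + s * kap0 ε u) y :=
          PY_mono ha0 ha1 (fun z => ih (by omega) z) y
      _ = PY (1 - ε) (Fp ε c (200 * u) u s) y + s * kap0 ε u := PY_add_const _ _ _ _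
      _ ≤ Fp ε c (200 * u) u (s + 1) y + kap0 ε u + s * kap0 ε u := by
          have := hS ε h0 hle1 n c u s y hu hn hs
          linarith
      _ = _ := by push_cast; ring

end

/-! ### numerics -/

lemma exp_neg_le_inv_pow {x : ℝ} (hx : 0 < x) : Real.exp (-x) ≤ 24 / x ^ 4 := by
  have h := Real.pow_div_factorial_le_exp x hx.le 4
  have h4 : ((Nat.factorial 4 : ℕ) : ℝ) = 24 := by norm_num [Nat.factorial]
  rw [h4] at h
  rw [Real.exp_neg, inv_le_comm₀ (Real.exp_pos x) (by positivity)]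
  rw [inv_div]
  exact h

lemma exp_small {x K v : ℝ} (hx : 0 < x) (h : 1 ≤ x * (K * v)) :
    Real.exp (-x) ≤ 24 * (K * v) ^ 4 := by
  refine le_trans (exp_neg_le_inv_pow hx) ?_
  rw [div_le_iff₀ (by positivity), mul_assoc, ← mul_pow]
  have h1 : 1 ≤ (K * v * x) ^ 4 := one_le_pow₀ (by linarith)
  linarith

lemma F_num {ε v : ℝ} {u k : ℕ} (h0 : 0 < ε) (h1 : ε ≤ 1 / 100) (hv : 0 < v) (hvε : v ^ 2 = ε)
    (hu : 1 ≤ (u : ℝ) * v ^ 3) (hk : k ≤ 6 * u) :
    2 * (pkap ε ^ (200 * u) * ((pb ε ^ u)⁻¹ * pb ε ^ k)) ≤ 3 * v := by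
  have hb1 : 1 ≤ pb ε := by unfold pb; linarith
  have hb0 : 0 < pb ε := by linarith
  have hκ0 : 0 < pkap ε := by unfold pkap; linarith
  have h2 : pkap ε ^ (200 * u) ≤ Real.exp (-(ε * u)) := by
    have h3 : pkap ε ≤ Real.exp (-(ε / 200)) := by
      have := Real.add_one_le_exp (-(ε / 200))
      unfold pkap
      linarith
    refine le_trans (pow_le_pow_left₀ hκ0.le h3 _) ?_
    rw [← Real.exp_nat_mul]
    apply le_of_eq
    congr 1
    push_cast
    ring
  have h4 : (pb ε ^ u)⁻¹ * pb ε ^ k ≤ Real.exp (5 * (ε * u) / 16) := by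
    have h5 : (pb ε ^ u)⁻¹ * pb ε ^ k ≤ pb ε ^ (5 * u) := by
      rw [inv_mul_le_iff₀ (by positivity), ← pow_add]
      exact pow_le_pow_right₀ hb1 (by omega)
    have h6 : pb ε ≤ Real.exp (ε / 16) := by
      have := Real.add_one_le_exp (ε / 16)
      unfold pb
      linarith
    refine le_trans h5 (le_trans (pow_le_pow_left₀ hb0.le h6 _) ?_)
    rw [← Real.exp_nat_mul]
    apply le_of_eq
    congr 1
    push_cast
    ring
  have h7 : pkap ε ^ (200 * u) * ((pb ε ^ u)⁻¹ * pb ε ^ k) ≤ Real.exp (-(11 / 16 * (ε * u))) := by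
    calc pkap ε ^ (200 * u) * ((pb ε ^ u)⁻¹ * pb ε ^ k)
        ≤ Real.exp (-(ε * u)) * Real.exp (5 * (ε * u) / 16) :=
          mul_le_mul h2 h4 (by positivity) (by positivity)
      _ = Real.exp (-(11 / 16 * (ε * u))) := by
          rw [← Real.exp_add]
          congr 1
          ring
  have h8 : 1 ≤ ε * u * v := by
    rw [← hvε]
    calc (1 : ℝ) ≤ u * v ^ 3 := hu
      _ = _ := by ring
  have hεu : 0 < ε * u := by
    by_contra hcon
    push Not at hcon
    nlinarith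
  have h9 : Real.exp (-(11 / 16 * (ε * u))) * (11 / 16 * (ε * u)) ≤ 1 := by
    have h10 : 11 / 16 * (ε * u) ≤ Real.exp (11 / 16 * (ε * u)) := by
      have := Real.add_one_le_exp (11 / 16 * (ε * u))
      linarith
    calc Real.exp (-(11 / 16 * (ε * u))) * (11 / 16 * (ε * u))
        ≤ Real.exp (-(11 / 16 * (ε * u))) * Real.exp (11 / 16 * (ε * u)) :=
          mul_le_mul_of_nonneg_left h10 (Real.exp_pos _).le
      _ = 1 := by rw [← Real.exp_add]; simp
  have hE0 := Real.exp_pos (-(11 / 16 * (ε * u)))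
  have h11 : Real.exp (-(11 / 16 * (ε * u))) * (11 / 16) ≤ v := by
    calc Real.exp (-(11 / 16 * (ε * u))) * (11 / 16)
        ≤ Real.exp (-(11 / 16 * (ε * u))) * (11 / 16) * (ε * u * v) := by
          apply le_mul_of_one_le_right (by positivity) h8
      _ = Real.exp (-(11 / 16 * (ε * u))) * (11 / 16 * (ε * u)) * v := by ring
      _ ≤ 1 * v := mul_le_mul_of_nonneg_right h9 hv.le
      _ = v := one_mul v
  linarith

lemma K_num {ε v : ℝ} {u : ℕ} (h0 : 0 < ε) (h1 : ε ≤ 1 / 100) (hv : 0 < v) (hvε : v ^ 2 = ε)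
    (hu : 1 ≤ (u : ℝ) * v ^ 3) (hu2 : (u : ℝ) * v ^ 3 ≤ 2) (hu24 : 24 ≤ u) :
    ((200 * u : ℕ) : ℝ) * kap0 ε u ≤ (6 * 10 ^ 12) * v := by
  have hb1 : 1 ≤ pb ε := by unfold pb; linarith
  have hb0 : 0 < pb ε := by linarith
  have h8 : 1 ≤ ε * u * v := by
    rw [← hvε]
    calc (1 : ℝ) ≤ u * v ^ 3 := hu
      _ = _ := by ring
  have hu0 : (0 : ℝ) < u := by
    have : 0 < u := by omega
    exact_mod_cast this
  have hεu : 0 < ε * u := by positivity
  have hA : (1 - ε) ^ (2 * ((u - u / 2 - 1) / 3)) ≤ 24 * (4 * v) ^ 4 := by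
    have h3 : 1 - ε ≤ Real.exp (-ε) := by
      have := Real.add_one_le_exp (-ε)
      linarith
    have h4 : u ≤ 4 * (2 * ((u - u / 2 - 1) / 3)) := by omega
    have h4' : (u : ℝ) ≤ 4 * ((2 * ((u - u / 2 - 1) / 3) : ℕ) : ℝ) := by exact_mod_cast h4
    have h5 : (1 - ε) ^ (2 * ((u - u / 2 - 1) / 3)) ≤ Real.exp (-(ε * u / 4)) := by
      refine le_trans (pow_le_pow_left₀ (by linarith) h3 _) ?_
      rw [← Real.exp_nat_mul]
      apply Real.exp_le_exp.2
      nlinarith
    refine le_trans h5 (exp_small (by positivity) ?_)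
    calc (1 : ℝ) ≤ ε * u * v := h8
      _ = _ := by ring
  have hB : (pb ε ^ (u / 2))⁻¹ ≤ 24 * (128 * v) ^ 4 := by
    have h3 : (pb ε)⁻¹ ≤ Real.exp (-(ε / 32)) := by
      have h4 : (pb ε)⁻¹ ≤ 1 - ε / 32 := by
        rw [inv_le_iff_one_le_mul₀ hb0]
        unfold pb
        nlinarith
      have := Real.add_one_le_exp (-(ε / 32))
      linarith
    have h4 : u ≤ 4 * (u / 2) := by omega
    have h4' : (u : ℝ) ≤ 4 * ((u / 2 : ℕ) : ℝ) := by exact_mod_cast h4
    have h5 : (pb ε ^ (u / 2))⁻¹ ≤ Real.exp (-(ε * u / 128)) := by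
      rw [← inv_pow]
      refine le_trans (pow_le_pow_left₀ (by positivity) h3 _) ?_
      rw [← Real.exp_nat_mul]
      apply Real.exp_le_exp.2
      nlinarith
    refine le_trans h5 (exp_small (by positivity) ?_)
    calc (1 : ℝ) ≤ ε * u * v := h8
      _ = _ := by ring
  have hK : kap0 ε u ≤ (4 + 4 * (24 * 4 ^ 4) + 2 * (24 * 128 ^ 4)) * v ^ 4 := by
    have h10 : ε ^ 2 = v ^ 4 := by rw [← hvε]; ring
    have h11 : (4 * v) ^ 4 = 4 ^ 4 * v ^ 4 := mul_pow _ _ _
    have h12 : (128 * v) ^ 4 = 128 ^ 4 * v ^ 4 := mul_pow _ _ _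
    rw [h11] at hA
    rw [h12] at hB
    unfold kap0
    rw [h10]
    linarith
  have hC : (0 : ℝ) ≤ (4 + 4 * (24 * 4 ^ 4) + 2 * (24 * 128 ^ 4)) := by norm_num
  calc ((200 * u : ℕ) : ℝ) * kap0 ε u
      ≤ ((200 * u : ℕ) : ℝ) * ((4 + 4 * (24 * 4 ^ 4) + 2 * (24 * 128 ^ 4)) * v ^ 4) :=
        mul_le_mul_of_nonneg_left hK (by positivity)
    _ = (200 * (4 + 4 * (24 * 4 ^ 4) + 2 * (24 * 128 ^ 4))) * ((u * v ^ 3) * v) := by
        push_cast
        ring
    _ ≤ (200 * (4 + 4 * (24 * 4 ^ 4) + 2 * (24 * 128 ^ 4))) * (2 * v) := by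
        apply mul_le_mul_of_nonneg_left _ (by positivity)
        exact mul_le_mul_of_nonneg_right hu2 hv.le
    _ ≤ (6 * 10 ^ 12) * v := by
        have : (200 * (4 + 4 * (24 * 4 ^ 4) + 2 * (24 * 128 ^ 4))) * 2 ≤ (6 * 10 ^ 12 : ℝ) := by norm_num
        nlinarith

theorem block (hE : EdgeStatement) (hC : CentreStatement) : BlockStatement := by
  intro δ hδ
  obtain ⟨ε1, hε1, hI⟩ := iterate_le hE hC
  refine ⟨min ε1 (min (1 / 100) ((δ / 10 ^ 13) ^ 2)), by positivity, ?_⟩
  intro ε h0 hle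
  have hle1 : ε ≤ ε1 := le_trans hle (min_le_left _ _)
  have hle2 : ε ≤ 1 / 100 := le_trans hle (le_trans (min_le_right _ _) (min_le_left _ _))
  have hle3 : ε ≤ (δ / 10 ^ 13) ^ 2 := le_trans hle (le_trans (min_le_right _ _) (min_le_right _ _))
  obtain ⟨v, hv0, hvε⟩ : ∃ v : ℝ, 0 < v ∧ v ^ 2 = ε :=
    ⟨Real.sqrt ε, Real.sqrt_pos.2 h0, Real.sq_sqrt h0.le⟩
  have hv1 : v ≤ 1 / 10 := by
    by_contra hcon
    push Not at hcon
    nlinarith
  have hv2 : v ≤ δ / 10 ^ 13 := by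
    rw [← hvε] at hle3
    exact (pow_le_pow_iff_left₀ hv0.le (by positivity) two_ne_zero).1 hle3
  have hv3 : v ^ 3 ≤ 1 / 1000 := by
    calc v ^ 3 ≤ (1 / 10) ^ 3 := pow_le_pow_left₀ hv0.le hv1 3
      _ = 1 / 1000 := by norm_num
  have hv30 : 0 < v ^ 3 := by positivity
  obtain ⟨u, hu1, hu2⟩ : ∃ u : ℕ, (v ^ 3)⁻¹ ≤ u ∧ (u : ℝ) < (v ^ 3)⁻¹ + 1 :=
    ⟨⌈(v ^ 3)⁻¹⌉₊, Nat.le_ceil _, Nat.ceil_lt_add_one (by positivity)⟩
  have hu3 : 1 ≤ (u : ℝ) * v ^ 3 := by
    calc (1 : ℝ) = (v ^ 3)⁻¹ * v ^ 3 := (inv_mul_cancel₀ hv30.ne').symm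
      _ ≤ u * v ^ 3 := mul_le_mul_of_nonneg_right hu1 hv30.le
  have hu4 : (u : ℝ) * v ^ 3 ≤ 2 := by
    calc (u : ℝ) * v ^ 3 ≤ ((v ^ 3)⁻¹ + 1) * v ^ 3 := mul_le_mul_of_nonneg_right hu2.le hv30.le
      _ = 1 + v ^ 3 := by rw [add_mul, inv_mul_cancel₀ hv30.ne', one_mul]
      _ ≤ 2 := by linarith
  have hu5 : (24 : ℝ) ≤ u := by
    by_contra hcon
    push Not at hcon
    nlinarith
  have hu24 : 24 ≤ u := by exact_mod_cast hu5
  refine ⟨u, by omega, 400 * u + 16, ?_⟩
  intro n _ hn c y p hp hy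
  have h := hI ε h0 hle1 n c u (by omega) hn (200 * u) le_rfl y
  have hF : Fp ε c (200 * u) u (200 * u) y ≤ 3 * v := by
    rcases le_total 0 p with hp0 | hp0
    · obtain ⟨m, rfl⟩ := Int.eq_ofNat_of_zero_le hp0
      have hm : m ≤ 6 * u := by
        rw [abs_of_nonneg hp0] at hp
        exact_mod_cast hp
      have h2 := Rp_le_of_fst h0 hle2 c (200 * u) u (200 * u) m y (by omega) (by simpa using hy)
      exact le_trans (le_trans (min_le_right _ _) (min_le_left _ _))
        (le_trans h2 (F_num h0 hle2 hv0 hvε hu3 hm))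
    · obtain ⟨m, hm'⟩ := Int.eq_ofNat_of_zero_le (by omega : 0 ≤ -p)
      have hpm : p = -(m : ℤ) := by omega
      have hm : m ≤ 6 * u := by
        rw [abs_of_nonpos hp0, hm'] at hp
        exact_mod_cast hp
      have hy' : refl c y (c + (m : ZMod n)) = true := by
        rw [refl_apply_add]
        rw [hpm] at hy
        have e : c - (m : ZMod n) = c + ((-(m : ℤ) : ℤ) : ZMod n) := by push_cast; ring
        rw [e]
        exact hy
      have h2 := Rp_le_of_fst h0 hle2 c (200 * u) u (200 * u) m (refl c y) (by omega) hy'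
      exact le_trans (le_trans (min_le_right _ _) (min_le_right _ _))
        (le_trans h2 (F_num h0 hle2 hv0 hvε hu3 hm))
  have hK := K_num h0 hle2 hv0 hvε hu3 hu4 hu24
  have hv4 : 10 ^ 13 * v ≤ δ := by
    rw [le_div_iff₀ (by positivity)] at hv2
    linarith
  have hfin : 3 * v + (6 * 10 ^ 12) * v ≤ 10 ^ 13 * v := by nlinarith
  linarith

end R150
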