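import Pool.Agent.Lib.MP_28292c_pr.N43.ExLib

/-!
Module CENTRE: a window around an active cell becomes void with small probability.
-/

set_option autoImplicit false

open scoped BigOperators

namespace R150.CentreH52

/-- two-step recursions determine the sequence -/
theorem rec_unique (t : ℕ) (F G Y : ℕ → Bool) (h0 : F 0 = G 0) (h1 : F 1 = G 1)
    (hF : ∀ k, 1 ≤ k → k ≤ t → F (k + 1) = xor (Y k) (F (k - 1)))
    (hG : ∀ k, 1 ≤ k → k ≤ t → G (k + 1) = xor (Y k) (G (k - 1))) :
    ∀ k ≤ t + 1, F k = G k := by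
  intro k
  induction k using Nat.strong_induction_on with
  | _ k ih =>
    intro hk
    match k, ih, hk with
    | 0, _, _ => exact h0
    | 1, _, _ => exact h1
    | k + 2, ih, hk =>
      rw [hF (k + 1) (by omega) (by omega), hG (k + 1) (by omega) (by omega)]
      simp only [Nat.add_sub_cancel]
      rw [ih k (by omega) (by omega)]

/-- the period 3 pattern: two of three -/
theorem count_two (t : ℕ) (F : ℕ → Bool) (h01 : F 0 = true ∨ F 1 = true)
    (hF : ∀ k, 1 ≤ k → k ≤ t → F (k + 1) = xor (F k) (F (k - 1))) :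
    (∀ k ≤ t, F k = true ∨ F (k + 1) = true) ∧
    ∀ q, 3 * q ≤ t → ((Finset.range (3 * q)).filter (fun k => F (k + 1) = true)).card = 2 * q := by
  have hpair : ∀ k ≤ t, F k = true ∨ F (k + 1) = true := by
    intro k
    induction k with
    | zero => intro _; exact h01
    | succ k ih =>
      intro hk
      have := ih (by omega)
      rw [hF (k + 1) (by omega) hk]
      simp only [Nat.add_sub_cancel]
      revert this
      cases F k <;> cases F (k + 1) <;> simp
  refine ⟨hpair, ?_⟩
  intro q
  induction q with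
  | zero => intro _; simp
  | succ q ih =>
    intro hq
    have ih' := ih (by omega)
    rw [Finset.card_filter] at ih' ⊢
    rw [show 3 * (q + 1) = 3 * q + 1 + 1 + 1 by ring, Finset.sum_range_succ, Finset.sum_range_succ,
      Finset.sum_range_succ, ih']
    have hp := hpair (3 * q + 1) (by omega)
    have hr := hF (3 * q + 2) (by omega) (by omega)
    rw [show 3 * q + 2 + 1 = 3 * q + 1 + 1 + 1 by ring, show 3 * q + 2 - 1 = 3 * q + 1 by omega,
      show 3 * q + 2 = 3 * q + 1 + 1 by ring] at hr
    rw [hr]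
    revert hp
    cases F (3 * q + 1) <;> cases F (3 * q + 1 + 1) <;> simp <;> omega

theorem prod_le_sub {ι : Type} [DecidableEq ι] (S T : Finset ι) (hT : T ⊆ S) (w : ι → ℝ)
    (h0 : ∀ i, 0 ≤ w i) (h1 : ∀ i, w i ≤ 1) : ∏ i ∈ S, w i ≤ ∏ i ∈ T, w i := by
  rw [← Finset.prod_sdiff hT]
  calc (∏ i ∈ S \ T, w i) * ∏ i ∈ T, w i ≤ 1 * ∏ i ∈ T, w i := by
        apply mul_le_mul_of_nonneg_right
        · exact Finset.prod_le_one (fun i _ => h0 i) (fun i _ => h1 i)
        · exact Finset.prod_nonneg fun i _ => h0 i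
    _ = ∏ i ∈ T, w i := one_mul _

section
variable {n : ℕ} [NeZero n]

/-- the window becomes void -/
def Void (c : ZMod n) (t : ℕ) (D y : Cfg n) : Prop :=
  ∀ k : ℤ, |k| ≤ (t : ℤ) → stepY n D y (c + (k : ZMod n)) = false

/-- fired cells to the right of `c` -/
def fr (c : ZMod n) (D y : Cfg n) : ℕ → Bool := fun k => D (c + (k : ZMod n)) && y (c + (k : ZMod n))
/-- fired cells to the left of `c` -/
def fl (c : ZMod n) (D y : Cfg n) : ℕ → Bool := fun k => D (c - (k : ZMod n)) && y (c - (k : ZMod n))

theorem fr_rec {c : ZMod n} {t : ℕ} {D y : Cfg n} (h : Void c t D y) (k : ℕ) (h1 : 1 ≤ k)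
    (h2 : k ≤ t) : fr c D y (k + 1) = xor (y (c + (k : ZMod n))) (fr c D y (k - 1)) := by
  have := h k (by rw [abs_le]; constructor <;> [omega; exact_mod_cast h2])
  simp only [stepY, Int.cast_natCast] at this
  unfold fr
  rw [Nat.cast_sub h1]
  push_cast
  rw [show c + (k : ZMod n) - 1 = c + ((k : ZMod n) - 1) by ring,
    show c + (k : ZMod n) + 1 = c + ((k : ZMod n) + 1) by ring] at this
  revert this
  generalize (D (c + ((k : ZMod n) - 1)) && y (c + ((k : ZMod n) - 1))) = p
  generalize (D (c + ((k : ZMod n) + 1)) && y (c + ((k : ZMod n) + 1))) = q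
  generalize y (c + (k : ZMod n)) = r
  revert p q r
  decide

theorem fl_rec {c : ZMod n} {t : ℕ} {D y : Cfg n} (h : Void c t D y) (k : ℕ) (h1 : 1 ≤ k)
    (h2 : k ≤ t) : fl c D y (k + 1) = xor (y (c - (k : ZMod n))) (fl c D y (k - 1)) := by
  have := h (-k) (by rw [abs_le]; constructor <;> omega)
  simp only [stepY, Int.cast_neg, Int.cast_natCast] at this
  unfold fl
  rw [Nat.cast_sub h1]
  push_cast
  rw [show c + -(k : ZMod n) - 1 = c - ((k : ZMod n) + 1) by ring,
    show c + -(k : ZMod n) + 1 = c - ((k : ZMod n) - 1) by ring,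
    show c + -(k : ZMod n) = c - (k : ZMod n) by ring] at this
  revert this
  generalize (D (c - ((k : ZMod n) - 1)) && y (c - ((k : ZMod n) - 1))) = p
  generalize (D (c - ((k : ZMod n) + 1)) && y (c - ((k : ZMod n) + 1))) = q
  generalize y (c - (k : ZMod n)) = r
  revert p q r
  decide

theorem centre_rel {c : ZMod n} {t : ℕ} {D y : Cfg n} (h : Void c t D y) :
    xor (fl c D y 1) (fr c D y 1) = y c := by
  have := h 0 (by simp)
  simp only [stepY, Int.cast_zero, add_zero] at this
  unfold fl fr
  push_cast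
  revert this
  generalize (D (c - 1) && y (c - 1)) = p
  generalize (D (c + 1) && y (c + 1)) = q
  generalize y c = r
  revert p q r
  decide

/-- the window of radius `t + 1`, active cells -/
def Win (c : ZMod n) (t : ℕ) (y : Cfg n) : Finset (ZMod n) :=
  (Finset.univ.filter (fun i => y i = true)) ∩
    ((Finset.range (t + 2)).image (fun k : ℕ => c + (k : ZMod n)) ∪
      (Finset.range (t + 2)).image (fun k : ℕ => c - (k : ZMod n)))

theorem mem_Win_r {c : ZMod n} {t : ℕ} {y : Cfg n} {k : ℕ} (hk : k ≤ t + 1)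
    (hy : y (c + (k : ZMod n)) = true) : c + (k : ZMod n) ∈ Win c t y := by
  unfold Win
  rw [Finset.mem_inter, Finset.mem_union]
  exact ⟨by simpa using hy, Or.inl (Finset.mem_image.2 ⟨k, Finset.mem_range.2 (by omega), rfl⟩)⟩

theorem mem_Win_l {c : ZMod n} {t : ℕ} {y : Cfg n} {k : ℕ} (hk : k ≤ t + 1)
    (hy : y (c - (k : ZMod n)) = true) : c - (k : ZMod n) ∈ Win c t y := by
  unfold Win
  rw [Finset.mem_inter, Finset.mem_union]
  exact ⟨by simpa using hy, Or.inr (Finset.mem_image.2 ⟨k, Finset.mem_range.2 (by omega), rfl⟩)⟩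

theorem agree {c : ZMod n} {t : ℕ} {D D0 y : Cfg n} (h : Void c t D y) (h0 : Void c t D0 y)
    (e0 : fr c D y 0 = fr c D0 y 0) (e1 : fr c D y 1 = fr c D0 y 1) :
    ∀ i ∈ Win c t y, D i = D0 i := by
  have hr := rec_unique t (fr c D y) (fr c D0 y) (fun k => y (c + (k : ZMod n))) e0 e1
    (fun k h1 h2 => fr_rec h k h1 h2) (fun k h1 h2 => fr_rec h0 k h1 h2)
  have e0' : fl c D y 0 = fl c D0 y 0 := by
    have : ∀ D : Cfg n, fl c D y 0 = fr c D y 0 := by
      intro D
      simp [fl, fr]
    rw [this, this, e0]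
  have e1' : fl c D y 1 = fl c D0 y 1 := by
    have a := centre_rel h
    have b := centre_rel h0
    rw [← e1] at b
    revert a b
    generalize fl c D y 1 = p
    generalize fl c D0 y 1 = q
    generalize fr c D y 1 = r
    generalize y c = s
    revert p q r s
    decide
  have hl := rec_unique t (fl c D y) (fl c D0 y) (fun k => y (c - (k : ZMod n))) e0' e1'
    (fun k h1 h2 => fl_rec h k h1 h2) (fun k h1 h2 => fl_rec h0 k h1 h2)
  intro i hi
  unfold Win at hi
  rw [Finset.mem_inter, Finset.mem_union] at hi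
  obtain ⟨hy, hi⟩ := hi
  have hy' : y i = true := by simpa using hy
  rcases hi with hi | hi
  · obtain ⟨k, hk, rfl⟩ := Finset.mem_image.1 hi
    have := hr k (by have := Finset.mem_range.1 hk; omega)
    unfold fr at this
    simpa [hy'] using this
  · obtain ⟨k, hk, rfl⟩ := Finset.mem_image.1 hi
    have := hl k (by have := Finset.mem_range.1 hk; omega)
    unfold fl at this
    simpa [hy'] using this

/-- one side without errors and with a nonzero pair gives many fired cells -/
theorem side {c : ZMod n} {t : ℕ} {D y : Cfg n} (hn : 2 * t + 8 ≤ n) (h : Void c t D y)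
    (hfew : ∀ i ∈ Win c t y, ∀ j ∈ Win c t y, D i = false → D j = false → i = j)
    (hc : y c = true) :
    ∃ T ⊆ Win c t y, (∀ i ∈ T, D i = true) ∧ T.card = 2 * (t / 3) := by
  classical
  -- no error to the right and nonzero pair
  have R : (∀ k : ℕ, 1 ≤ k → k ≤ t → y (c + (k : ZMod n)) = true → D (c + (k : ZMod n)) = true) →
      (fr c D y 0 = true ∨ fr c D y 1 = true) →
      ∃ T ⊆ Win c t y, (∀ i ∈ T, D i = true) ∧ T.card = 2 * (t / 3) := by
    intro hno hpair
    have hrec : ∀ k, 1 ≤ k → k ≤ t → fr c D y (k + 1) = xor (fr c D y k) (fr c D y (k - 1)) := by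
      intro k h1 h2
      rw [fr_rec h k h1 h2]
      congr 1
      unfold fr
      have := hno k h1 h2
      revert this
      cases y (c + (k : ZMod n)) <;> cases D (c + (k : ZMod n)) <;> simp
    have hcard := (count_two t (fr c D y) hpair hrec).2 (t / 3) (by omega)
    refine ⟨((Finset.range (3 * (t / 3))).filter (fun k => fr c D y (k + 1) = true)).image
      (fun k : ℕ => c + ((k + 1 : ℕ) : ZMod n)), ?_, ?_, ?_⟩
    · intro i hi
      obtain ⟨k, hk, rfl⟩ := Finset.mem_image.1 hi
      obtain ⟨hk1, hk2⟩ := Finset.mem_filter.1 hk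
      have hk3 := Finset.mem_range.1 hk1
      unfold fr at hk2
      rw [Bool.and_eq_true] at hk2
      exact mem_Win_r (by omega) hk2.2
    · intro i hi
      obtain ⟨k, hk, rfl⟩ := Finset.mem_image.1 hi
      obtain ⟨hk1, hk2⟩ := Finset.mem_filter.1 hk
      unfold fr at hk2
      rw [Bool.and_eq_true] at hk2
      exact hk2.1
    · rw [Finset.card_image_of_injOn, hcard]
      intro i hi j hj hij
      have hi1 := Finset.mem_range.1 (Finset.mem_filter.1 hi).1
      have hj1 := Finset.mem_range.1 (Finset.mem_filter.1 hj).1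
      by_contra hne
      exact cast_ne (n := n) (i := i + 1) (j := j + 1) (by omega) (by omega) (by omega) c hij
  have Lf : (∀ k : ℕ, 1 ≤ k → k ≤ t → y (c - (k : ZMod n)) = true → D (c - (k : ZMod n)) = true) →
      (fl c D y 0 = true ∨ fl c D y 1 = true) →
      ∃ T ⊆ Win c t y, (∀ i ∈ T, D i = true) ∧ T.card = 2 * (t / 3) := by
    intro hno hpair
    have hrec : ∀ k, 1 ≤ k → k ≤ t → fl c D y (k + 1) = xor (fl c D y k) (fl c D y (k - 1)) := by
      intro k h1 h2
      rw [fl_rec h k h1 h2]
      congr 1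
      unfold fl
      have := hno k h1 h2
      revert this
      cases y (c - (k : ZMod n)) <;> cases D (c - (k : ZMod n)) <;> simp
    have hcard := (count_two t (fl c D y) hpair hrec).2 (t / 3) (by omega)
    refine ⟨((Finset.range (3 * (t / 3))).filter (fun k => fl c D y (k + 1) = true)).image
      (fun k : ℕ => c - ((k + 1 : ℕ) : ZMod n)), ?_, ?_, ?_⟩
    · intro i hi
      obtain ⟨k, hk, rfl⟩ := Finset.mem_image.1 hi
      obtain ⟨hk1, hk2⟩ := Finset.mem_filter.1 hk
      have hk3 := Finset.mem_range.1 hk1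
      unfold fl at hk2
      rw [Bool.and_eq_true] at hk2
      exact mem_Win_l (by omega) hk2.2
    · intro i hi
      obtain ⟨k, hk, rfl⟩ := Finset.mem_image.1 hi
      obtain ⟨hk1, hk2⟩ := Finset.mem_filter.1 hk
      unfold fl at hk2
      rw [Bool.and_eq_true] at hk2
      exact hk2.1
    · rw [Finset.card_image_of_injOn, hcard]
      intro i hi j hj hij
      have hi1 := Finset.mem_range.1 (Finset.mem_filter.1 hi).1
      have hj1 := Finset.mem_range.1 (Finset.mem_filter.1 hj).1
      by_contra hne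
      have hij' : c - ((i + 1 : ℕ) : ZMod n) = c - ((j + 1 : ℕ) : ZMod n) := hij
      have h2 : ((i + 1 : ℕ) : ZMod n) = ((j + 1 : ℕ) : ZMod n) := sub_right_injective hij'
      exact cast_ne (n := n) (i := i + 1) (j := j + 1) (by omega) (by omega) (by omega) c
        (by rw [h2])
  have hrel := centre_rel h
  rw [hc] at hrel
  have hc0 : c + ((0 : ℕ) : ZMod n) ∈ Win c t y := mem_Win_r (by omega) (by simpa using hc)
  rw [Nat.cast_zero, add_zero] at hc0
  by_cases hD : D c = true
  · -- no error at the centre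
    have hf0 : fr c D y 0 = true := by simp [fr, hD, hc]
    have hl0 : fl c D y 0 = true := by simp [fl, hD, hc]
    by_cases hR : ∀ k : ℕ, 1 ≤ k → k ≤ t → y (c + (k : ZMod n)) = true → D (c + (k : ZMod n)) = true
    · exact R hR (Or.inl hf0)
    · push Not at hR
      obtain ⟨k, hk1, hk2, hyk, hDk⟩ := hR
      refine Lf ?_ (Or.inl hl0)
      intro l hl1 hl2 hyl
      by_contra hDl
      have := hfew _ (mem_Win_r (by omega) hyk) _ (mem_Win_l (by omega) hyl) (by simpa using hDk)
        (by simpa using hDl)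
      -- c + k = c - l
      have h3 : ((k : ℕ) : ZMod n) + l = 0 := by linear_combination this
      have h4 : c + ((k + l : ℕ) : ZMod n) = c + ((0 : ℕ) : ZMod n) := by
        push_cast
        rw [h3]
      exact cast_ne (n := n) (i := k + l) (j := 0) (by omega) (by omega) (by omega) c h4
  · have hDc : D c = false := by simpa using hD
    have hno : ∀ i ∈ Win c t y, i ≠ c → D i = true := by
      intro i hi hic
      by_contra hDi
      exact hic (hfew i hi c hc0 (by simpa using hDi) hDc)
    have hR : ∀ k : ℕ, 1 ≤ k → k ≤ t → y (c + (k : ZMod n)) = true →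
        D (c + (k : ZMod n)) = true := by
      intro k h1 h2 hy
      refine hno _ (mem_Win_r (by omega) hy) ?_
      intro he
      have h4 : c + ((k : ℕ) : ZMod n) = c + ((0 : ℕ) : ZMod n) := by
        rw [he]
        simp
      exact cast_ne (n := n) (i := k) (j := 0) (by omega) (by omega) (by omega) c h4
    have hL : ∀ k : ℕ, 1 ≤ k → k ≤ t → y (c - (k : ZMod n)) = true →
        D (c - (k : ZMod n)) = true := by
      intro k h1 h2 hy
      refine hno _ (mem_Win_l (by omega) hy) ?_
      intro he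
      have h4 : c + ((k : ℕ) : ZMod n) = c + ((0 : ℕ) : ZMod n) := by
        push_cast
        linear_combination -he
      exact cast_ne (n := n) (i := k) (j := 0) (by omega) (by omega) (by omega) c h4
    by_cases hf1 : fr c D y 1 = true
    · exact R hR (Or.inr hf1)
    · refine Lf hL (Or.inr ?_)
      have hf1' : fr c D y 1 = false := by simpa using hf1
      rw [hf1'] at hrel
      simpa using hrel

/-- indicator of one of the four events -/
noncomputable def ind (c : ZMod n) (t : ℕ) (y : Cfg n) (pq : Bool × Bool) (D : Cfg n) : ℝ := by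
  classical
  exact if Void c t D y ∧ fr c D y 0 = pq.1 ∧ fr c D y 1 = pq.2 then 1 else 0

theorem ind_bound {ε : ℝ} (h0 : 0 ≤ ε) (h1 : ε ≤ 1) {c : ZMod n} {t : ℕ} {y : Cfg n}
    (hn : 2 * t + 8 ≤ n) (hc : y c = true) (pq : Bool × Bool) :
    Ex (1 - ε) (ind c t y pq) ≤ ε ^ 2 + (1 - ε) ^ (2 * (t / 3)) := by
  classical
  have hα0 : 0 ≤ 1 - ε := by linarith
  have hα1 : 1 - ε ≤ 1 := by linarith
  by_cases hex : ∃ D0, Void c t D0 y ∧ fr c D0 y 0 = pq.1 ∧ fr c D0 y 1 = pq.2
  · obtain ⟨D0, hV, hp, hq⟩ := hex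
    have hle : Ex (1 - ε) (ind c t y pq) ≤
        Ex (1 - ε) (fun D => ∏ i ∈ Win c t y, (if D i = D0 i then (1 : ℝ) else 0)) := by
      apply Ex_mono hα0 hα1
      intro D
      unfold ind
      split_ifs with hD
      · rw [Finset.prod_eq_one]
        intro i hi
        rw [if_pos]
        exact agree hD.1 hV (by rw [hD.2.1, hp]) (by rw [hD.2.2, hq]) i hi
      · exact Finset.prod_nonneg fun i _ => by split_ifs <;> norm_num
    rw [Ex_ind] at hle
    have hw0 : ∀ i, 0 ≤ (if D0 i then 1 - ε else 1 - (1 - ε)) := by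
      intro i
      split_ifs <;> linarith
    have hw1 : ∀ i, (if D0 i then 1 - ε else 1 - (1 - ε)) ≤ 1 := by
      intro i
      split_ifs <;> linarith
    refine hle.trans ?_
    by_cases hfew : ∀ i ∈ Win c t y, ∀ j ∈ Win c t y, D0 i = false → D0 j = false → i = j
    · obtain ⟨T, hT, hT1, hT2⟩ := side hn hV hfew hc
      have h2 := prod_le_sub _ T hT (fun i => if D0 i then 1 - ε else 1 - (1 - ε)) hw0 hw1
      have h3 : ∏ i ∈ T, (if D0 i then 1 - ε else 1 - (1 - ε)) = (1 - ε) ^ (2 * (t / 3)) := by
        rw [← hT2, ← Finset.prod_const]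
        refine Finset.prod_congr rfl fun i hi => ?_
        rw [hT1 i hi]
        simp
      rw [h3] at h2
      have : 0 ≤ ε ^ 2 := by positivity
      linarith
    · push Not at hfew
      obtain ⟨i, hi, j, hj, hDi, hDj, hij⟩ := hfew
      have hsub : ({i, j} : Finset (ZMod n)) ⊆ Win c t y := by
        intro x hx
        rcases Finset.mem_insert.1 hx with rfl | hx
        · exact hi
        · rw [Finset.mem_singleton.1 hx]
          exact hj
      have h2 := prod_le_sub _ _ hsub (fun i => if D0 i then 1 - ε else 1 - (1 - ε)) hw0 hw1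
      rw [Finset.prod_pair hij, hDi, hDj] at h2
      have h3 : 0 ≤ (1 - ε) ^ (2 * (t / 3)) := by positivity
      refine h2.trans ?_
      simp only [Bool.false_eq_true, if_false]
      nlinarith
  · have hzero : ind c t y pq = fun _ => (0 : ℝ) := by
      funext D
      unfold ind
      rw [if_neg (fun h => hex ⟨D, h⟩)]
    rw [hzero, Ex_const]
    positivity

end

/-- Module CENTRE. -/
theorem centre : CentreStatement := by
  classical
  intro ε h0 h1 n _ c t y hn _ hc
  have hα0 : 0 ≤ 1 - ε := by linarith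
  have hα1 : 1 - ε ≤ 1 := by linarith
  have hle : Ex (1 - ε) (fun D => voidInd c t (stepY n D y)) ≤
      Ex (1 - ε) (fun D => ∑ pq : Bool × Bool, ind c t y pq D) := by
    apply Ex_mono hα0 hα1
    intro D
    have hnn : ∀ pq : Bool × Bool, 0 ≤ ind c t y pq D := by
      intro pq
      unfold ind
      split_ifs <;> norm_num
    unfold voidInd
    split_ifs with hV
    · have h2 : ind c t y (fr c D y 0, fr c D y 1) D = 1 := by
        unfold ind
        rw [if_pos ⟨hV, rfl, rfl⟩]
      rw [← h2]
      exact Finset.single_le_sum (f := fun pq => ind c t y pq D) (fun pq _ => hnn pq)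
        (Finset.mem_univ _)
    · exact Finset.sum_nonneg fun pq _ => hnn pq
  refine hle.trans ?_
  rw [Ex_sum]
  calc ∑ pq : Bool × Bool, Ex (1 - ε) (ind c t y pq)
      ≤ ∑ _pq : Bool × Bool, (ε ^ 2 + (1 - ε) ^ (2 * (t / 3))) :=
        Finset.sum_le_sum fun pq _ => ind_bound h0 h1 hn hc pq
    _ = 4 * ε ^ 2 + 4 * (1 - ε) ^ (2 * (t / 3)) := by
        rw [Finset.sum_const, Finset.card_univ]
        simp only [Fintype.card_prod, Fintype.card_bool, nsmul_eq_mul]
        push_cast
        ring

end R150.CentreH52
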