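import Pool.Agent.Lib.MP_28292c_pr.N43.ExLib

/-! EDGE module (helper43) -/

open scoped BigOperators

set_option linter.unusedSectionVars false

namespace R150

/-- the period three pattern, as a Bool: `pat j = true` iff `3 ∤ j` -/
def pat (j : ℕ) : Bool := decide (j % 3 ≠ 0)

lemma pat_rec {j : ℕ} (h : 2 ≤ j) : pat j = xor (pat (j - 1)) (pat (j - 2)) := by
  obtain ⟨q, r, hr, hj⟩ : ∃ q r, r < 3 ∧ j = 3 * q + r := ⟨j / 3, j % 3, Nat.mod_lt _ (by norm_num), by omega⟩
  unfold pat
  interval_cases r
  · have h1 : j % 3 = 0 := by omega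
    have h2 : (j - 1) % 3 = 2 := by omega
    have h3 : (j - 2) % 3 = 1 := by omega
    simp [h1, h2, h3]
  · have h1 : j % 3 = 1 := by omega
    have h2 : (j - 1) % 3 = 0 := by omega
    have h3 : (j - 2) % 3 = 2 := by omega
    simp [h1, h2, h3]
  · have h1 : j % 3 = 2 := by omega
    have h2 : (j - 1) % 3 = 1 := by omega
    have h3 : (j - 2) % 3 = 0 := by omega
    simp [h1, h2, h3]

/-- the cells that must fire for an extension by `k` -/
def fireSet (k : ℕ) : Finset ℕ := (Finset.Icc 1 k).filter (fun j => pat j = true)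

lemma card_fireSet (k : ℕ) : (fireSet k).card = k - k / 3 := by
  induction k with
  | zero => simp [fireSet]
  | succ k ih =>
    unfold fireSet at ih ⊢
    rw [← Finset.insert_Icc_right_eq_Icc_add_one (by omega), Finset.filter_insert]
    by_cases h : pat (k + 1) = true
    · rw [if_pos h, Finset.card_insert_of_notMem, ih]
      · have h' : (k + 1) % 3 ≠ 0 := by simpa [pat] using h
        omega
      · simp
    · rw [if_neg h, ih]
      have h' : (k + 1) % 3 = 0 := by simpa [pat] using h
      omega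

section
variable {n : ℕ} [NeZero n]

lemma stepY_apply (D y : Cfg n) (i : ZMod n) :
    stepY n D y i = xor (y i) (xor (D (i - 1) && y (i - 1)) (D (i + 1) && y (i + 1))) := rfl

/-- the special second error cell -/
lemma exists_q (x : ZMod n) (y : Cfg n) (K : ℕ) :
    ∃ q : ℕ, 1 ≤ q ∧ q ≤ K + 1 ∧ ∀ j, 1 ≤ j → j ≤ K → pat j = false → y (x + (j : ZMod n)) = true →
      (∀ i, 1 ≤ i → i < j → y (x + (i : ZMod n)) = pat i) → j = q := by
  classical
  by_cases h : ∃ j, 1 ≤ j ∧ j ≤ K ∧ pat j = false ∧ y (x + (j : ZMod n)) = true ∧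
      (∀ i, 1 ≤ i → i < j → y (x + (i : ZMod n)) = pat i)
  · obtain ⟨q, h1, h2, h3, h4, h5⟩ := h
    refine ⟨q, h1, by omega, ?_⟩
    intro j hj1 hj2 hj3 hj4 hj5
    rcases lt_trichotomy j q with hlt | heq | hgt
    · have := h5 j hj1 hlt
      rw [hj4, hj3] at this
      exact absurd this (by simp)
    · exact heq
    · have := hj5 q h1 hgt
      rw [h4, h3] at this
      exact absurd this (by simp)
  · refine ⟨1, le_rfl, by omega, ?_⟩
    intro j hj1 hj2 hj3 hj4 hj5
    exact absurd ⟨j, hj1, hj2, hj3, hj4, hj5⟩ h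

/-- main combinatorial fact: a void extension forces the pattern -/
lemma extension {x : ZMod n} {D y : Cfg n} {k q K : ℕ} (hkK : k ≤ K)
    (hq : ∀ j, 1 ≤ j → j ≤ K → pat j = false → y (x + (j : ZMod n)) = true →
      (∀ i, 1 ≤ i → i < j → y (x + (i : ZMod n)) = pat i) → j = q)
    (hx : y x = true) (hxm : y (x - 1) = false) (hD : D x = false)
    (hq' : D (x + (q : ZMod n)) = true)
    (hvoid : ∀ j, j < k → stepY n D y (x + (j : ZMod n)) = false) :
    ∀ j, 1 ≤ j → j ≤ k → (D (x + (j : ZMod n)) && y (x + (j : ZMod n))) = pat j ∧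
      y (x + (j : ZMod n)) = pat j := by
  intro j
  induction j using Nat.strong_induction_on with
  | _ j ih =>
    intro hj1 hjk
    -- value of a_j
    have key : (D (x + (j : ZMod n)) && y (x + (j : ZMod n))) = pat j := by
      have hv := hvoid (j - 1) (by omega)
      rw [stepY_apply] at hv
      have e1 : x + ((j - 1 : ℕ) : ZMod n) + 1 = x + (j : ZMod n) := by
        rw [Nat.cast_sub hj1]; push_cast; ring
      rw [e1] at hv
      rcases Nat.lt_or_ge j 2 with h2 | h2
      · have hj : j = 1 := by omega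
        subst hj
        simp only [Nat.sub_self, Nat.cast_zero, add_zero, hx, hxm, Bool.and_false,
          Bool.false_xor] at hv
        have : pat 1 = true := by decide
        rw [this]
        revert hv
        cases (D (x + ((1 : ℕ) : ZMod n)) && y (x + ((1 : ℕ) : ZMod n))) <;> simp
      · have hyj : y (x + ((j - 1 : ℕ) : ZMod n)) = pat (j - 1) :=
          (ih (j - 1) (by omega) (by omega) (by omega)).2
        have haj : (D (x + ((j - 1 : ℕ) : ZMod n) - 1) && y (x + ((j - 1 : ℕ) : ZMod n) - 1))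
            = pat (j - 2) := by
          rcases Nat.lt_or_ge j 3 with h3 | h3
          · have hj : j = 2 := by omega
            subst hj
            have : x + ((2 - 1 : ℕ) : ZMod n) - 1 = x := by push_cast; ring
            rw [this, hD]
            simp [pat]
          · have e2 : x + ((j - 1 : ℕ) : ZMod n) - 1 = x + ((j - 2 : ℕ) : ZMod n) := by
              rw [Nat.cast_sub hj1, Nat.cast_sub h2]; push_cast; ring
            rw [e2]
            exact (ih (j - 2) (by omega) (by omega) (by omega)).1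
        rw [hyj, haj] at hv
        rw [pat_rec h2]
        revert hv
        cases (D (x + (j : ZMod n)) && y (x + (j : ZMod n))) <;> cases pat (j - 1) <;>
          cases pat (j - 2) <;> simp
    refine ⟨key, ?_⟩
    cases hp : pat j with
    | true =>
      rw [hp] at key
      simp only [Bool.and_eq_true] at key
      exact key.2
    | false =>
      by_contra hne
      have hyt : y (x + (j : ZMod n)) = true := by simpa using hne
      have hjq : j = q := hq j hj1 (by omega) hp hyt
        (fun i hi1 hij => (ih i hij hi1 (by omega)).2)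
      rw [hp, hjq, hq', ← hjq, hyt] at key
      simp at key

end


lemma sum_range_three (f : ℕ → ℝ) (N : ℕ) :
    ∑ i ∈ Finset.range (3 * N), f i = ∑ t ∈ Finset.range N, (f (3 * t) + f (3 * t + 1) + f (3 * t + 2)) := by
  induction N with
  | zero => simp
  | succ N ih =>
    have : 3 * (N + 1) = 3 * N + 1 + 1 + 1 := by ring
    rw [this, Finset.sum_range_succ, Finset.sum_range_succ, Finset.sum_range_succ, ih,
      Finset.sum_range_succ]
    ring

lemma geom_bound {r : ℝ} (h0 : 0 ≤ r) (_h1 : r < 1) (N : ℕ) :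
    (∑ t ∈ Finset.range N, r ^ t) * (1 - r) ≤ 1 := by
  have h := geom_sum_mul_neg r N
  rw [h]
  have : 0 ≤ r ^ N := pow_nonneg h0 N
  linarith

/-- numerical bound of the extension series -/
lemma series_bound {ε : ℝ} (h0 : 0 < ε) (h1 : ε ≤ 1 / 100) (K : ℕ) :
    (pb ε - 1) * ∑ i ∈ Finset.range K, pb ε ^ i * (1 - ε) ^ ((i + 1) - (i + 1) / 3) ≤ 11 / 100 := by
  set b := pb ε with hb
  set a := 1 - ε with ha
  have hb1 : b - 1 = ε / 16 := by rw [hb]; unfold pb; ring
  have hbpos : 0 < b := by linarith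
  have ha0 : 0 < a := by linarith
  have ha1 : a ≤ 1 := by linarith
  set f : ℕ → ℝ := fun i => b ^ i * a ^ ((i + 1) - (i + 1) / 3) with hf
  have hf0 : ∀ i, 0 ≤ f i := fun i => by positivity
  have hmono : ∑ i ∈ Finset.range K, f i ≤ ∑ i ∈ Finset.range (3 * K), f i := by
    apply Finset.sum_le_sum_of_subset_of_nonneg
    · intro i hi
      simp only [Finset.mem_range] at hi ⊢
      omega
    · intro i _ _
      exact hf0 i
  have hthree : ∑ i ∈ Finset.range (3 * K), f i
      = (a + b * a ^ 2 + b ^ 2 * a ^ 2) * ∑ t ∈ Finset.range K, (b ^ 3 * a ^ 2) ^ t := by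
    rw [sum_range_three, Finset.mul_sum]
    apply Finset.sum_congr rfl
    intro t _
    have e1 : (3 * t + 1) - (3 * t + 1) / 3 = 2 * t + 1 := by omega
    have e2 : (3 * t + 1 + 1) - (3 * t + 1 + 1) / 3 = 2 * t + 2 := by omega
    have e3 : (3 * t + 2 + 1) - (3 * t + 2 + 1) / 3 = 2 * t + 2 := by omega
    simp only [hf, e1, e2, e3]
    ring_nf
  have hr0 : 0 ≤ b ^ 3 * a ^ 2 := by positivity
  have hbv : b = 1 + ε / 16 := by linarith
  have hr : b ^ 3 * a ^ 2 ≤ 1 - 18 / 10 * ε := by
    have e1 : b ^ 3 ≤ 1 + 19 / 100 * ε := by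
      rw [hbv]
      nlinarith [mul_pos h0 h0, mul_pos h0 (mul_pos h0 h0), mul_le_mul_of_nonneg_left h1 h0.le,
        mul_le_mul_of_nonneg_left h1 (mul_pos h0 h0).le]
    have e2 : a ^ 2 ≤ 1 - 199 / 100 * ε := by
      rw [ha]
      nlinarith [mul_le_mul_of_nonneg_left h1 h0.le]
    have e3 : 0 ≤ a ^ 2 := by positivity
    calc b ^ 3 * a ^ 2 ≤ (1 + 19 / 100 * ε) * (1 - 199 / 100 * ε) :=
          mul_le_mul e1 e2 e3 (by linarith)
      _ ≤ 1 - 18 / 10 * ε := by nlinarith [mul_pos h0 h0]
  have hr1 : b ^ 3 * a ^ 2 < 1 := by linarith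
  have hg := geom_bound hr0 hr1 K
  set G := ∑ t ∈ Finset.range K, (b ^ 3 * a ^ 2) ^ t with hG
  have hG0 : 0 ≤ G := Finset.sum_nonneg fun t _ => pow_nonneg hr0 t
  have hG1 : G * (18 / 10 * ε) ≤ 1 := by
    have : G * (18 / 10 * ε) ≤ G * (1 - b ^ 3 * a ^ 2) :=
      mul_le_mul_of_nonneg_left (by linarith) hG0
    linarith
  have hnum : a + b * a ^ 2 + b ^ 2 * a ^ 2 ≤ 3.01 := by
    have hb2 : b ≤ 1001 / 1000 := by rw [hbv]; linarith
    have ha2 : a ^ 2 ≤ 1 := pow_le_one₀ ha0.le ha1
    have h3 : b * a ^ 2 ≤ 1001 / 1000 * 1 := mul_le_mul hb2 ha2 (by positivity) (by norm_num)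
    have hb3 : b ^ 2 ≤ (1001 / 1000) ^ 2 := pow_le_pow_left₀ hbpos.le hb2 2
    have h4 : b ^ 2 * a ^ 2 ≤ (1001 / 1000) ^ 2 * 1 := mul_le_mul hb3 ha2 (by positivity) (by norm_num)
    linarith
  have hfin : (b - 1) * ∑ i ∈ Finset.range K, f i ≤ ε / 16 * (3.01 * G) := by
    rw [hb1]
    apply mul_le_mul_of_nonneg_left _ (by linarith)
    calc ∑ i ∈ Finset.range K, f i ≤ _ := hmono
      _ = (a + b * a ^ 2 + b ^ 2 * a ^ 2) * G := hthree
      _ ≤ 3.01 * G := mul_le_mul_of_nonneg_right hnum hG0
  have : ε / 16 * (3.01 * G) = 3.01 / 16 / (18 / 10) * (G * (18 / 10 * ε)) := by ring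
  rw [this] at hfin
  calc (b - 1) * ∑ i ∈ Finset.range K, f i ≤ 3.01 / 16 / (18 / 10) * (G * (18 / 10 * ε)) := hfin
    _ ≤ 3.01 / 16 / (18 / 10) * 1 := by
        apply mul_le_mul_of_nonneg_left hG1 (by norm_num)
    _ ≤ 11 / 100 := by norm_num

/-- good state inequality -/
lemma num_good {ε : ℝ} (h0 : 0 < ε) (h1 : ε ≤ 1 / 100) :
    (1 + pbeta ε) * ((1 - ε) * (pb ε)⁻¹ + ε) ≤ pkap ε := by
  have hb : 0 < pb ε := by unfold pb; linarith
  have hinv : (pb ε)⁻¹ ≤ 1 - ε / 16 + ε ^ 2 / 256 := by
    rw [inv_le_iff_one_le_mul₀ hb]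
    unfold pb
    nlinarith [pow_pos h0 3]
  have h2 : (1 - ε) * (pb ε)⁻¹ ≤ (1 - ε) * (1 - ε / 16 + ε ^ 2 / 256) :=
    mul_le_mul_of_nonneg_left hinv (by linarith)
  have hβ : 0 < 1 + pbeta ε := by unfold pbeta; linarith
  calc (1 + pbeta ε) * ((1 - ε) * (pb ε)⁻¹ + ε)
      ≤ (1 + pbeta ε) * ((1 - ε) * (1 - ε / 16 + ε ^ 2 / 256) + ε) :=
        mul_le_mul_of_nonneg_left (by linarith) hβ.le
    _ ≤ pkap ε := by
        unfold pbeta pkap
        nlinarith [mul_pos h0 h0, pow_pos h0 3, mul_le_mul_of_nonneg_left h1 h0.le,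
          mul_le_mul_of_nonneg_left h1 (mul_pos h0 h0).le,
          mul_le_mul_of_nonneg_left h1 (pow_pos h0 3).le, pow_pos h0 4]

/-- bad state inequality -/
lemma num_bad {ε : ℝ} (h0 : 0 < ε) (h1 : ε ≤ 1 / 100) :
    (pb ε)⁻¹ * ((1 - ε) * (1 - ε)) + (pb ε)⁻¹ * (1 + pbeta ε) * ((1 - ε) * ε)
      + (1 + pbeta ε) * (ε * (1 + 11 / 100)) ≤ pkap ε * (1 + pbeta ε) := by
  have hb : 0 < pb ε := by unfold pb; linarith
  have hinv : (pb ε)⁻¹ ≤ 1 - ε / 16 + ε ^ 2 / 256 := by
    rw [inv_le_iff_one_le_mul₀ hb]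
    unfold pb
    nlinarith [pow_pos h0 3]
  have e : (pb ε)⁻¹ * ((1 - ε) * (1 - ε)) + (pb ε)⁻¹ * (1 + pbeta ε) * ((1 - ε) * ε)
      = (pb ε)⁻¹ * ((1 - ε) * (1 + ε * pbeta ε)) := by ring
  rw [e]
  have hβ : 0 < pbeta ε := by unfold pbeta; linarith
  have h2 : (pb ε)⁻¹ * ((1 - ε) * (1 + ε * pbeta ε))
      ≤ (1 - ε / 16 + ε ^ 2 / 256) * ((1 - ε) * (1 + ε * pbeta ε)) := by
    apply mul_le_mul_of_nonneg_right hinv
    apply mul_nonneg (by linarith)
    positivity
  have h3 : (1 - ε / 16 + ε ^ 2 / 256) * ((1 - ε) * (1 + ε * pbeta ε))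
      + (1 + pbeta ε) * (ε * (1 + 11 / 100)) ≤ pkap ε * (1 + pbeta ε) := by
    unfold pbeta pkap
    nlinarith [mul_pos h0 h0, pow_pos h0 3, mul_le_mul_of_nonneg_left h1 h0.le,
      mul_le_mul_of_nonneg_left h1 (mul_pos h0 h0).le,
      mul_le_mul_of_nonneg_left h1 (pow_pos h0 3).le, pow_pos h0 4, pow_pos h0 5,
      mul_le_mul_of_nonneg_left h1 (pow_pos h0 4).le]
  linarith

section
variable {n : ℕ} [NeZero n]

lemma Ex_cells (a : ℝ) (x : ZMod n) (s : Finset ℕ) (hs : ∀ j ∈ s, j < n) (v : ℕ → Bool) :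
    Ex a (fun D : Cfg n => ∏ j ∈ s, (if D (x + (j : ZMod n)) = v j then (1 : ℝ) else 0))
      = ∏ j ∈ s, (if v j then a else 1 - a) := by
  classical
  have hinj : Set.InjOn (fun j : ℕ => x + (j : ZMod n)) s := by
    intro i hi j hj h
    by_contra hne
    exact cast_ne (hs i hi) (hs j hj) hne x h
  have hval : ∀ j ∈ s, v ((x + (j : ZMod n) - x).val) = v j := by
    intro j hj
    congr 1
    have : x + (j : ZMod n) - x = (j : ZMod n) := by ring
    rw [this, ZMod.val_natCast_of_lt (hs j hj)]
  have h := Ex_ind a (s.image (fun j : ℕ => x + (j : ZMod n))) (fun i => v ((i - x).val))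
  rw [Finset.prod_image hinj] at h
  have h2 : (fun D : Cfg n => ∏ i ∈ s.image (fun j : ℕ => x + (j : ZMod n)),
      (if D i = v ((i - x).val) then (1 : ℝ) else 0))
      = fun D : Cfg n => ∏ j ∈ s, (if D (x + (j : ZMod n)) = v j then (1 : ℝ) else 0) := by
    funext D
    rw [Finset.prod_image hinj]
    apply Finset.prod_congr rfl
    intro j hj
    rw [hval j hj]
  rw [h2] at h
  rw [h]
  apply Finset.prod_congr rfl
  intro j hj
  rw [hval j hj]

end


section
variable {n : ℕ} [NeZero n]

/-- elementary positions -/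
lemma case_true {c : ZMod n} {M : ℕ} {D y : Cfg n} (hX : 2 ≤ fst c M y) (hM : fst c M y ≤ M)
    (hD : D (c + (fst c M y : ZMod n)) = true) :
    fst c M (stepY n D y) ≤ fst c M y - 1 ∧
    (fst c M (stepY n D y) = fst c M y - 1 →
      stepY n D y (c + (fst c M (stepY n D y) : ZMod n) + 1)
        = xor true (D (c + (fst c M y : ZMod n) + 1) && y (c + (fst c M y : ZMod n) + 1))) := by
  set X := fst c M y with hXdef
  have hx : y (c + (X : ZMod n)) = true := fst_spec hM
  have hm1 : y (c + ((X - 1 : ℕ) : ZMod n)) = false := of_lt_fst (M := M) (by omega)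
  have hm2 : y (c + ((X - 2 : ℕ) : ZMod n)) = false := of_lt_fst (M := M) (by omega)
  have e1 : c + ((X - 1 : ℕ) : ZMod n) + 1 = c + (X : ZMod n) := by
    rw [Nat.cast_sub (by omega)]; push_cast; ring
  have e2 : c + ((X - 1 : ℕ) : ZMod n) - 1 = c + ((X - 2 : ℕ) : ZMod n) := by
    rw [Nat.cast_sub (by omega), Nat.cast_sub hX]; push_cast; ring
  have e3 : c + (X : ZMod n) - 1 = c + ((X - 1 : ℕ) : ZMod n) := by
    rw [Nat.cast_sub (by omega)]; push_cast; ring
  have h1 : stepY n D y (c + ((X - 1 : ℕ) : ZMod n)) = true := by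
    rw [stepY_apply, e1, e2, hm1, hm2, hx, hD]
    simp
  have h2 : fst c M (stepY n D y) ≤ X - 1 := fst_le (by omega) h1
  refine ⟨h2, ?_⟩
  intro h3
  rw [h3, e1, stepY_apply, e3, hm1, hx]
  simp

lemma case_false_good {c : ZMod n} {M : ℕ} {D y : Cfg n} (hX : 1 ≤ fst c M y) (hM : fst c M y ≤ M)
    (hy : y (c + (fst c M y : ZMod n) + 1) = false) :
    fst c M (stepY n D y) ≤ fst c M y := by
  set X := fst c M y with hXdef
  have hx : y (c + (X : ZMod n)) = true := fst_spec hM
  have hm1 : y (c + ((X - 1 : ℕ) : ZMod n)) = false := of_lt_fst (M := M) (by omega)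
  have e3 : c + (X : ZMod n) - 1 = c + ((X - 1 : ℕ) : ZMod n) := by
    rw [Nat.cast_sub (by omega)]; push_cast; ring
  apply fst_le hM
  rw [stepY_apply, e3, hm1, hx, hy]
  simp

lemma case_false_bad {c : ZMod n} {M q : ℕ} {D y : Cfg n} (hX : 1 ≤ fst c M y) (hM : fst c M y ≤ M)
    (hD : D (c + (fst c M y : ZMod n)) = false)
    (hq : ∀ j, 1 ≤ j → j ≤ M + 1 - fst c M y → pat j = false →
      y (c + (fst c M y : ZMod n) + (j : ZMod n)) = true →
      (∀ i, 1 ≤ i → i < j → y (c + (fst c M y : ZMod n) + (i : ZMod n)) = pat i) → j = q)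
    (hq' : D (c + (fst c M y : ZMod n) + (q : ZMod n)) = true) :
    ∀ j ∈ fireSet (fst c M (stepY n D y) - fst c M y),
      D (c + (fst c M y : ZMod n) + (j : ZMod n)) = true := by
  set X := fst c M y with hXdef
  set X' := fst c M (stepY n D y) with hX'def
  have hx : y (c + (X : ZMod n)) = true := fst_spec hM
  have hm1 : y (c + ((X - 1 : ℕ) : ZMod n)) = false := of_lt_fst (M := M) (by omega)
  have e3 : c + (X : ZMod n) - 1 = c + ((X - 1 : ℕ) : ZMod n) := by
    rw [Nat.cast_sub (by omega)]; push_cast; ring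
  have hle : X' ≤ M + 1 := fst_le_succ c M _
  intro j hj
  simp only [fireSet, Finset.mem_filter, Finset.mem_Icc] at hj
  have h := extension (k := X' - X) (K := M + 1 - X) (by omega) hq hx (by rw [e3]; exact hm1) hD hq'
    (by
      intro i hi
      have e : c + (X : ZMod n) + (i : ZMod n) = c + ((X + i : ℕ) : ZMod n) := by push_cast; ring
      rw [e]
      exact of_lt_fst (M := M) (by omega)) j hj.1.1 hj.1.2
  have h1 := h.1
  rw [hj.2] at h1
  simp only [Bool.and_eq_true] at h1
  exact h1.1

lemma pow_le_add {b : ℝ} (hb : 1 ≤ b) (X X' : ℕ) : b ^ X' ≤ b ^ X * b ^ (X' - X) := by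
  rw [← pow_add]
  exact pow_le_pow_right₀ hb (by omega)

lemma pow_eq_geom (b : ℝ) (m : ℕ) : b ^ m = 1 + (b - 1) * ∑ i ∈ Finset.range m, b ^ i := by
  have := mul_geom_sum b m
  linarith

theorem edge_thm : EdgeStatement := by
  classical
  refine ⟨1 / 100, by norm_num, ?_⟩
  intro ε h0 h1 n _ c M C y hn hC hX hcase
  set b := pb ε with hb
  set β := pbeta ε with hβ
  set κ := pkap ε with hκ
  have hb1 : 1 ≤ b := by rw [hb]; unfold pb; linarith
  have hb0 : 0 < b := by linarith
  have hβ0 : 0 ≤ β := by rw [hβ]; unfold pbeta; linarith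
  have hβb : 1 + β ≤ b := by rw [hb, hβ]; unfold pb pbeta; linarith
  have hκ0 : 0 ≤ κ := by rw [hκ]; unfold pkap; linarith
  have ha0 : (0 : ℝ) ≤ 1 - ε := by linarith
  have ha1 : (1 : ℝ) - ε ≤ 1 := by linarith
  by_cases hXM : fst c M y ≤ M
  swap
  · -- trivial case
    have hX1 : fst c M y = M + 1 := le_antisymm (fst_le_succ c M y) (by omega)
    have hbig : 1 ≤ C * κ * b ^ (M + 1) := by
      rcases hcase with h | h
      · exact absurd h hXM
      · exact h
    have hE : Ex (1 - ε) (fun D => min 1 (C * b ^ (fst c M (stepY n D y)) * chi β c M (stepY n D y))) ≤ 1 := by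
      calc _ ≤ Ex (1 - ε) (fun _ : Cfg n => (1 : ℝ)) := Ex_mono ha0 ha1 (fun D => min_le_left _ _)
        _ = 1 := Ex_const _ _
    have hchi := one_le_chi hβ0 c M y
    rw [hX1]
    have : (1 : ℝ) ≤ C * κ * b ^ (M + 1) * chi β c M y := by nlinarith
    nlinarith [sq_nonneg ε]
  set X := fst c M y with hXdef
  set x : ZMod n := c + (X : ZMod n) with hxdef
  set R0 : ℝ := C * b ^ X with hR0
  have hR0' : 0 ≤ R0 := by positivity
  have hn' : X < n := by omega
  -- the factor for D x = true
  have htrue : ∀ D : Cfg n, D x = true → C * b ^ (fst c M (stepY n D y)) * chi β c M (stepY n D y)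
      ≤ R0 * b⁻¹ * (1 + β) := by
    intro D hD
    have h := (case_true hX hXM hD).1
    have h2 : b ^ (fst c M (stepY n D y)) ≤ b ^ X * b⁻¹ := by
      rw [← div_eq_mul_inv, le_div_iff₀ hb0, ← pow_succ]
      exact pow_le_pow_right₀ hb1 (by omega)
    have h3 := chi_le hβ0 c M (stepY n D y)
    have h4 := one_le_chi hβ0 c M (stepY n D y)
    calc C * b ^ (fst c M (stepY n D y)) * chi β c M (stepY n D y)
        ≤ C * (b ^ X * b⁻¹) * (1 + β) := by
          apply mul_le_mul _ h3 (by linarith) (by positivity)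
          exact mul_le_mul_of_nonneg_left h2 hC
      _ = R0 * b⁻¹ * (1 + β) := by rw [hR0]; ring
  have hone : (0 : ℕ) < n := by omega
  -- single cell expectations
  have hx0 : x + ((0 : ℕ) : ZMod n) = x := by simp
  have hx1 : x + ((1 : ℕ) : ZMod n) = x + 1 := by simp
  by_cases hy1 : y (x + 1) = true
  · -- bad state
    have hchi : chi β c M y = 1 + β := by
      unfold chi
      rw [if_pos hy1]
    set K := M + 1 - X with hK
    obtain ⟨q, hq1, hq2, hq⟩ := exists_q x y K
    have hqn : q < n := by omega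
    -- pointwise bound
    have hpt : ∀ D : Cfg n, min 1 (C * b ^ (fst c M (stepY n D y)) * chi β c M (stepY n D y))
        ≤ R0 * b⁻¹ * ∏ j ∈ ({0, 1} : Finset ℕ), (if D (x + (j : ZMod n)) = (fun _ => true) j then (1 : ℝ) else 0)
          + R0 * b⁻¹ * (1 + β) * ∏ j ∈ ({0, 1} : Finset ℕ), (if D (x + (j : ZMod n)) = (fun j => decide (j = 0)) j then (1 : ℝ) else 0)
          + R0 * (1 + β) * ∏ j ∈ ({0} : Finset ℕ), (if D (x + (j : ZMod n)) = (fun _ => false) j then (1 : ℝ) else 0)
          + R0 * (1 + β) * ((b - 1) * ∑ i ∈ Finset.range K, b ^ i *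
              ∏ j ∈ insert 0 (fireSet (i + 1)), (if D (x + (j : ZMod n)) = (fun j => decide (j ≠ 0)) j then (1 : ℝ) else 0))
          + ∏ j ∈ ({0, q} : Finset ℕ), (if D (x + (j : ZMod n)) = (fun _ => false) j then (1 : ℝ) else 0) := by
      intro D
      have hP0 : ∀ (s : Finset ℕ) (v : ℕ → Bool),
          0 ≤ ∏ j ∈ s, (if D (x + (j : ZMod n)) = v j then (1 : ℝ) else 0) := by
        intro s v
        apply Finset.prod_nonneg
        intro j _
        split_ifs <;> norm_num
      have hsum0 : 0 ≤ ∑ i ∈ Finset.range K, b ^ i *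
              ∏ j ∈ insert 0 (fireSet (i + 1)), (if D (x + (j : ZMod n)) = (fun j => decide (j ≠ 0)) j then (1 : ℝ) else 0) :=
        Finset.sum_nonneg fun i _ => mul_nonneg (by positivity) (hP0 _ _)
      have hA := hP0 {0, 1} (fun _ => true)
      have hB := hP0 {0, 1} (fun j => decide (j = 0))
      have hCc := hP0 {0} (fun _ => false)
      have hE := hP0 {0, q} (fun _ => false)
      have hb1' : 0 ≤ b - 1 := by linarith
      have hbinv : 0 < b⁻¹ := by positivity
      have tA : 0 ≤ R0 * b⁻¹ * ∏ j ∈ ({0, 1} : Finset ℕ), (if D (x + (j : ZMod n)) = (fun _ => true) j then (1 : ℝ) else 0) := by positivity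
      have tB : 0 ≤ R0 * b⁻¹ * (1 + β) * ∏ j ∈ ({0, 1} : Finset ℕ), (if D (x + (j : ZMod n)) = (fun j => decide (j = 0)) j then (1 : ℝ) else 0) := by positivity
      have tC : 0 ≤ R0 * (1 + β) * ∏ j ∈ ({0} : Finset ℕ), (if D (x + (j : ZMod n)) = (fun _ => false) j then (1 : ℝ) else 0) := by positivity
      have tD : 0 ≤ R0 * (1 + β) * ((b - 1) * ∑ i ∈ Finset.range K, b ^ i *
              ∏ j ∈ insert 0 (fireSet (i + 1)), (if D (x + (j : ZMod n)) = (fun j => decide (j ≠ 0)) j then (1 : ℝ) else 0)) := by positivity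
      cases hD : D x with
      | true =>
        obtain ⟨hc1, hc2⟩ := case_true hX hXM hD
        cases hD1 : D (x + 1) with
        | true =>
          have hval : (∏ j ∈ ({0, 1} : Finset ℕ), (if D (x + (j : ZMod n)) = (fun _ => true) j then (1 : ℝ) else 0)) = 1 := by
            rw [Finset.prod_pair (by norm_num)]
            simp [hD, hD1]
          rw [hval] at tA ⊢
          have hmain : C * b ^ (fst c M (stepY n D y)) * chi β c M (stepY n D y) ≤ R0 * b⁻¹ * 1 := by
            rcases Nat.lt_or_ge (fst c M (stepY n D y)) (X - 1) with hlt | hge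
            · have h2 : b ^ (fst c M (stepY n D y)) * b ^ 2 ≤ b ^ X := by
                rw [← pow_add]
                exact pow_le_pow_right₀ hb1 (by omega)
              have h3 := chi_le hβ0 c M (stepY n D y)
              have h4 : b ^ (fst c M (stepY n D y)) * chi β c M (stepY n D y) ≤ b ^ X * b⁻¹ := by
                rw [← div_eq_mul_inv, le_div_iff₀ hb0]
                calc b ^ (fst c M (stepY n D y)) * chi β c M (stepY n D y) * b
                    ≤ b ^ (fst c M (stepY n D y)) * b * b := by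
                      apply mul_le_mul_of_nonneg_right _ hb0.le
                      apply mul_le_mul_of_nonneg_left _ (by positivity)
                      linarith
                  _ = b ^ (fst c M (stepY n D y)) * b ^ 2 := by ring
                  _ ≤ b ^ X := h2
              calc C * b ^ (fst c M (stepY n D y)) * chi β c M (stepY n D y)
                  = C * (b ^ (fst c M (stepY n D y)) * chi β c M (stepY n D y)) := by ring
                _ ≤ C * (b ^ X * b⁻¹) := mul_le_mul_of_nonneg_left h4 hC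
                _ = R0 * b⁻¹ * 1 := by rw [hR0]; ring
            · have heq : fst c M (stepY n D y) = X - 1 := by omega
              have hsec := hc2 heq
              have hchi' : chi β c M (stepY n D y) = 1 := by
                unfold chi
                rw [hsec]
                have : (D (c + (X : ZMod n) + 1) && y (c + (X : ZMod n) + 1)) = true := by
                  rw [← hxdef, hD1, hy1]; rfl
                rw [this]
                simp
              rw [hchi', heq]
              have h2 : b ^ (X - 1) = b ^ X * b⁻¹ := by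
                rw [← div_eq_mul_inv, eq_div_iff hb0.ne', ← pow_succ]
                congr 1
                omega
              rw [h2, hR0]
              apply le_of_eq
              ring
          calc _ ≤ C * b ^ (fst c M (stepY n D y)) * chi β c M (stepY n D y) := min_le_right _ _
            _ ≤ _ := by linarith
        | false =>
          have hval : (∏ j ∈ ({0, 1} : Finset ℕ), (if D (x + (j : ZMod n)) = (fun j => decide (j = 0)) j then (1 : ℝ) else 0)) = 1 := by
            rw [Finset.prod_pair (by norm_num)]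
            simp [hD, hD1]
          rw [hval] at tB ⊢
          calc _ ≤ C * b ^ (fst c M (stepY n D y)) * chi β c M (stepY n D y) := min_le_right _ _
            _ ≤ R0 * b⁻¹ * (1 + β) := htrue D hD
            _ ≤ _ := by linarith
      | false =>
        cases hDq : D (x + (q : ZMod n)) with
        | false =>
          have hval : (∏ j ∈ ({0, q} : Finset ℕ), (if D (x + (j : ZMod n)) = (fun _ => false) j then (1 : ℝ) else 0)) = 1 := by
            rw [Finset.prod_pair (by omega)]
            simp [hD, hDq]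
          rw [hval] at hE ⊢
          calc _ ≤ (1 : ℝ) := min_le_left _ _
            _ ≤ _ := by linarith
        | true =>
          have hfire := case_false_bad (by omega) hXM hD hq hDq
          set X' := fst c M (stepY n D y) with hX'
          have hX'le : X' ≤ M + 1 := fst_le_succ c M _
          have hC1 : (∏ j ∈ ({0} : Finset ℕ), (if D (x + (j : ZMod n)) = (fun _ => false) j then (1 : ℝ) else 0)) = 1 := by
            simp [hD]
          have hprod : ∀ i ∈ Finset.range (X' - X), (∏ j ∈ insert 0 (fireSet (i + 1)),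
              (if D (x + (j : ZMod n)) = (fun j => decide (j ≠ 0)) j then (1 : ℝ) else 0)) = 1 := by
            intro i hi
            apply Finset.prod_eq_one
            intro j hj
            rw [Finset.mem_range] at hi
            rw [Finset.mem_insert] at hj
            rcases hj with hj | hj
            · subst hj
              simp [hD]
            · have hj' : j ∈ fireSet (X' - X) := by
                simp only [fireSet, Finset.mem_filter, Finset.mem_Icc] at hj ⊢
                exact ⟨⟨hj.1.1, by omega⟩, hj.2⟩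
              have hj0 : j ≠ 0 := by
                simp only [fireSet, Finset.mem_filter, Finset.mem_Icc] at hj
                omega
              rw [if_pos]
              rw [hfire j hj']
              simp [hj0]
          have hsumge : ∑ i ∈ Finset.range (X' - X), b ^ i ≤ ∑ i ∈ Finset.range K, b ^ i *
              ∏ j ∈ insert 0 (fireSet (i + 1)), (if D (x + (j : ZMod n)) = (fun j => decide (j ≠ 0)) j then (1 : ℝ) else 0) := by
            calc ∑ i ∈ Finset.range (X' - X), b ^ i
                = ∑ i ∈ Finset.range (X' - X), b ^ i *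
              ∏ j ∈ insert 0 (fireSet (i + 1)), (if D (x + (j : ZMod n)) = (fun j => decide (j ≠ 0)) j then (1 : ℝ) else 0) := by
                  apply Finset.sum_congr rfl
                  intro i hi
                  rw [hprod i hi, mul_one]
              _ ≤ _ := by
                  apply Finset.sum_le_sum_of_subset_of_nonneg
                  · intro i hi
                    simp only [Finset.mem_range] at hi ⊢
                    omega
                  · intro i _ _
                    exact mul_nonneg (by positivity) (hP0 _ _)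
          have hpow : b ^ X' ≤ b ^ X * (1 + (b - 1) * ∑ i ∈ Finset.range K, b ^ i *
              ∏ j ∈ insert 0 (fireSet (i + 1)), (if D (x + (j : ZMod n)) = (fun j => decide (j ≠ 0)) j then (1 : ℝ) else 0)) := by
            calc b ^ X' ≤ b ^ X * b ^ (X' - X) := pow_le_add hb1 X X'
              _ = b ^ X * (1 + (b - 1) * ∑ i ∈ Finset.range (X' - X), b ^ i) := by rw [← pow_eq_geom]
              _ ≤ _ := by
                  apply mul_le_mul_of_nonneg_left _ (by positivity)
                  have := mul_le_mul_of_nonneg_left hsumge hb1'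
                  linarith
          have h3 := chi_le hβ0 c M (stepY n D y)
          have h4 := one_le_chi hβ0 c M (stepY n D y)
          have hmain : C * b ^ X' * chi β c M (stepY n D y) ≤ R0 * (1 + β) * (1 + (b - 1) * ∑ i ∈ Finset.range K, b ^ i *
              ∏ j ∈ insert 0 (fireSet (i + 1)), (if D (x + (j : ZMod n)) = (fun j => decide (j ≠ 0)) j then (1 : ℝ) else 0)) := by
            calc C * b ^ X' * chi β c M (stepY n D y)
                ≤ C * (b ^ X * (1 + (b - 1) * ∑ i ∈ Finset.range K, b ^ i *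
              ∏ j ∈ insert 0 (fireSet (i + 1)), (if D (x + (j : ZMod n)) = (fun j => decide (j ≠ 0)) j then (1 : ℝ) else 0))) * (1 + β) := by
                  apply mul_le_mul _ h3 (by linarith) (by positivity)
                  exact mul_le_mul_of_nonneg_left hpow hC
              _ = _ := by rw [hR0]; ring
          rw [hC1]
          calc _ ≤ C * b ^ X' * chi β c M (stepY n D y) := min_le_right _ _
            _ ≤ _ := hmain
            _ ≤ _ := by linarith
    -- take expectations
    have hExp := Ex_mono ha0 ha1 hpt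
    have hcalc : Ex (1 - ε) (fun D : Cfg n => R0 * b⁻¹ * ∏ j ∈ ({0, 1} : Finset ℕ), (if D (x + (j : ZMod n)) = (fun _ => true) j then (1 : ℝ) else 0)
          + R0 * b⁻¹ * (1 + β) * ∏ j ∈ ({0, 1} : Finset ℕ), (if D (x + (j : ZMod n)) = (fun j => decide (j = 0)) j then (1 : ℝ) else 0)
          + R0 * (1 + β) * ∏ j ∈ ({0} : Finset ℕ), (if D (x + (j : ZMod n)) = (fun _ => false) j then (1 : ℝ) else 0)
          + R0 * (1 + β) * ((b - 1) * ∑ i ∈ Finset.range K, b ^ i *
              ∏ j ∈ insert 0 (fireSet (i + 1)), (if D (x + (j : ZMod n)) = (fun j => decide (j ≠ 0)) j then (1 : ℝ) else 0))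
          + ∏ j ∈ ({0, q} : Finset ℕ), (if D (x + (j : ZMod n)) = (fun _ => false) j then (1 : ℝ) else 0))
        = R0 * b⁻¹ * ((1 - ε) * (1 - ε)) + R0 * b⁻¹ * (1 + β) * ((1 - ε) * ε) + R0 * (1 + β) * ε
          + R0 * (1 + β) * ((b - 1) * ∑ i ∈ Finset.range K, b ^ i * (ε * (1 - ε) ^ ((i + 1) - (i + 1) / 3)))
          + ε * ε := by
      rw [Ex_add, Ex_add, Ex_add, Ex_add, Ex_mul_left, Ex_mul_left, Ex_mul_left, Ex_mul_left, Ex_mul_left,
        Ex_sum]
      have hA : Ex (1 - ε) (fun D : Cfg n => ∏ j ∈ ({0, 1} : Finset ℕ), (if D (x + (j : ZMod n)) = (fun _ => true) j then (1 : ℝ) else 0))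
          = (1 - ε) * (1 - ε) := by
        rw [Ex_cells (1 - ε) x {0, 1} (by intro j hj; simp at hj; omega) (fun _ => true),
          Finset.prod_pair (by norm_num)]
        simp
      have hB : Ex (1 - ε) (fun D : Cfg n => ∏ j ∈ ({0, 1} : Finset ℕ), (if D (x + (j : ZMod n)) = (fun j => decide (j = 0)) j then (1 : ℝ) else 0))
          = (1 - ε) * ε := by
        rw [Ex_cells (1 - ε) x {0, 1} (by intro j hj; simp at hj; omega) (fun j => decide (j = 0)),
          Finset.prod_pair (by norm_num)]
        simp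
      have hCc : Ex (1 - ε) (fun D : Cfg n => ∏ j ∈ ({0} : Finset ℕ), (if D (x + (j : ZMod n)) = (fun _ => false) j then (1 : ℝ) else 0))
          = ε := by
        rw [Ex_cells (1 - ε) x {0} (by intro j hj; simp at hj; omega) (fun _ => false)]
        simp
      have hE : Ex (1 - ε) (fun D : Cfg n => ∏ j ∈ ({0, q} : Finset ℕ), (if D (x + (j : ZMod n)) = (fun _ => false) j then (1 : ℝ) else 0))
          = ε * ε := by
        rw [Ex_cells (1 - ε) x {0, q} (by intro j hj; simp at hj; omega) (fun _ => false),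
          Finset.prod_pair (by omega)]
        simp
      have hF : ∀ i ∈ Finset.range K, Ex (1 - ε) (fun D : Cfg n => b ^ i *
              ∏ j ∈ insert 0 (fireSet (i + 1)), (if D (x + (j : ZMod n)) = (fun j => decide (j ≠ 0)) j then (1 : ℝ) else 0))
          = b ^ i * (ε * (1 - ε) ^ ((i + 1) - (i + 1) / 3)) := by
        intro i hi
        rw [Finset.mem_range] at hi
        rw [Ex_mul_left, Ex_cells (1 - ε) x (insert 0 (fireSet (i + 1))) _ (fun j => decide (j ≠ 0)),
          Finset.prod_insert]
        · congr 1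
          have hc : ∏ j ∈ fireSet (i + 1), (if (decide (j ≠ 0)) = true then (1 - ε) else 1 - (1 - ε))
              = (1 - ε) ^ ((i + 1) - (i + 1) / 3) := by
            rw [← card_fireSet, Finset.prod_congr rfl (g := fun _ => (1 - ε)), Finset.prod_const]
            intro j hj
            simp only [fireSet, Finset.mem_filter, Finset.mem_Icc] at hj
            have : j ≠ 0 := by omega
            simp [this]
          rw [hc]
          simp
        · simp [fireSet]
        · intro j hj
          rw [Finset.mem_insert] at hj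
          rcases hj with hj | hj
          · omega
          · simp only [fireSet, Finset.mem_filter, Finset.mem_Icc] at hj
            omega
      rw [hA, hB, hCc, hE, Finset.sum_congr rfl hF]
    rw [hcalc] at hExp
    have hser := series_bound h0 h1 K
    have hs2 : (b - 1) * ∑ i ∈ Finset.range K, b ^ i * (ε * (1 - ε) ^ ((i + 1) - (i + 1) / 3))
        = ε * ((b - 1) * ∑ i ∈ Finset.range K, b ^ i * (1 - ε) ^ ((i + 1) - (i + 1) / 3)) := by
      rw [Finset.mul_sum, Finset.mul_sum, Finset.mul_sum]
      apply Finset.sum_congr rfl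
      intro i _
      ring
    rw [hs2] at hExp
    have hs3 : ε * ((b - 1) * ∑ i ∈ Finset.range K, b ^ i * (1 - ε) ^ ((i + 1) - (i + 1) / 3))
        ≤ ε * (11 / 100) := mul_le_mul_of_nonneg_left hser h0.le
    have hnum := num_bad h0 h1
    rw [hchi]
    have hgoal : R0 * (b⁻¹ * ((1 - ε) * (1 - ε)) + b⁻¹ * (1 + β) * ((1 - ε) * ε)
        + (1 + β) * (ε * (1 + 11 / 100))) ≤ R0 * (κ * (1 + β)) := mul_le_mul_of_nonneg_left hnum hR0'
    have h5 : R0 * (1 + β) * (ε * ((b - 1) * ∑ i ∈ Finset.range K, b ^ i * (1 - ε) ^ ((i + 1) - (i + 1) / 3)))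
        ≤ R0 * (1 + β) * (ε * (11 / 100)) := mul_le_mul_of_nonneg_left hs3 (by positivity)
    calc _ ≤ _ := hExp
      _ ≤ R0 * (b⁻¹ * ((1 - ε) * (1 - ε)) + b⁻¹ * (1 + β) * ((1 - ε) * ε)
        + (1 + β) * (ε * (1 + 11 / 100))) + ε * ε := by linarith
      _ ≤ R0 * (κ * (1 + β)) + ε * ε := by linarith
      _ = _ := by rw [hR0]; ring
  · -- good state
    have hy1' : y (x + 1) = false := by simpa using hy1
    have hchi : chi β c M y = 1 := by
      unfold chi
      rw [if_neg]
      exact hy1
    have hpt : ∀ D : Cfg n, min 1 (C * b ^ (fst c M (stepY n D y)) * chi β c M (stepY n D y))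
        ≤ R0 * b⁻¹ * (1 + β) * ∏ j ∈ ({0} : Finset ℕ), (if D (x + (j : ZMod n)) = (fun _ => true) j then (1 : ℝ) else 0)
          + R0 * (1 + β) * ∏ j ∈ ({0} : Finset ℕ), (if D (x + (j : ZMod n)) = (fun _ => false) j then (1 : ℝ) else 0) := by
      intro D
      have hbinv : 0 < b⁻¹ := by positivity
      cases hD : D x with
      | true =>
        have h1 : (∏ j ∈ ({0} : Finset ℕ), (if D (x + (j : ZMod n)) = (fun _ => true) j then (1 : ℝ) else 0)) = 1 := by
          simp [hD]
        have h2 : (∏ j ∈ ({0} : Finset ℕ), (if D (x + (j : ZMod n)) = (fun _ => false) j then (1 : ℝ) else 0)) = 0 := by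
          simp [hD]
        rw [h1, h2]
        calc _ ≤ C * b ^ (fst c M (stepY n D y)) * chi β c M (stepY n D y) := min_le_right _ _
          _ ≤ R0 * b⁻¹ * (1 + β) := htrue D hD
          _ = _ := by ring
      | false =>
        have h1 : (∏ j ∈ ({0} : Finset ℕ), (if D (x + (j : ZMod n)) = (fun _ => true) j then (1 : ℝ) else 0)) = 0 := by
          simp [hD]
        have h2 : (∏ j ∈ ({0} : Finset ℕ), (if D (x + (j : ZMod n)) = (fun _ => false) j then (1 : ℝ) else 0)) = 1 := by
          simp [hD]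
        rw [h1, h2]
        have h3 := case_false_good (D := D) (by omega) hXM hy1'
        have h4 : b ^ (fst c M (stepY n D y)) ≤ b ^ X := pow_le_pow_right₀ hb1 h3
        have h5 := chi_le hβ0 c M (stepY n D y)
        have h6 := one_le_chi hβ0 c M (stepY n D y)
        calc _ ≤ C * b ^ (fst c M (stepY n D y)) * chi β c M (stepY n D y) := min_le_right _ _
          _ ≤ C * b ^ X * (1 + β) := by
              apply mul_le_mul _ h5 (by linarith) (by positivity)
              exact mul_le_mul_of_nonneg_left h4 hC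
          _ = _ := by rw [hR0]; ring
    have hExp := Ex_mono ha0 ha1 hpt
    have hcalc : Ex (1 - ε) (fun D : Cfg n => R0 * b⁻¹ * (1 + β) * ∏ j ∈ ({0} : Finset ℕ), (if D (x + (j : ZMod n)) = (fun _ => true) j then (1 : ℝ) else 0)
          + R0 * (1 + β) * ∏ j ∈ ({0} : Finset ℕ), (if D (x + (j : ZMod n)) = (fun _ => false) j then (1 : ℝ) else 0))
        = R0 * b⁻¹ * (1 + β) * (1 - ε) + R0 * (1 + β) * ε := by
      rw [Ex_add, Ex_mul_left, Ex_mul_left,
        Ex_cells (1 - ε) x {0} (by intro j hj; simp at hj; omega) (fun _ => true),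
        Ex_cells (1 - ε) x {0} (by intro j hj; simp at hj; omega) (fun _ => false)]
      simp
    rw [hcalc] at hExp
    have hnum := num_good h0 h1
    rw [hchi]
    have hgoal : R0 * ((1 + β) * ((1 - ε) * b⁻¹ + ε)) ≤ R0 * κ := mul_le_mul_of_nonneg_left hnum hR0'
    calc _ ≤ _ := hExp
      _ = R0 * ((1 + β) * ((1 - ε) * b⁻¹ + ε)) := by ring
      _ ≤ R0 * κ := hgoal
      _ = C * κ * b ^ X * 1 := by rw [hR0]; ring
      _ ≤ _ := by nlinarith [sq_nonneg ε]

end

end R150
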