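import Pool.Agent.Lib.MP_28292c_pr.N43.Base

/-! basic facts on `Ex`, `fst`, `stepY` (helper43) -/

open scoped BigOperators

set_option linter.unusedSectionVars false

namespace R150

section
variable {n : ℕ} [NeZero n]

lemma wt_nonneg {a : ℝ} (h0 : 0 ≤ a) (h1 : a ≤ 1) (D : Cfg n) : 0 ≤ wt a D := by
  unfold wt
  apply Finset.prod_nonneg
  intro i _
  split_ifs <;> linarith

lemma Ex_prod (a : ℝ) (S : Finset (ZMod n)) (φ : ZMod n → Bool → ℝ) :
    Ex a (fun D => ∏ i ∈ S, φ i (D i)) = ∏ i ∈ S, (a * φ i true + (1 - a) * φ i false) := by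
  classical
  unfold Ex wt
  have h1 : ∀ D : Cfg n, (∏ i, if D i then a else 1 - a) * ∏ i ∈ S, φ i (D i)
      = ∏ i, ((if D i then a else 1 - a) * (if i ∈ S then φ i (D i) else 1)) := by
    intro D
    rw [Finset.prod_mul_distrib]
    congr 1
    rw [Finset.prod_ite_mem, Finset.univ_inter]
  simp_rw [h1]
  have h2 := Finset.prod_univ_sum (fun _ : ZMod n => (Finset.univ : Finset Bool))
    (fun i b => (if b then a else 1 - a) * (if i ∈ S then φ i b else 1))
  rw [Fintype.piFinset_univ] at h2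
  rw [← h2]
  have h3 : ∀ i : ZMod n, (∑ b : Bool, (if b then a else 1 - a) * (if i ∈ S then φ i b else 1))
      = if i ∈ S then (a * φ i true + (1 - a) * φ i false) else 1 := by
    intro i
    by_cases hi : i ∈ S <;> simp [hi]
  simp_rw [h3]
  rw [Finset.prod_ite_mem, Finset.univ_inter]

lemma Ex_const (a c : ℝ) : Ex a (fun _ : Cfg n => c) = c := by
  have h := Ex_prod (n := n) a ∅ (fun _ _ => 0)
  simp only [Finset.prod_empty] at h
  unfold Ex at h ⊢
  rw [← Finset.sum_mul]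
  simp only [mul_one] at h
  rw [h, one_mul]

lemma Ex_add (a : ℝ) (F G : Cfg n → ℝ) : Ex a (fun D => F D + G D) = Ex a F + Ex a G := by
  unfold Ex
  rw [← Finset.sum_add_distrib]
  exact Finset.sum_congr rfl fun D _ => by ring

lemma Ex_mul_left (a c : ℝ) (F : Cfg n → ℝ) : Ex a (fun D => c * F D) = c * Ex a F := by
  unfold Ex
  rw [Finset.mul_sum]
  exact Finset.sum_congr rfl fun D _ => by ring

lemma Ex_sum {ι : Type*} (a : ℝ) (s : Finset ι) (F : ι → Cfg n → ℝ) :
    Ex a (fun D => ∑ i ∈ s, F i D) = ∑ i ∈ s, Ex a (F i) := by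
  unfold Ex
  rw [Finset.sum_comm]
  exact Finset.sum_congr rfl fun D _ => by rw [Finset.mul_sum]

lemma Ex_mono {a : ℝ} (h0 : 0 ≤ a) (h1 : a ≤ 1) {F G : Cfg n → ℝ} (h : ∀ D, F D ≤ G D) :
    Ex a F ≤ Ex a G := by
  unfold Ex
  exact Finset.sum_le_sum fun D _ => mul_le_mul_of_nonneg_left (h D) (wt_nonneg h0 h1 D)

lemma Ex_nonneg {a : ℝ} (h0 : 0 ≤ a) (h1 : a ≤ 1) {F : Cfg n → ℝ} (h : ∀ D, 0 ≤ F D) :
    0 ≤ Ex a F := by
  have := Ex_mono h0 h1 h
  rwa [Ex_const] at this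

/-- probability of prescribed values on a finite set of cells -/
lemma Ex_ind (a : ℝ) (S : Finset (ZMod n)) (v : ZMod n → Bool) :
    Ex a (fun D => ∏ i ∈ S, (if D i = v i then (1 : ℝ) else 0))
      = ∏ i ∈ S, (if v i then a else 1 - a) := by
  rw [Ex_prod a S (fun i b => if b = v i then (1 : ℝ) else 0)]
  apply Finset.prod_congr rfl
  intro i _
  cases v i <;> simp

/-! ### `fst` -/

lemma fst_le_succ (c : ZMod n) (M : ℕ) (y : Cfg n) : fst c M y ≤ M + 1 := by
  classical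
  unfold fst
  split_ifs with h
  · have := (Nat.find_spec h).1
    omega
  · exact le_rfl

lemma fst_spec {c : ZMod n} {M : ℕ} {y : Cfg n} (h : fst c M y ≤ M) :
    y (c + (fst c M y : ZMod n)) = true := by
  classical
  unfold fst at h ⊢
  split_ifs with h'
  · exact (Nat.find_spec h').2
  · rw [dif_neg h'] at h
    omega

lemma fst_le {c : ZMod n} {M : ℕ} {y : Cfg n} {k : ℕ} (hk : k ≤ M) (hy : y (c + (k : ZMod n)) = true) :
    fst c M y ≤ k := by
  classical
  have h' : ∃ k : ℕ, k ≤ M ∧ y (c + (k : ZMod n)) = true := ⟨k, hk, hy⟩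
  unfold fst
  rw [dif_pos h']
  exact Nat.find_min' h' ⟨hk, hy⟩

lemma of_lt_fst {c : ZMod n} {M : ℕ} {y : Cfg n} {k : ℕ} (hk : k < fst c M y) :
    y (c + (k : ZMod n)) = false := by
  by_contra h
  have h1 : y (c + (k : ZMod n)) = true := by simpa using h
  have h2 := fst_le_succ c M y
  have h3 := fst_le (M := M) (by omega) h1
  omega

lemma one_le_chi {β : ℝ} (hβ : 0 ≤ β) (c : ZMod n) (M : ℕ) (y : Cfg n) : 1 ≤ chi β c M y := by
  unfold chi
  split_ifs <;> linarith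

lemma chi_le {β : ℝ} (hβ : 0 ≤ β) (c : ZMod n) (M : ℕ) (y : Cfg n) : chi β c M y ≤ 1 + β := by
  unfold chi
  split_ifs <;> linarith

/-- distinctness of nearby cells -/
lemma cast_ne {i j : ℕ} (hi : i < n) (hj : j < n) (h : i ≠ j) (x : ZMod n) :
    x + (i : ZMod n) ≠ x + (j : ZMod n) := by
  intro h'
  have h2 : (i : ZMod n) = (j : ZMod n) := add_left_cancel h'
  rw [ZMod.natCast_eq_natCast_iff] at h2
  exact h (Nat.ModEq.eq_of_lt_of_lt h2 hi hj)

end

end R150
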