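import Pool.Agent.Lib.MP_28292c_pr.N43.ExLib

/-!
Module FACT: locality and factorization over far windows.
-/

set_option autoImplicit false

open scoped BigOperators

namespace R150.FactH52

variable {n : ℕ} [NeZero n]

/-- exchange of the coordinates outside `S` -/
def mix (S : Finset (ZMod n)) (D D' : Cfg n) : Cfg n := fun i => if i ∈ S then D i else D' i

theorem mix_mix (S : Finset (ZMod n)) (D D' : Cfg n) :
    mix S (mix S D D') (mix S D' D) = D := by
  funext i
  by_cases hi : i ∈ S <;> simp [mix, hi]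

theorem wt_mix (a : ℝ) (S : Finset (ZMod n)) (D D' : Cfg n) :
    wt a (mix S D D') * wt a (mix S D' D) = wt a D * wt a D' := by
  unfold wt
  rw [← Finset.prod_mul_distrib, ← Finset.prod_mul_distrib]
  refine Finset.prod_congr rfl fun i _ => ?_
  by_cases hi : i ∈ S
  · simp [mix, hi]
  · simp only [mix, hi, if_false]
    ring

/-- the exchange of pairs -/
def mixE (S : Finset (ZMod n)) : (Cfg n × Cfg n) ≃ (Cfg n × Cfg n) where
  toFun p := (mix S p.1 p.2, mix S p.2 p.1)
  invFun p := (mix S p.1 p.2, mix S p.2 p.1)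
  left_inv p := by
    simp only [mix_mix]
  right_inv p := by
    simp only [mix_mix]

theorem Ex_mul_Ex (a : ℝ) (F G : Cfg n → ℝ) :
    Ex a F * Ex a G = ∑ p : Cfg n × Cfg n, (wt a p.1 * wt a p.2) * (F p.1 * G p.2) := by
  unfold Ex
  rw [Finset.sum_mul_sum, Fintype.sum_prod_type]
  refine Finset.sum_congr rfl fun D _ => Finset.sum_congr rfl fun D' _ => ?_
  ring

theorem Ex_indep (a : ℝ) (S : Finset (ZMod n)) (F G : Cfg n → ℝ)
    (hF : ∀ D D' : Cfg n, (∀ i ∈ S, D i = D' i) → F D = F D')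
    (hG : ∀ D D' : Cfg n, (∀ i, i ∉ S → D i = D' i) → G D = G D') :
    Ex a (fun D => F D * G D) = Ex a F * Ex a G := by
  have h1 : Ex a (fun D => F D * G D) = Ex a (fun D => F D * G D) * Ex a (fun _ : Cfg n => 1) := by
    rw [Ex_const, mul_one]
  rw [h1, Ex_mul_Ex, Ex_mul_Ex]
  refine Fintype.sum_equiv (mixE S) _ _ fun p => ?_
  obtain ⟨D, D'⟩ := p
  change wt a D * wt a D' * (F D * G D * 1) =
    wt a (mix S D D') * wt a (mix S D' D) * (F (mix S D D') * G (mix S D' D))
  rw [wt_mix]
  have e1 : F (mix S D D') = F D := hF _ _ fun i hi => by simp [mix, hi]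
  have e2 : G (mix S D' D) = G D := hG _ _ fun i hi => by simp [mix, hi]
  rw [e1, e2]
  ring

/-- `f` depends only on the window of radius `r` around `c` -/
def Dep (c : ZMod n) (r : ℕ) (f : Cfg n → ℝ) : Prop :=
  ∀ z z' : Cfg n, (∀ k : ℤ, |k| ≤ (r : ℤ) → z (c + (k : ZMod n)) = z' (c + (k : ZMod n))) →
    f z = f z'

theorem dep_stepY {c : ZMod n} {r : ℕ} {f : Cfg n → ℝ} (hf : Dep c r f) (y : Cfg n) :
    Dep c (r + 1) (fun D => f (stepY n D y)) := by
  intro D D' h
  apply hf
  intro k hk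
  have h1 := h (k - 1) (by rw [abs_le] at hk ⊢; push_cast; constructor <;> linarith [hk.1, hk.2])
  have h2 := h (k + 1) (by rw [abs_le] at hk ⊢; push_cast; constructor <;> linarith [hk.1, hk.2])
  push_cast at h1 h2
  rw [show c + ((k : ZMod n) - 1) = c + k - 1 by ring] at h1
  rw [show c + ((k : ZMod n) + 1) = c + k + 1 by ring] at h2
  simp only [stepY, h1, h2]

theorem dep_PY {c : ZMod n} {r : ℕ} {f : Cfg n → ℝ} (a : ℝ) (hf : Dep c r f) :
    Dep c (r + 1) (PY a f) := by
  intro y y' h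
  unfold PY Ex
  refine Finset.sum_congr rfl fun D _ => ?_
  congr 1
  apply hf
  intro k hk
  have h0 := h k (by rw [abs_le] at hk ⊢; push_cast; constructor <;> linarith [hk.1, hk.2])
  have h1 := h (k - 1) (by rw [abs_le] at hk ⊢; push_cast; constructor <;> linarith [hk.1, hk.2])
  have h2 := h (k + 1) (by rw [abs_le] at hk ⊢; push_cast; constructor <;> linarith [hk.1, hk.2])
  push_cast at h1 h2
  rw [show c + ((k : ZMod n) - 1) = c + k - 1 by ring] at h1
  rw [show c + ((k : ZMod n) + 1) = c + k + 1 by ring] at h2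
  simp only [stepY, h0, h1, h2]

/-- windows of radius `r` around the points of `A` are pairwise disjoint -/
def Far (A : Finset (ZMod n)) (r : ℕ) : Prop :=
  ∀ c ∈ A, ∀ c' ∈ A, c ≠ c' → ∀ k k' : ℤ, |k| ≤ (r : ℤ) → |k'| ≤ (r : ℤ) →
      c + (k : ZMod n) ≠ c' + (k' : ZMod n)

theorem Ex_prod_far (a : ℝ) (r : ℕ) (F : ZMod n → Cfg n → ℝ) (A : Finset (ZMod n)) :
    (∀ c ∈ A, Dep c r (F c)) → Far A r →
    Ex a (fun D => ∏ c ∈ A, F c D) = ∏ c ∈ A, Ex a (F c) := by
  classical
  induction A using Finset.induction_on with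
  | empty =>
    intro _ _
    simp only [Finset.prod_empty]
    exact Ex_const a 1
  | insert c A hc ih =>
    intro hF hfar
    simp_rw [Finset.prod_insert hc]
    let S : Finset (ZMod n) :=
      Finset.univ.filter (fun i => ∃ k : ℤ, |k| ≤ (r : ℤ) ∧ c + (k : ZMod n) = i)
    rw [Ex_indep a S (F c) (fun D => ∏ c ∈ A, F c D)]
    · rw [ih (fun c' hc' => hF c' (Finset.mem_insert_of_mem hc'))
        (fun c1 h1 c2 h2 => hfar c1 (Finset.mem_insert_of_mem h1) c2 (Finset.mem_insert_of_mem h2))]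
    · intro D D' h
      apply hF c (Finset.mem_insert_self _ _)
      intro k hk
      apply h
      simp only [S, Finset.mem_filter, Finset.mem_univ, true_and]
      exact ⟨k, hk, rfl⟩
    · intro D D' h
      refine Finset.prod_congr rfl fun c' hc' => ?_
      apply hF c' (Finset.mem_insert_of_mem hc')
      intro k hk
      apply h
      simp only [S, Finset.mem_filter, Finset.mem_univ, true_and, not_exists, not_and]
      intro k' hk'
      exact hfar c (Finset.mem_insert_self _ _) c' (Finset.mem_insert_of_mem hc')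
        (fun e => hc (e ▸ hc')) k' k hk' hk

theorem PY_prod_far (a : ℝ) (r : ℕ) (F : ZMod n → Cfg n → ℝ) (A : Finset (ZMod n))
    (hF : ∀ c ∈ A, Dep c r (F c)) (hfar : Far A (r + 1)) :
    PY a (fun z => ∏ c ∈ A, F c z) = fun z => ∏ c ∈ A, PY a (F c) z := by
  funext y
  exact Ex_prod_far a (r + 1) (fun c D => F c (stepY n D y)) A
    (fun c hc => dep_stepY (hF c hc) y) hfar

theorem iter_prod_far (a : ℝ) (h : ℕ) : ∀ (r : ℕ) (F : ZMod n → Cfg n → ℝ) (A : Finset (ZMod n)),
    (∀ c ∈ A, Dep c r (F c)) → Far A (r + h) → ∀ y : Cfg n,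
    ((PY a)^[h] (fun z => ∏ c ∈ A, F c z)) y = ∏ c ∈ A, ((PY a)^[h] (F c)) y := by
  induction h with
  | zero =>
    intro r F A _ _ y
    simp
  | succ h ih =>
    intro r F A hF hfar y
    simp only [Function.iterate_succ_apply]
    rw [PY_prod_far a r F A hF (fun c hc c' hc' hcc k k' hk hk' =>
      hfar c hc c' hc' hcc k k' (by push_cast at hk ⊢; linarith) (by push_cast at hk' ⊢; linarith))]
    exact ih (r + 1) (fun c => PY a (F c)) A (fun c hc => dep_PY a (hF c hc))
      (by rw [show r + 1 + h = r + (h + 1) by ring]; exact hfar) y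

theorem dep_voidInd (c : ZMod n) (u : ℕ) : Dep c u (voidInd c u) := by
  classical
  intro z z' h
  unfold voidInd
  have : (∀ k : ℤ, |k| ≤ (u : ℤ) → z (c + (k : ZMod n)) = false) ↔
      (∀ k : ℤ, |k| ≤ (u : ℤ) → z' (c + (k : ZMod n)) = false) := by
    constructor
    · intro h1 k hk
      rw [← h k hk]
      exact h1 k hk
    · intro h1 k hk
      rw [h k hk]
      exact h1 k hk
  by_cases h1 : ∀ k : ℤ, |k| ≤ (u : ℤ) → z (c + (k : ZMod n)) = false
  · rw [if_pos h1, if_pos (this.1 h1)]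
  · rw [if_neg h1, if_neg (fun h2 => h1 (this.2 h2))]

/-- Module FACT. -/
theorem fact : FactStatement := by
  intro a _ _ n _ h u A hA y
  refine iter_prod_far a h u (fun c => voidInd c u) A (fun c _ => dep_voidInd c u) ?_ y
  intro c hc c' hc' hcc k k' hk hk'
  push_cast at hk hk'
  exact hA c hc c' hc' hcc k k' hk hk'

end R150.FactH52
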