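import Pool.Agent.Lib.MP_28292c_pr.N43.ExLib

/-!
Module MAIN: blocks, comparison with the eroded process, conclusion.
-/

set_option autoImplicit false

open scoped BigOperators ENNReal NNReal
open MeasureTheory

namespace R150.MainH52

/-! ### Separated subsets -/

/-- greedy choice of a separated subset -/
theorem exists_sep {m : ℕ} [NeZero m] (q : ℕ) (A : Finset (ZMod m)) :
    ∃ B ⊆ A, (∀ a ∈ B, ∀ b ∈ B, a ≠ b → ∀ k : ℤ, |k| ≤ (q : ℤ) → b ≠ a + (k : ZMod m)) ∧
      A.card ≤ (2 * q + 1) * B.card := by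
  classical
  induction A using Finset.strongInduction with
  | H A ih =>
    rcases A.eq_empty_or_nonempty with rfl | ⟨a, ha⟩
    · exact ⟨∅, Finset.Subset.refl _, by simp, by simp⟩
    · let Cl : Finset (ZMod m) := (Finset.Icc (-(q : ℤ)) q).image (fun k : ℤ => a + (k : ZMod m))
      have hCl : Cl.card ≤ 2 * q + 1 := by
        refine Finset.card_image_le.trans ?_
        rw [Int.card_Icc]
        omega
      have haCl : a ∈ Cl := by
        refine Finset.mem_image.2 ⟨0, ?_, by simp⟩
        rw [Finset.mem_Icc]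
        constructor <;> omega
      have hss : A \ Cl ⊂ A := by
        refine ⟨Finset.sdiff_subset, fun h => ?_⟩
        exact (Finset.mem_sdiff.1 (h ha)).2 haCl
      obtain ⟨B, hBA, hB, hc⟩ := ih (A \ Cl) hss
      have haB : a ∉ B := fun h => (Finset.mem_sdiff.1 (hBA h)).2 haCl
      refine ⟨insert a B, ?_, ?_, ?_⟩
      · intro b hb
        rcases Finset.mem_insert.1 hb with rfl | hb
        · exact ha
        · exact (Finset.mem_sdiff.1 (hBA hb)).1
      · intro x hx y hy hxy k hk hyk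
        rcases Finset.mem_insert.1 hx with hxa | hx
        · rcases Finset.mem_insert.1 hy with hya | hy
          · exact hxy (hxa.trans hya.symm)
          · apply (Finset.mem_sdiff.1 (hBA hy)).2
            refine Finset.mem_image.2 ⟨k, ?_, ?_⟩
            · rw [Finset.mem_Icc]
              exact abs_le.1 hk
            · rw [hyk, hxa]
        · rcases Finset.mem_insert.1 hy with hya | hy
          · apply (Finset.mem_sdiff.1 (hBA hx)).2
            refine Finset.mem_image.2 ⟨-k, ?_, ?_⟩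
            · rw [Finset.mem_Icc]
              have := abs_le.1 hk
              constructor <;> omega
            · push_cast
              rw [← hya, hyk]
              ring
          · exact hB x hx y hy hxy k hk hyk
      · have h1 : A.card ≤ (A \ Cl).card + Cl.card := by
          have := Finset.card_le_card (show A ⊆ (A \ Cl) ∪ Cl by
            intro x hx
            by_cases h : x ∈ Cl
            · exact Finset.mem_union_right _ h
            · exact Finset.mem_union_left _ (Finset.mem_sdiff.2 ⟨hx, h⟩))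
          exact this.trans (Finset.card_union_le _ _)
        rw [Finset.card_insert_of_notMem haB]
        calc A.card ≤ (A \ Cl).card + Cl.card := h1
          _ ≤ (2 * q + 1) * B.card + (2 * q + 1) := by omega
          _ = (2 * q + 1) * (B.card + 1) := by ring

/-! ### The iterated operator as a kernel -/

section kernel
variable {n : ℕ} [NeZero n]

theorem PY_sum (a : ℝ) {ι : Type} (s : Finset ι) (c : ι → ℝ) (f : ι → Cfg n → ℝ) :
    PY a (fun z => ∑ i ∈ s, c i * f i z) = fun z => ∑ i ∈ s, c i * PY a (f i) z := by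
  funext y
  unfold PY
  rw [Ex_sum]
  refine Finset.sum_congr rfl fun i _ => ?_
  rw [Ex_mul_left]

theorem iter_sum (a : ℝ) {ι : Type} (s : Finset ι) (c : ι → ℝ) (h : ℕ) :
    ∀ (f : ι → Cfg n → ℝ), (PY a)^[h] (fun z => ∑ i ∈ s, c i * f i z) =
      fun z => ∑ i ∈ s, c i * ((PY a)^[h] (f i)) z := by
  induction h with
  | zero => intro f; rfl
  | succ h ih =>
    intro f
    rw [Function.iterate_succ_apply, PY_sum, ih]
    rfl

theorem iter_nonneg {a : ℝ} (h0 : 0 ≤ a) (h1 : a ≤ 1) (h : ℕ) :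
    ∀ (f : Cfg n → ℝ), (∀ z, 0 ≤ f z) → ∀ z, 0 ≤ ((PY a)^[h] f) z := by
  induction h with
  | zero => intro f hf; exact hf
  | succ h ih =>
    intro f hf
    rw [Function.iterate_succ_apply]
    exact ih _ fun z => Ex_nonneg h0 h1 fun D => hf _

theorem iter_one (a : ℝ) (h : ℕ) : (PY a)^[h] (fun _ : Cfg n => (1 : ℝ)) = fun _ => 1 := by
  induction h with
  | zero => rfl
  | succ h ih =>
    rw [Function.iterate_succ_apply]
    have : PY a (fun _ : Cfg n => (1 : ℝ)) = fun _ => 1 := by
      funext y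
      exact Ex_const a 1
    rw [this, ih]

/-- the transition kernel of `h` steps -/
noncomputable def Ker (a : ℝ) (h : ℕ) (s s' : Cfg n) : ℝ := by
  classical
  exact ((PY a)^[h] (fun z => if z = s' then 1 else 0)) s

theorem iter_eq_Ker (a : ℝ) (h : ℕ) (f : Cfg n → ℝ) (s : Cfg n) :
    ((PY a)^[h] f) s = ∑ s', Ker a h s s' * f s' := by
  classical
  have hf : f = fun z => ∑ s' : Cfg n, f s' * (if z = s' then (1 : ℝ) else 0) := by
    funext z
    simp
  conv_lhs => rw [hf]
  rw [iter_sum]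
  refine Finset.sum_congr rfl fun s' _ => ?_
  unfold Ker
  ring

end kernel

/-! ### Blocks -/

section blocks

variable {n m : ℕ} [NeZero n] [NeZero m]

/-- centre of block `j` -/
def cen (n : ℕ) {m : ℕ} (u : ℕ) (j : ZMod m) : ZMod n := ((j.val * (2 * u + 1) + u : ℕ) : ZMod n)

/-- dry blocks -/
noncomputable def dry (m : ℕ) [NeZero m] (u : ℕ) (y : Cfg n) : Finset (ZMod m) := by
  classical
  exact Finset.univ.filter (fun j => ∀ k : ℤ, |k| ≤ (u : ℤ) → y (cen n u j + (k : ZMod n)) = false)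

theorem mem_dry {u : ℕ} {y : Cfg n} {j : ZMod m} :
    j ∈ dry m u y ↔ ∀ k : ℤ, |k| ≤ (u : ℤ) → y (cen n u j + (k : ZMod n)) = false := by
  classical
  unfold dry
  simp

/-- newly dry blocks -/
noncomputable def Fset (m : ℕ) [NeZero m] (u : ℕ) (s s' : Cfg n) : Finset (ZMod m) := by
  classical
  exact (dry m u s').filter (fun j => ¬ (j - 1 ∈ dry m u s ∧ j ∈ dry m u s ∧ j + 1 ∈ dry m u s))

theorem comparison (a : ℝ) (h0 : 0 ≤ a) (h1 : a ≤ 1) (h u k : ℕ) :
    ∀ (s : Cfg n) (D : Finset (ZMod m)), dry m u s ⊆ D →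
    (((PY a)^[h])^[k] (fun y => if y = fun _ => false then 1 else 0)) s ≤
      ((opP (Ker a h) (Fset m u))^[k] (fun _ D => if D = Finset.univ then (1 : ℝ) else 0)) s D := by
  classical
  induction k with
  | zero =>
    intro s D hD
    simp only [Function.iterate_zero, id_eq]
    by_cases hs : s = fun _ => false
    · have hdry : dry m u s = Finset.univ := by
        ext j
        simp only [Finset.mem_univ, iff_true]
        rw [mem_dry]
        intro k _
        rw [hs]
      have : D = Finset.univ := by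
        rw [hdry] at hD
        exact Finset.univ_subset_iff.1 hD
      rw [if_pos hs, if_pos this]
    · rw [if_neg hs]
      split_ifs <;> norm_num
  | succ k ih =>
    intro s D hD
    rw [Function.iterate_succ_apply', Function.iterate_succ_apply', iter_eq_Ker]
    change _ ≤ ∑ s', _
    refine Finset.sum_le_sum fun s' _ => ?_
    refine mul_le_mul_of_nonneg_left ?_ (iter_nonneg h0 h1 h _ (fun z => by split_ifs <;> norm_num) s)
    apply ih
    intro j hj
    by_cases hN : j - 1 ∈ dry m u s ∧ j ∈ dry m u s ∧ j + 1 ∈ dry m u s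
    · apply Finset.mem_union_left
      unfold erode
      simp only [Finset.mem_filter, Finset.mem_univ, true_and]
      exact ⟨hD hN.1, hD hN.2.1, hD hN.2.2⟩
    · apply Finset.mem_union_right
      unfold Fset
      exact Finset.mem_filter.2 ⟨hj, hN⟩

/-- difference of values of two neighbours -/
theorem val_shift (j j' : ZMod m) (d : ℤ) (hd : |d| ≤ 1) (h : j' = j + (d : ZMod m)) :
    ∃ z : ℤ, |z| ≤ 1 ∧ (j'.val : ℤ) = j.val + d + z * m := by
  have hm : 0 < m := Nat.pos_of_ne_zero (NeZero.ne m)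
  have h1 : ((((j'.val : ℤ) - (j.val + d) : ℤ)) : ZMod m) = 0 := by
    push_cast
    rw [ZMod.natCast_zmod_val, ZMod.natCast_zmod_val, h]
    ring
  obtain ⟨z, hz⟩ := (ZMod.intCast_zmod_eq_zero_iff_dvd _ _).1 h1
  have a1 : (j'.val : ℤ) < m := by exact_mod_cast ZMod.val_lt j'
  have a2 : (j.val : ℤ) < m := by exact_mod_cast ZMod.val_lt j
  have a3 : (0 : ℤ) ≤ j'.val := by positivity
  have a4 : (0 : ℤ) ≤ j.val := by positivity
  have a5 := abs_le.1 hd
  refine ⟨z, ?_, by linarith⟩
  have hmz : (1 : ℤ) ≤ m := by exact_mod_cast hm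
  have b1 : (m : ℤ) * z ≤ m := by linarith [a5.1]
  have b2 : -(m : ℤ) ≤ m * z := by linarith [a5.2]
  rw [abs_le]
  constructor
  · by_contra hc
    have hc' : z ≤ -2 := by omega
    nlinarith
  · by_contra hc
    have hc' : 2 ≤ z := by omega
    nlinarith

theorem cen_shift {u r : ℕ} (hn : n = m * (2 * u + 1) + r) (j j' : ZMod m) (d z : ℤ)
    (h : (j'.val : ℤ) = j.val + d + z * m) :
    cen n u j' = cen n u j + ((d * (2 * u + 1) - z * r : ℤ) : ZMod n) := by
  unfold cen
  have h1 : ((n : ℤ) : ZMod n) = 0 := by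
    push_cast
    exact ZMod.natCast_self n
  have h2 : ((j'.val * (2 * u + 1) + u : ℕ) : ZMod n) =
      ((((j'.val : ℤ) * (2 * u + 1) + u : ℤ)) : ZMod n) := by push_cast; ring
  have h3 : ((j.val * (2 * u + 1) + u : ℕ) : ZMod n) =
      ((((j.val : ℤ) * (2 * u + 1) + u : ℤ)) : ZMod n) := by push_cast; ring
  rw [h2, h3, ← Int.cast_add]
  have h4 : ((j'.val : ℤ) * (2 * u + 1) + u : ℤ) =
      ((j.val : ℤ) * (2 * u + 1) + u + (d * (2 * u + 1) - z * r)) + z * n := by
    rw [h, hn]
    push_cast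
    ring
  rw [h4, Int.cast_add, Int.cast_mul, h1, mul_zero, add_zero]

/-- an active cell near a block with a wet neighbour -/
theorem near {u r : ℕ} (hu : 1 ≤ u) (hr : r < 2 * u + 1) (hn : n = m * (2 * u + 1) + r)
    (s : Cfg n) (j : ZMod m)
    (h : ¬ (j - 1 ∈ dry m u s ∧ j ∈ dry m u s ∧ j + 1 ∈ dry m u s)) :
    ∃ p : ℤ, |p| ≤ 6 * (u : ℤ) ∧ s (cen n u j + (p : ZMod n)) = true := by
  have key : ∀ (j' : ZMod m) (d : ℤ), |d| ≤ 1 → j' = j + (d : ZMod m) → j' ∉ dry m u s →
      ∃ p : ℤ, |p| ≤ 6 * (u : ℤ) ∧ s (cen n u j + (p : ZMod n)) = true := by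
    intro j' d hd hj' hdry
    rw [mem_dry] at hdry
    push Not at hdry
    obtain ⟨k, hk, hs⟩ := hdry
    obtain ⟨z, hz, hval⟩ := val_shift j j' d hd hj'
    rw [cen_shift hn j j' d z hval, add_assoc, ← Int.cast_add] at hs
    refine ⟨d * (2 * u + 1) - z * r + k, ?_, by simpa using hs⟩
    have hr' : (r : ℤ) ≤ 2 * u := by exact_mod_cast Nat.lt_succ_iff.1 hr
    have hr0 : (0 : ℤ) ≤ r := by positivity
    have hu' : (1 : ℤ) ≤ u := by exact_mod_cast hu
    have hd' := abs_le.1 hd
    have hz' := abs_le.1 hz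
    have hk' := abs_le.1 hk
    obtain ⟨hd1, hd2⟩ := hd'
    obtain ⟨hz1, hz2⟩ := hz'
    rw [abs_le]
    constructor
    · have e1 : -(2 * (u : ℤ) + 1) ≤ d * (2 * u + 1) := by nlinarith
      have e2 : z * r ≤ r := by nlinarith
      linarith
    · have e1 : d * (2 * u + 1) ≤ 2 * (u : ℤ) + 1 := by nlinarith
      have e2 : -(r : ℤ) ≤ z * r := by nlinarith
      linarith
  by_cases h1 : j ∈ dry m u s
  · by_cases h2 : j - 1 ∈ dry m u s
    · have h3 : j + 1 ∉ dry m u s := fun h3 => h ⟨h2, h1, h3⟩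
      exact key (j + 1) 1 (by norm_num) (by push_cast; ring) h3
    · exact key (j - 1) (-1) (by norm_num) (by push_cast; ring) h2
  · exact key j 0 (by norm_num) (by push_cast; ring) h1

/-- the windows of separated blocks are disjoint -/
theorem far {u r : ℕ} (hu : 1 ≤ u) (hm : 201 ≤ m) (hr : r < 2 * u + 1)
    (hn : n = m * (2 * u + 1) + r) (j j' : ZMod m)
    (h : ∀ k : ℤ, |k| ≤ ((201 : ℕ) : ℤ) → j' ≠ j + (k : ZMod m)) (k k' : ℤ)
    (hk : |k| ≤ ((u + 200 * u : ℕ) : ℤ)) (hk' : |k'| ≤ ((u + 200 * u : ℕ) : ℤ)) :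
    cen n u j + (k : ZMod n) ≠ cen n u j' + (k' : ZMod n) := by
  intro he
  have h2 : ((((j'.val : ℤ) - j.val) * (2 * u + 1) + (k' - k) : ℤ) : ZMod n) = 0 := by
    unfold cen at he
    push_cast at he ⊢
    linear_combination -he
  obtain ⟨z, hz⟩ := (ZMod.intCast_zmod_eq_zero_iff_dvd _ _).1 h2
  have a1 : (j'.val : ℤ) < m := by exact_mod_cast ZMod.val_lt j'
  have a2 : (j.val : ℤ) < m := by exact_mod_cast ZMod.val_lt j
  have a3 : (0 : ℤ) ≤ j'.val := by positivity
  have a4 : (0 : ℤ) ≤ j.val := by positivity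
  have hk1 := abs_le.1 hk
  have hk2 := abs_le.1 hk'
  push_cast at hk1 hk2
  have hu' : (1 : ℤ) ≤ u := by exact_mod_cast hu
  have hm' : (201 : ℤ) ≤ m := by exact_mod_cast hm
  have hr' : (r : ℤ) ≤ 2 * u := by exact_mod_cast Nat.lt_succ_iff.1 hr
  have hr0 : (0 : ℤ) ≤ r := by positivity
  have hn' : (n : ℤ) = m * (2 * u + 1) + r := by exact_mod_cast hn
  set L : ℤ := 2 * u + 1 with hL
  set d : ℤ := (j'.val : ℤ) - j.val with hd
  have hd1 : d ≤ m - 1 := by omega
  have hd2 : -((m : ℤ) - 1) ≤ d := by omega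
  have hL1 : 1 ≤ L := by omega
  have e1 : d * L ≤ (m - 1) * L := by nlinarith
  have e2 : -((m - 1) * L) ≤ d * L := by nlinarith
  have hmL : 201 * L ≤ m * L := by nlinarith
  have hz1 : z ≤ 1 := by
    by_contra hc
    have hc' : 2 ≤ z := by omega
    have hnn : 0 ≤ (n : ℤ) := by positivity
    have : 2 * (n : ℤ) ≤ n * z := by nlinarith
    nlinarith
  have hz2 : -1 ≤ z := by
    by_contra hc
    have hc' : z ≤ -2 := by omega
    have hnn : 0 ≤ (n : ℤ) := by positivity
    have : (n : ℤ) * z ≤ -2 * n := by nlinarith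
    nlinarith
  have hD : (d - z * m) * L = z * r - (k' - k) := by
    rw [hn'] at hz
    linear_combination hz
  have f1 : z * r ≤ r := by nlinarith
  have f2 : -(r : ℤ) ≤ z * r := by nlinarith
  have g1 : d - z * m ≤ 201 := by
    by_contra hc
    have hc' : 202 ≤ d - z * m := by omega
    have : 202 * L ≤ (d - z * m) * L := by nlinarith
    linarith
  have g2 : -201 ≤ d - z * m := by
    by_contra hc
    have hc' : d - z * m ≤ -202 := by omega
    have : (d - z * m) * L ≤ -202 * L := by nlinarith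
    linarith
  apply h (d - z * m) (by rw [abs_le]; push_cast; exact ⟨g2, g1⟩)
  rw [hd]
  push_cast
  rw [ZMod.natCast_zmod_val, ZMod.natCast_zmod_val, ZMod.natCast_self]
  ring

theorem voidInd_nonneg (c : ZMod n) (u : ℕ) (y : Cfg n) : 0 ≤ voidInd c u y := by
  classical
  unfold voidInd
  split_ifs <;> norm_num

theorem voidInd_dry {u : ℕ} {y : Cfg n} {j : ZMod m} (h : j ∈ dry m u y) :
    voidInd (cen n u j) u y = 1 := by
  classical
  unfold voidInd
  rw [if_pos (mem_dry.1 h)]

/-- the hypothesis of PERC -/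
theorem perc_hyp (hF : FactStatement) {a : ℝ} (h0 : 0 ≤ a) (h1 : a ≤ 1) {u r : ℕ} (hu : 1 ≤ u)
    (hm : 201 ≤ m) (hr : r < 2 * u + 1) (hn : n = m * (2 * u + 1) + r)
    (hB : ∀ (c : ZMod n) (y : Cfg n) (p : ℤ), |p| ≤ 6 * (u : ℤ) → y (c + (p : ZMod n)) = true →
      ((PY a)^[200 * u] (voidInd c u)) y ≤ (1 / 100 : ℝ) ^ 403) (s : Cfg n) (A : Finset (ZMod m)) :
    ∑ s', (if A ⊆ Fset m u s s' then Ker a (200 * u) s s' else 0) ≤ (1 / 100 : ℝ) ^ A.card := by
  classical
  have hKer : ∀ s', 0 ≤ Ker a (200 * u) s s' := fun s' =>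
    iter_nonneg h0 h1 _ _ (fun z => by split_ifs <;> norm_num) s
  by_cases hA : ∃ j ∈ A, j - 1 ∈ dry m u s ∧ j ∈ dry m u s ∧ j + 1 ∈ dry m u s
  · obtain ⟨j, hj, hN⟩ := hA
    have : ∀ s', ¬ A ⊆ Fset m u s s' := by
      intro s' hs
      have := hs hj
      unfold Fset at this
      exact (Finset.mem_filter.1 this).2 hN
    simp only [this, if_false, Finset.sum_const_zero]
    positivity
  · push Not at hA
    obtain ⟨B, hBA, hsep, hcard⟩ := exists_sep 201 A
    have hfar : ∀ j ∈ B, ∀ j' ∈ B, j ≠ j' → ∀ k k' : ℤ, |k| ≤ ((u + 200 * u : ℕ) : ℤ) →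
        |k'| ≤ ((u + 200 * u : ℕ) : ℤ) → cen n u j + (k : ZMod n) ≠ cen n u j' + (k' : ZMod n) :=
      fun j hj j' hj' hjj k k' hk hk' => far hu hm hr hn j j' (hsep j hj j' hj' hjj) k k' hk hk'
    have hinj : Set.InjOn (cen n u : ZMod m → ZMod n) B := by
      intro j hj j' hj' hcc
      by_contra hjj
      have := hfar j hj j' hj' hjj 0 0 (by simp; positivity) (by simp; positivity)
      simp only [Int.cast_zero, add_zero] at this
      exact this hcc
    calc ∑ s', (if A ⊆ Fset m u s s' then Ker a (200 * u) s s' else 0)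
        ≤ ∑ s', Ker a (200 * u) s s' * ∏ c ∈ B.image (cen n u), voidInd c u s' := by
          refine Finset.sum_le_sum fun s' _ => ?_
          split_ifs with hs
          · rw [Finset.prod_image hinj]
            have : ∏ j ∈ B, voidInd (cen n u j) u s' = 1 := by
              refine Finset.prod_eq_one fun j hj => ?_
              have h2 := hs (hBA hj)
              unfold Fset at h2
              exact voidInd_dry (Finset.mem_filter.1 h2).1
            rw [this, mul_one]
          · exact mul_nonneg (hKer s') (Finset.prod_nonneg fun c _ => voidInd_nonneg c u s')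
      _ = ((PY a)^[200 * u] (fun z => ∏ c ∈ B.image (cen n u), voidInd c u z)) s := by
          rw [iter_eq_Ker]
      _ = ∏ c ∈ B.image (cen n u), ((PY a)^[200 * u] (voidInd c u)) s := by
          refine hF a h0 h1 n (200 * u) u (B.image (cen n u)) ?_ s
          intro c hc c' hc' hcc k k' hk hk'
          obtain ⟨j, hj, rfl⟩ := Finset.mem_image.1 hc
          obtain ⟨j', hj', rfl⟩ := Finset.mem_image.1 hc'
          refine hfar j hj j' hj' (fun e => hcc (by rw [e])) k k' ?_ ?_
          · push_cast at hk ⊢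
            exact hk
          · push_cast at hk' ⊢
            exact hk'
      _ = ∏ j ∈ B, ((PY a)^[200 * u] (voidInd (cen n u j) u)) s := by
          rw [Finset.prod_image hinj]
      _ ≤ ∏ _j ∈ B, (1 / 100 : ℝ) ^ 403 := by
          refine Finset.prod_le_prod (fun j _ => iter_nonneg h0 h1 _ _ (voidInd_nonneg _ _) s) ?_
          intro j hj
          have hj2 : ¬ (j - 1 ∈ dry m u s ∧ j ∈ dry m u s ∧ j + 1 ∈ dry m u s) := fun hN =>
            hA j (hBA hj) hN.1 hN.2.1 hN.2.2
          obtain ⟨p, hp, hsp⟩ := near hu hr hn s j hj2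
          exact hB _ _ p hp hsp
      _ = (1 / 100 : ℝ) ^ (403 * B.card) := by
          rw [Finset.prod_const, ← pow_mul]
      _ ≤ (1 / 100 : ℝ) ^ A.card := by
          apply pow_le_pow_of_le_one (by norm_num) (by norm_num)
          omega

/-- the initial configuration -/
def ini (n : ℕ) : Cfg n := fun i => decide (i.val % 4 < 2)

theorem dry_ini {u r : ℕ} (hu : 1 ≤ u) (hn : n = m * (2 * u + 1) + r) :
    dry m u (act n (ini n)) = ∅ := by
  ext j
  simp only [Finset.notMem_empty, iff_false]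
  rw [mem_dry]
  intro h
  have h1 := h 0 (by simp)
  simp only [Int.cast_zero, add_zero] at h1
  have hj : j.val + 1 ≤ m := ZMod.val_lt j
  have hv : (j.val + 1) * (2 * u + 1) ≤ m * (2 * u + 1) := Nat.mul_le_mul_right _ hj
  set v : ℕ := j.val * (2 * u + 1) + u with hvdef
  have hv1 : 1 ≤ v := by omega
  have hv2 : v + 1 < n := by
    rw [hn]
    have : (j.val + 1) * (2 * u + 1) = j.val * (2 * u + 1) + (2 * u + 1) := by ring
    omega
  have e1 : cen n u j - 1 = ((v - 1 : ℕ) : ZMod n) := by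
    unfold cen
    rw [← hvdef, Nat.cast_sub hv1]
    simp
  have e2 : cen n u j + 1 = ((v + 1 : ℕ) : ZMod n) := by
    unfold cen
    rw [← hvdef]
    push_cast
    ring
  simp only [act, ini, e1, e2, ZMod.val_natCast, Nat.mod_eq_of_lt hv2,
    Nat.mod_eq_of_lt (show v - 1 < n by omega)] at h1
  have h3 : ((v - 1) % 4 < 2) ↔ ¬ ((v + 1) % 4 < 2) := by omega
  by_cases h4 : (v + 1) % 4 < 2
  · have h5 : ¬ ((v - 1) % 4 < 2) := fun h => (h3.1 h) h4
    simp [h4, h5] at h1
  · have h5 : (v - 1) % 4 < 2 := h3.2 h4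
    simp [h4, h5] at h1

end blocks

/-- Module MAIN. -/
theorem main (hB : BlockStatement) (hF : FactStatement) (hP : PercStatement)
    (hM : MeasStatement) : MainStatement := by
  classical
  obtain ⟨ε0, hε0, hB1⟩ := hB ((1 / 100 : ℝ) ^ 403) (by positivity)
  refine ⟨1 - ε0, by linarith, ?_⟩
  intro α hα1 hα2
  obtain ⟨u, hu, n0, hB2⟩ := hB1 (1 - α) (by linarith) (by linarith)
  have hαε : (1 : ℝ) - (1 - α) = α := by ring
  rw [hαε] at hB2
  have hLpos : (0 : ℝ) < 2 * (2 * u + 1) := by positivity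
  refine ⟨(2 : ℝ) ^ (1 / (2 * (2 * u + 1)) : ℝ), ?_, max n0 (201 * (2 * u + 1)), ?_⟩
  · apply Real.one_lt_rpow (by norm_num)
    positivity
  · intro n hn
    have hn1 : n0 ≤ n := (le_max_left _ _).trans hn
    have hn2 : 201 * (2 * u + 1) ≤ n := (le_max_right _ _).trans hn
    have hLn : 0 < 2 * u + 1 := by omega
    obtain ⟨m, hmdef⟩ : ∃ m, m = n / (2 * u + 1) := ⟨_, rfl⟩
    obtain ⟨r, hrdef⟩ : ∃ r, r = n % (2 * u + 1) := ⟨_, rfl⟩
    have hm : 201 ≤ m := by
      rw [hmdef, Nat.le_div_iff_mul_le hLn]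
      exact hn2
    have hr : r < 2 * u + 1 := by
      rw [hrdef]
      exact Nat.mod_lt _ hLn
    have hnm : n = m * (2 * u + 1) + r := by
      rw [hmdef, hrdef, mul_comm]
      exact (Nat.div_add_mod n (2 * u + 1)).symm
    haveI : NeZero n := ⟨by omega⟩
    haveI : NeZero m := ⟨by omega⟩
    have h0 : (0 : ℝ) ≤ α := α.2.1
    have h1 : (α : ℝ) ≤ 1 := α.2.2
    set k : ℕ := 2 ^ m with hk
    -- the probability of absorption
    have hprob : ((PY (α : ℝ))^[200 * u * k] (fun y => if y = fun _ => false then 1 else 0))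
        (act n (ini n)) ≤ 1 / 2 := by
      rw [Function.iterate_mul]
      have c1 := comparison (m := m) (α : ℝ) h0 h1 (200 * u) u k (act n (ini n)) ∅
        (by rw [dry_ini hu hnm])
      have c2 := hP m (by omega) (Cfg n) (Ker (α : ℝ) (200 * u)) (Fset m u)
        (fun s s' => iter_nonneg h0 h1 _ _ (fun z => by split_ifs <;> norm_num) s)
        (fun s => by
          have := iter_eq_Ker (α : ℝ) (200 * u) (fun _ => 1) s
          rw [iter_one] at this
          simpa using this.symm)
        (fun s A => perc_hyp hF h0 h1 hu hm hr hnm (fun c y p hp hy => hB2 n hn1 c y p hp hy) s A)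
        k (act n (ini n))
      refine (c1.trans c2).trans ?_
      have h4 : ((k : ℕ) : ℝ) * (1 / 4 : ℝ) ^ m = (1 / 2 : ℝ) ^ m := by
        rw [hk]
        push_cast
        rw [← mul_pow]
        norm_num
      have h5 : (2 * m : ℕ) ≤ 2 ^ m := by
        have : ∀ q : ℕ, 1 ≤ q → 2 * q ≤ 2 ^ q := by
          intro q hq
          induction q, hq using Nat.le_induction with
          | base => norm_num
          | succ q hq ih =>
            rw [pow_succ]
            omega
        exact this m (by omega)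
      have h6 : (m : ℝ) * (1 / 2 : ℝ) ^ m ≤ 1 / 2 := by
        have h7 : (2 * m : ℝ) ≤ 2 ^ m := by exact_mod_cast h5
        have h8 : (1 / 2 : ℝ) ^ m * 2 ^ m = 1 := by
          rw [← mul_pow]
          norm_num
        have h9 : (0 : ℝ) < (1 / 2 : ℝ) ^ m := by positivity
        nlinarith
      calc ((k : ℕ) : ℝ) * m * (1 / 4 : ℝ) ^ m = m * ((k : ℝ) * (1 / 4 : ℝ) ^ m) := by ring
        _ = m * (1 / 2 : ℝ) ^ m := by rw [h4]
        _ ≤ 1 / 2 := h6
    have hmeas := hM α n (ini n) (200 * u * k)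
    refine le_trans ?_ (hmeas.trans (le_iSup (fun x => ∫⁻ w, tau n x w ∂(law α n)) (ini n)))
    apply ENNReal.ofReal_le_ofReal
    have hpow : ((2 : ℝ) ^ (1 / (2 * (2 * u + 1)) : ℝ)) ^ n ≤ 2 ^ m := by
      rw [← Real.rpow_natCast, ← Real.rpow_mul (by norm_num), ← Real.rpow_natCast 2 m]
      apply Real.rpow_le_rpow_of_exponent_le (by norm_num)
      rw [one_div, inv_mul_le_iff₀ hLpos]
      have h6 : n ≤ 2 * (2 * u + 1) * m := by
        have h7 : 2 * u + 1 ≤ m * (2 * u + 1) := Nat.le_mul_of_pos_left _ (by omega)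
        calc n = m * (2 * u + 1) + r := hnm
          _ ≤ m * (2 * u + 1) + m * (2 * u + 1) := by omega
          _ = 2 * (2 * u + 1) * m := by ring
      exact_mod_cast h6
    refine hpow.trans ?_
    have hk1 : ((200 * u * k : ℕ) : ℝ) = 200 * u * 2 ^ m := by
      rw [hk]
      push_cast
      ring
    rw [hk1]
    have hu1 : (1 : ℝ) ≤ u := by exact_mod_cast hu
    have h2m : (0 : ℝ) < 2 ^ m := by positivity
    have h8 : (100 : ℝ) * u * 2 ^ m ≤ 200 * u * 2 ^ m * (1 -
        ((PY (α : ℝ))^[200 * u * k] (fun y => if y = fun _ => false then 1 else 0))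
        (act n (ini n))) := by
      have h9 : (0 : ℝ) ≤ 200 * u * 2 ^ m := by positivity
      nlinarith
    refine le_trans ?_ h8
    nlinarith

end R150.MainH52
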