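import Pool.Agent.Lib.MP_28292c_pr.N43.Base

/-!
Module MEAS: the law of the trajectory and the lower bound for the expected hitting time.
-/

set_option autoImplicit false

open scoped BigOperators ENNReal NNReal
open MeasureTheory

namespace R150.MeasH52

variable {n : ℕ}

theorem act_step (D x : Cfg n) : act n (step n D x) = stepY n D (act n x) := by
  funext i
  have e1 : i - 1 + 1 = i := by ring
  have e2 : i + 1 - 1 = i := by ring
  simp only [act, step, stepY, e1, e2]
  cases D (i - 1) <;> cases D (i + 1) <;> cases x (i - 1) <;> cases x (i + 1) <;> cases x i <;>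
    cases x (i - 1 - 1) <;> cases x (i + 1 + 1) <;> rfl

/-- the trajectory of the activity configuration -/
def trajY (w : ℕ → Cfg n) (y : Cfg n) : ℕ → Cfg n
  | 0 => y
  | t + 1 => stepY n (w t) (trajY w y t)

theorem act_traj (w : ℕ → Cfg n) (x : Cfg n) (t : ℕ) :
    act n (traj n w x t) = trajY w (act n x) t := by
  induction t with
  | zero => rfl
  | succ t ih =>
    change act n (step n (w t) (traj n w x t)) = stepY n (w t) (trajY w (act n x) t)
    rw [act_step, ih]

theorem fixed_iff (x : Cfg n) : Fixed n x ↔ act n x = fun _ => false := by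
  constructor
  · intro h
    funext i
    have := h i
    simp only [act]
    revert this
    cases x (i - 1) <;> cases x (i + 1) <;> cases x i <;> simp
  · intro h i
    have := congrFun h i
    simp only [act] at this
    revert this
    cases x (i - 1) <;> cases x (i + 1) <;> cases x i <;> simp

theorem stepY_zero (D : Cfg n) : stepY n D (fun _ => false) = fun _ => false := by
  funext i
  simp [stepY]

theorem trajY_zero_mono (w : ℕ → Cfg n) (y : Cfg n) {s t : ℕ} (hst : s ≤ t)
    (h : trajY w y s = fun _ => false) : trajY w y t = fun _ => false := by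
  induction t, hst using Nat.le_induction with
  | base => exact h
  | succ t _ ih =>
    change stepY n (w t) (trajY w y t) = _
    rw [ih, stepY_zero]

theorem trajY_congr (w w' : ℕ → Cfg n) (y : Cfg n) (t : ℕ) (h : ∀ s < t, w s = w' s) :
    trajY w y t = trajY w' y t := by
  induction t with
  | zero => rfl
  | succ t ih =>
    change stepY n (w t) (trajY w y t) = stepY n (w' t) (trajY w' y t)
    rw [ih (fun s hs => h s (by omega)), h t (by omega)]

/-- the sequence of update sets of a point -/
def ups (w : ℕ × ZMod n → Bool) : ℕ → Cfg n := fun s i => w (s, i)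

variable [NeZero n]

theorem measurable_trajY (y : Cfg n) (t : ℕ) :
    Measurable (fun w : ℕ × ZMod n → Bool => trajY (ups w) y t) := by
  induction t with
  | zero => exact measurable_const
  | succ t ih =>
    have h1 : Measurable (fun p : Cfg n × Cfg n => stepY n p.1 p.2) := measurable_of_countable _
    have h2 : Measurable (fun w : ℕ × ZMod n → Bool => ups w t) := by
      apply measurable_pi_lambda
      intro i
      exact measurable_pi_apply _
    exact h1.comp (h2.prodMk ih)

/-- cylinders -/
def Cyl (s : ℕ) (Ds : ℕ → Cfg n) : Set (ℕ × ZMod n → Bool) := {w | ∀ r < s, ups w r = Ds r}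

theorem Cyl_eq (s : ℕ) (Ds : ℕ → Cfg n) :
    Cyl s Ds = Set.pi (↑((Finset.range s) ×ˢ (Finset.univ : Finset (ZMod n))))
      (fun p => {Ds p.1 p.2}) := by
  ext w
  simp only [Cyl, Set.mem_setOf_eq, Set.mem_pi, Finset.coe_product, Finset.coe_range,
    Finset.coe_univ, Set.mem_prod, Set.mem_Iio, Set.mem_univ, and_true, Set.mem_singleton_iff]
  constructor
  · intro h p hp
    exact congrFun (h p.1 hp) p.2
  · intro h r hr
    funext i
    exact h (r, i) hr

theorem measurableSet_Cyl (s : ℕ) (Ds : ℕ → Cfg n) : MeasurableSet (Cyl s Ds) := by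
  rw [Cyl_eq]
  exact MeasurableSet.pi (Finset.countable_toSet _) (fun p _ => measurableSet_singleton _)

instance (α : unitInterval) : IsProbabilityMeasure (law α n) := by
  unfold law
  infer_instance

theorem bern (α : unitInterval) (b : Bool) :
    (ProbabilityTheory.bernoulliMeasure true false α).real {b} = if b then (α : ℝ) else 1 - α := by
  rw [ProbabilityTheory.bernoulliMeasure_real_apply _ (measurableSet_singleton _)]
  cases b <;> simp

theorem law_Cyl (α : unitInterval) (s : ℕ) (Ds : ℕ → Cfg n) :
    (law α n).real (Cyl s Ds) = ∏ r ∈ Finset.range s, wt (α : ℝ) (Ds r) := by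
  rw [Cyl_eq, law, measureReal_def, Measure.infinitePi_pi _ (fun p _ => measurableSet_singleton _),
    ENNReal.toReal_prod, Finset.prod_product]
  refine Finset.prod_congr rfl fun r _ => ?_
  unfold wt
  refine Finset.prod_congr rfl fun i _ => ?_
  exact bern α (Ds r i)

theorem law_Cyl_inter (α : unitInterval) (y : Cfg n) (t : ℕ) :
    ∀ (s : ℕ) (Ds : ℕ → Cfg n),
    (law α n).real (Cyl s Ds ∩ {w | trajY (ups w) y (s + t) = fun _ => false}) =
      (law α n).real (Cyl s Ds) *
        ((PY (α : ℝ))^[t] (fun y => if y = fun _ => false then 1 else 0)) (trajY Ds y s) := by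
  induction t with
  | zero =>
    intro s Ds
    have hc : ∀ w ∈ Cyl s Ds, trajY (ups w) y s = trajY Ds y s := fun w hw =>
      trajY_congr _ _ _ _ hw
    simp only [Function.iterate_zero, id_eq, add_zero]
    by_cases h : trajY Ds y s = fun _ => false
    · rw [if_pos h, mul_one]
      congr 1
      ext w
      constructor
      · exact fun hw => hw.1
      · intro hw
        exact ⟨hw, by rw [Set.mem_setOf_eq, hc w hw, h]⟩
    · rw [if_neg h, mul_zero]
      have : Cyl s Ds ∩ {w | trajY (ups w) y s = fun _ => false} = ∅ := by
        ext w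
        simp only [Set.mem_inter_iff, Set.mem_setOf_eq, Set.mem_empty_iff_false, iff_false, not_and]
        intro hw
        rw [hc w hw]
        exact h
      rw [this]
      simp
  | succ t ih =>
    intro s Ds
    have hsplit : Cyl s Ds ∩ {w | trajY (ups w) y (s + (t + 1)) = fun _ => false} =
        ⋃ D ∈ (Finset.univ : Finset (Cfg n)), (Cyl (s + 1) (Function.update Ds s D) ∩
          {w | trajY (ups w) y (s + 1 + t) = fun _ => false}) := by
      ext w
      simp only [Set.mem_inter_iff, Set.mem_setOf_eq, Set.mem_iUnion, Finset.mem_univ,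
        exists_true_left]
      rw [show s + (t + 1) = s + 1 + t by ring]
      constructor
      · rintro ⟨h1, h2⟩
        refine ⟨ups w s, ?_, h2⟩
        intro r hr
        by_cases hrs : r = s
        · subst hrs
          simp
        · rw [Function.update_of_ne hrs]
          exact h1 r (by omega)
      · rintro ⟨D, h1, h2⟩
        refine ⟨?_, h2⟩
        intro r hr
        have := h1 r (by omega)
        rwa [Function.update_of_ne (by omega)] at this
    have hdisj : Set.PairwiseDisjoint (↑(Finset.univ : Finset (Cfg n)))
        (fun D => Cyl (s + 1) (Function.update Ds s D) ∩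
          {w | trajY (ups w) y (s + 1 + t) = fun _ => false}) := by
      intro D _ D' _ hDD
      rw [Function.onFun, Set.disjoint_left]
      rintro w ⟨h1, _⟩ ⟨h2, _⟩
      apply hDD
      have e1 := h1 s (by omega)
      have e2 := h2 s (by omega)
      rw [Function.update_self] at e1 e2
      rw [← e1, ← e2]
    have hmeas : ∀ D ∈ (Finset.univ : Finset (Cfg n)),
        MeasurableSet (Cyl (s + 1) (Function.update Ds s D) ∩
          {w | trajY (ups w) y (s + 1 + t) = fun _ => false}) := by
      intro D _
      exact (measurableSet_Cyl _ _).inter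
        (measurable_trajY y (s + 1 + t) (measurableSet_singleton _))
    rw [hsplit, measureReal_biUnion_finset hdisj hmeas, Function.iterate_succ_apply']
    unfold PY Ex
    rw [Finset.mul_sum]
    refine Finset.sum_congr rfl fun D _ => ?_
    rw [ih (s + 1) (Function.update Ds s D), law_Cyl, law_Cyl, Finset.prod_range_succ,
      Function.update_self]
    have e1 : ∏ r ∈ Finset.range s, wt (α : ℝ) (Function.update Ds s D r) =
        ∏ r ∈ Finset.range s, wt (α : ℝ) (Ds r) := by
      refine Finset.prod_congr rfl fun r hr => ?_
      rw [Function.update_of_ne (by have := Finset.mem_range.1 hr; omega)]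
    have e2 : trajY (Function.update Ds s D) y (s + 1) = stepY n D (trajY Ds y s) := by
      change stepY n (Function.update Ds s D s) (trajY (Function.update Ds s D) y s) = _
      rw [Function.update_self, trajY_congr (Function.update Ds s D) Ds y s (fun r hr => by
        rw [Function.update_of_ne (by omega)])]
    rw [e1, e2]
    unfold PY Ex
    ring

theorem law_zero (α : unitInterval) (y : Cfg n) (t : ℕ) :
    (law α n).real {w | trajY (ups w) y t = fun _ => false} =
        ((PY (α : ℝ))^[t] (fun y => if y = fun _ => false then 1 else 0)) y := by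
  have h := law_Cyl_inter α y t 0 (fun _ _ => false)
  have h0 : Cyl 0 (fun _ _ => false) = (Set.univ : Set (ℕ × ZMod n → Bool)) := by
    ext w
    simp [Cyl]
  rw [h0, Set.univ_inter, zero_add] at h
  rw [h]
  simp [trajY]

theorem tau_ge (x : Cfg n) (w : ℕ × ZMod n → Bool) (t : ℕ)
    (h : trajY (ups w) (act n x) t ≠ fun _ => false) : (t : ℝ≥0∞) ≤ tau n x w := by
  unfold tau
  refine le_iInf fun s => le_iInf fun hs => ?_
  by_contra hlt
  have hst : s < t := by
    rw [not_le] at hlt
    exact_mod_cast hlt
  apply h
  rw [fixed_iff, act_traj] at hs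
  exact trajY_zero_mono _ _ hst.le hs

/-- Module MEAS. -/
theorem meas : MeasStatement := by
  intro α n _ x t
  set E : Set (ℕ × ZMod n → Bool) := {w | trajY (ups w) (act n x) t = fun _ => false} with hE
  have hEm : MeasurableSet E := measurable_trajY (act n x) t (measurableSet_singleton _)
  have h1 : (law α n).real E = _ := law_zero α (act n x) t
  rw [← h1]
  have h2 : (law α n).real Eᶜ = 1 - (law α n).real E := by
    rw [measureReal_compl hEm]
    simp
  rw [← h2]
  calc ENNReal.ofReal ((t : ℝ) * (law α n).real Eᶜ) = (t : ℝ≥0∞) * (law α n) Eᶜ := by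
        rw [ENNReal.ofReal_mul (by positivity), ENNReal.ofReal_natCast, ofReal_measureReal]
    _ = ∫⁻ _ in Eᶜ, (t : ℝ≥0∞) ∂(law α n) := by
        rw [setLIntegral_const]
    _ ≤ ∫⁻ w in Eᶜ, tau n x w ∂(law α n) := by
        refine setLIntegral_mono' hEm.compl fun w hw => ?_
        exact tau_ge x w t hw
    _ ≤ ∫⁻ w, tau n x w ∂(law α n) := setLIntegral_le_lintegral _ _

end R150.MeasH52
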