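import Pool.Agent.Lib.MP_28292c_pr.N43.Base

/-!
# R150, module PERC: an eroder with random failures is never full
-/

set_option autoImplicit false

open scoped BigOperators

namespace R150.Perc

/-! ### The numerical recursion -/

/-- weights of the words of length `L` -/
noncomputable def aL (g : ℕ → ℝ) : ℕ → ℝ
  | 0 => 1
  | L + 1 => 1 / 100 * aL g L + g (L + 3) +
      1 / 100 * ∑ l : Fin L, g (l + 3) * aL g (L - 1 - l)
  decreasing_by
    all_goals omega

theorem aL_succ (g : ℕ → ℝ) (L : ℕ) : aL g (L + 1) = 1 / 100 * aL g L + g (L + 3) +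
    1 / 100 * ∑ l ∈ Finset.range L, g (l + 3) * aL g (L - 1 - l) := by
  rw [aL, Finset.sum_range fun l => g (l + 3) * aL g (L - 1 - l)]

theorem aL_nonneg {g : ℕ → ℝ} (hg : ∀ L, 0 ≤ g L) (L : ℕ) : 0 ≤ aL g L := by
  induction L using Nat.strong_induction_on with
  | _ L ih =>
    cases L with
    | zero => rw [aL]; exact zero_le_one
    | succ L =>
      rw [aL_succ]
      have h1 := ih L (Nat.lt_succ_self L)
      have h2 : 0 ≤ ∑ l ∈ Finset.range L, g (l + 3) * aL g (L - 1 - l) :=
        Finset.sum_nonneg fun l hl => mul_nonneg (hg _) (ih _ (by omega))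
      have h3 := hg (L + 3)
      linarith

theorem conv_le {u v : ℕ → ℝ} (hu : ∀ i, 0 ≤ u i) (hv : ∀ i, 0 ≤ v i) (N : ℕ) :
    ∑ L ∈ Finset.range N, ∑ l ∈ Finset.range L, u l * v (L - 1 - l) ≤
      (∑ l ∈ Finset.range N, u l) * ∑ l ∈ Finset.range N, v l := by
  rw [Finset.sum_mul_sum]
  have h1 : ∑ L ∈ Finset.range N, ∑ l ∈ Finset.range L, u l * v (L - 1 - l) =
      ∑ x ∈ (Finset.range N).sigma fun L => Finset.range L, u x.2 * v (x.1 - 1 - x.2) := by
    rw [Finset.sum_sigma]
  have h2 : ∑ i ∈ Finset.range N, ∑ j ∈ Finset.range N, u i * v j =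
      ∑ x ∈ Finset.range N ×ˢ Finset.range N, u x.1 * v x.2 := by
    rw [Finset.sum_product]
  rw [h1, h2]
  have h3 : ∑ x ∈ (Finset.range N).sigma fun L => Finset.range L, u x.2 * v (x.1 - 1 - x.2) =
      ∑ y ∈ ((Finset.range N).sigma fun L => Finset.range L).image
        (fun x => (x.2, x.1 - 1 - x.2)), u y.1 * v y.2 := by
    rw [Finset.sum_image]
    rintro ⟨L, l⟩ hx ⟨L', l'⟩ hx' he
    have hx1 := Finset.mem_sigma.1 (Finset.mem_coe.1 hx)
    have hx2 := Finset.mem_sigma.1 (Finset.mem_coe.1 hx')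
    have e1 : l = l' := congrArg Prod.fst he
    have e2 : L - 1 - l = L' - 1 - l' := congrArg Prod.snd he
    have a1 : l < L := Finset.mem_range.1 hx1.2
    have a2 : l' < L' := Finset.mem_range.1 hx2.2
    subst e1
    have : L = L' := by omega
    subst this
    rfl
  rw [h3]
  refine Finset.sum_le_sum_of_subset_of_nonneg ?_ fun y _ _ => mul_nonneg (hu _) (hv _)
  intro y hy
  obtain ⟨⟨L, l⟩, hx, rfl⟩ := Finset.mem_image.1 hy
  have hx1 := Finset.mem_sigma.1 hx
  have a1 : l < L := Finset.mem_range.1 hx1.2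
  have a2 : L < N := Finset.mem_range.1 hx1.1
  refine Finset.mem_product.2 ⟨Finset.mem_range.2 ?_, Finset.mem_range.2 ?_⟩
  · show l < N
    omega
  · show L - 1 - l < N
    omega

/-- the sum of the weights -/
theorem sum_aL {g : ℕ → ℝ} (hg : ∀ L, 0 ≤ g L)
    (hs : ∀ N, ∑ L ∈ Finset.range N, 4 ^ L * g L ≤ 1 / 20) (N : ℕ) :
    ∑ L ∈ Finset.range N, 4 ^ (L + 1) * aL g (L + 1) ≤ 1 / 20 := by
  set A : ℕ → ℝ := fun L => 4 ^ L * aL g L with hA
  have hA0 : ∀ L, 0 ≤ A L := fun L => mul_nonneg (by positivity) (aL_nonneg hg L)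
  set G : ℕ → ℝ := fun l => 4 ^ (l + 3) * g (l + 3) with hG
  have hG0 : ∀ l, 0 ≤ G l := fun l => mul_nonneg (by positivity) (hg _)
  have hGs : ∑ l ∈ Finset.range N, G l ≤ 1 / 20 := by
    have h0 := hs (3 + N)
    rw [Finset.sum_range_add] at h0
    have h00 : 0 ≤ ∑ L ∈ Finset.range 3, (4 : ℝ) ^ L * g L :=
      Finset.sum_nonneg fun i _ => mul_nonneg (by positivity) (hg _)
    have e0 : ∑ l ∈ Finset.range N, G l = ∑ x ∈ Finset.range N, (4 : ℝ) ^ (3 + x) * g (3 + x) := by
      refine Finset.sum_congr rfl fun l _ => ?_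
      rw [hG]
      simp only [Nat.add_comm 3 l]
    rw [e0]
    linarith
  have h1 : ∀ L, 4 ^ (L + 1) * aL g (L + 1) = 1 / 25 * A L + 1 / 16 * G L +
      1 / 400 * ∑ l ∈ Finset.range L, G l * A (L - 1 - l) := by
    intro L
    rw [aL_succ, hA, hG]
    have e1 : ∑ l ∈ Finset.range L, (4 : ℝ) ^ (l + 3) * g (l + 3) *
        (4 ^ (L - 1 - l) * aL g (L - 1 - l)) =
        4 ^ (L + 2) * ∑ l ∈ Finset.range L, g (l + 3) * aL g (L - 1 - l) := by
      rw [Finset.mul_sum]
      refine Finset.sum_congr rfl fun l hl => ?_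
      have hlt := Finset.mem_range.1 hl
      have e2 : (4 : ℝ) ^ (L + 2) = 4 ^ (l + 3) * 4 ^ (L - 1 - l) := by
        rw [← pow_add]
        congr 1
        omega
      rw [e2]
      ring
    simp only [e1]
    ring
  have hsum : ∑ L ∈ Finset.range N, 4 ^ (L + 1) * aL g (L + 1) =
      1 / 25 * ∑ L ∈ Finset.range N, A L + 1 / 16 * ∑ L ∈ Finset.range N, G L +
      1 / 400 * ∑ L ∈ Finset.range N, ∑ l ∈ Finset.range L, G l * A (L - 1 - l) := by
    rw [Finset.mul_sum, Finset.mul_sum, Finset.mul_sum, ← Finset.sum_add_distrib,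
      ← Finset.sum_add_distrib]
    exact Finset.sum_congr rfl fun L _ => h1 L
  have hconv := conv_le hG0 hA0 N
  have hAs : ∑ L ∈ Finset.range N, A L ≤
      1 + ∑ L ∈ Finset.range N, 4 ^ (L + 1) * aL g (L + 1) := by
    have e3 : ∑ L ∈ Finset.range (N + 1), A L =
        (∑ L ∈ Finset.range N, 4 ^ (L + 1) * aL g (L + 1)) + 1 := by
      rw [Finset.sum_range_succ']
      congr 1
      simp [hA, aL]
    have e4 : ∑ L ∈ Finset.range N, A L ≤ ∑ L ∈ Finset.range (N + 1), A L := by
      rw [Finset.sum_range_succ]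
      exact le_add_of_nonneg_right (hA0 N)
    linarith
  set S := ∑ L ∈ Finset.range N, 4 ^ (L + 1) * aL g (L + 1) with hS
  set SA := ∑ L ∈ Finset.range N, A L with hSA
  have hSA0 : 0 ≤ SA := Finset.sum_nonneg fun L _ => hA0 L
  have h5 : (∑ l ∈ Finset.range N, G l) * SA ≤ 1 / 20 * SA :=
    mul_le_mul_of_nonneg_right hGs hSA0
  have h6 : ∑ L ∈ Finset.range N, ∑ l ∈ Finset.range L, G l * A (L - 1 - l) ≤ 1 / 20 * SA :=
    hconv.trans h5
  linarith

/-! ### Arcs -/

variable {m : ℕ}

/-- the arc `a, ..., a + L - 1` is a maximal arc of `D` -/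
def IsMax (D : Finset (ZMod m)) (J : ZMod m × ℕ) : Prop :=
  1 ≤ J.2 ∧ J.2 < m ∧ (∀ i, i < J.2 → J.1 + (i : ZMod m) ∈ D) ∧ J.1 - 1 ∉ D ∧
    J.1 + (J.2 : ZMod m) ∉ D

/-- cells of an arc -/
def cells (a : ZMod m) (L : ℕ) : Set (ZMod m) := {x | ∃ i, i < L ∧ x = a + (i : ZMod m)}

/-- the arc is covered by `E ∪ F`, and not adjacent to `E` -/
def XX (E F : Finset (ZMod m)) (a : ZMod m) (L : ℕ) : Prop :=
  (∀ i, i < L → a + (i : ZMod m) ∈ E ∪ F) ∧ a - 1 ∉ E ∧ a + (L : ZMod m) ∉ E

theorem natCast_ne_zero {i : ℕ} (h0 : 0 < i) (h1 : i < m) : (i : ZMod m) ≠ 0 := by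
  intro h
  rw [ZMod.natCast_eq_zero_iff] at h
  exact absurd (Nat.le_of_dvd h0 h) (not_le.2 h1)

theorem IsMax.eq_of_mem {D : Finset (ZMod m)} {J J' : ZMod m × ℕ} (h : IsMax D J)
    (h' : IsMax D J') {i i' : ℕ} (hi : i < J.2) (hi' : i' < J'.2)
    (he : J.1 + (i : ZMod m) = J'.1 + (i' : ZMod m)) : J = J' := by
  have key : ∀ {J J' : ZMod m × ℕ}, IsMax D J → IsMax D J' → ∀ {i i' : ℕ}, i < J.2 → i' < J'.2 →
      J.1 + (i : ZMod m) = J'.1 + (i' : ZMod m) → i ≤ i' → J.1 = J'.1 := by
    intro J J' h h' i i' _ hi' he hle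
    obtain ⟨d, rfl⟩ := Nat.exists_eq_add_of_le hle
    have e1 : J.1 = J'.1 + (d : ZMod m) := by
      have : J.1 + (i : ZMod m) = (J'.1 + (d : ZMod m)) + (i : ZMod m) := by
        rw [he]
        push_cast
        ring
      exact add_right_cancel this
    rcases Nat.eq_zero_or_pos d with hd | hd
    · rw [e1, hd]
      simp
    · exfalso
      obtain ⟨d', rfl⟩ := Nat.exists_eq_succ_of_ne_zero hd.ne'
      have h1 := h'.2.2.1 d' (by omega)
      have e2 : J.1 - 1 = J'.1 + (d' : ZMod m) := by
        rw [e1]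
        push_cast
        ring
      rw [← e2] at h1
      exact h.2.2.2.1 h1
  have e1 : J.1 = J'.1 := by
    rcases le_total i i' with hle | hle
    · exact key h h' hi hi' he hle
    · exact (key h' h hi' hi he.symm hle).symm
  have e2 : J.2 = J'.2 := by
    rcases lt_trichotomy J.2 J'.2 with hlt | heq | hlt
    · exfalso
      have h1 := h'.2.2.1 J.2 hlt
      rw [← e1] at h1
      exact h.2.2.2.2 h1
    · exact heq
    · exfalso
      have h1 := h.2.2.1 J'.2 hlt
      rw [e1] at h1
      exact h'.2.2.2.2 h1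
  exact Prod.ext e1 e2

variable [NeZero m]

theorem mem_erode {D : Finset (ZMod m)} {j : ZMod m} :
    j ∈ erode D ↔ j - 1 ∈ D ∧ j ∈ D ∧ j + 1 ∈ D := by
  simp [erode]

/-- the decomposition of an arc: first letter -/
theorem XX_step {D F : Finset (ZMod m)} {a : ZMod m} {L : ℕ} (h : XX (erode D) F a (L + 1)) :
    (a ∈ F ∧ XX (erode D) F (a + 1) L) ∨ IsMax D (a - 1, L + 3) ∨
      ∃ l, l < L ∧ IsMax D (a - 1, l + 3) ∧ a + (l : ZMod m) + 1 ∈ F ∧
        XX (erode D) F (a + (l : ZMod m) + 2) (L - 1 - l) := by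
  classical
  obtain ⟨h1, h2, h3⟩ := h
  by_cases ha : a ∈ erode D
  · right
    -- the end of the run
    have hex : ∃ l : ℕ, a + (l : ZMod m) + 1 ∉ erode D := by
      refine ⟨L, ?_⟩
      have : a + (L : ZMod m) + 1 = a + ((L + 1 : ℕ) : ZMod m) := by
        push_cast
        ring
      rw [this]
      exact h3
    set l := Nat.find hex with hl
    have hl1 : a + (l : ZMod m) + 1 ∉ erode D := Nat.find_spec hex
    have hl2 : l ≤ L := by
      refine Nat.find_min' hex ?_
      have : a + (L : ZMod m) + 1 = a + ((L + 1 : ℕ) : ZMod m) := by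
        push_cast
        ring
      rw [this]
      exact h3
    have hrun : ∀ i, i ≤ l → a + (i : ZMod m) ∈ erode D := by
      intro i hi
      rcases Nat.eq_zero_or_pos i with h0 | h0
      · rw [h0]
        simpa using ha
      · obtain ⟨i', rfl⟩ := Nat.exists_eq_succ_of_ne_zero h0.ne'
        have h4 := Nat.find_min hex (m := i') (by omega)
        rw [not_not] at h4
        have : a + ((i' + 1 : ℕ) : ZMod m) = a + (i' : ZMod m) + 1 := by
          push_cast
          ring
        show a + ((i' + 1 : ℕ) : ZMod m) ∈ erode D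
        rw [this]
        exact h4
    have hmax : IsMax D (a - 1, l + 3) := by
      have hin : ∀ i, i < l + 3 → a - 1 + (i : ZMod m) ∈ D := by
        intro i hi
        rcases Nat.lt_or_ge i (l + 1) with h4 | h4
        · have h5 := (mem_erode.1 (hrun i (by omega))).1
          have : a - 1 + (i : ZMod m) = a + (i : ZMod m) - 1 := by ring
          rw [this]
          exact h5
        · obtain ⟨i', rfl⟩ := Nat.exists_eq_add_of_le h4
          have h5 := mem_erode.1 (hrun l le_rfl)
          rcases Nat.eq_zero_or_pos i' with h6 | h6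
          · have : a - 1 + ((l + 1 + i' : ℕ) : ZMod m) = a + (l : ZMod m) := by
              rw [h6]
              push_cast
              ring
            rw [this]
            exact h5.2.1
          · have h7 : i' = 1 := by omega
            have : a - 1 + ((l + 1 + i' : ℕ) : ZMod m) = a + (l : ZMod m) + 1 := by
              rw [h7]
              push_cast
              ring
            rw [this]
            exact h5.2.2
      have hleft : a - 1 - 1 ∉ D := by
        intro h4
        refine h2 (mem_erode.2 ⟨h4, (mem_erode.1 ha).1, ?_⟩)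
        rw [sub_add_cancel]
        exact (mem_erode.1 ha).2.1
      have hright : a - 1 + ((l + 3 : ℕ) : ZMod m) ∉ D := by
        intro h4
        have h5 := mem_erode.1 (hrun l le_rfl)
        refine hl1 (mem_erode.2 ⟨?_, h5.2.2, ?_⟩)
        · have : a + (l : ZMod m) + 1 - 1 = a + (l : ZMod m) := by ring
          rw [this]
          exact h5.2.1
        · have : a + (l : ZMod m) + 1 + 1 = a - 1 + ((l + 3 : ℕ) : ZMod m) := by
            push_cast
            ring
          rw [this]
          exact h4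
      refine ⟨by show 1 ≤ l + 3; omega, ?_, hin, hleft, hright⟩
      show l + 3 < m
      by_contra hge
      rw [not_lt] at hge
      -- all residues are covered
      have h4 := ZMod.val_lt (a - 1 - 1 - (a - 1))
      have h5 := hin (a - 1 - 1 - (a - 1)).val (by omega)
      rw [ZMod.natCast_zmod_val] at h5
      have : a - 1 + (a - 1 - 1 - (a - 1)) = a - 1 - 1 := by ring
      rw [this] at h5
      exact hleft h5
    rcases hl2.eq_or_lt with heq | hlt
    · left
      rw [heq] at hmax
      exact hmax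
    · right
      refine ⟨l, hlt, hmax, ?_, ?_, ?_, ?_⟩
      · have h4 := h1 (l + 1) (by omega)
        have : a + ((l + 1 : ℕ) : ZMod m) = a + (l : ZMod m) + 1 := by
          push_cast
          ring
        rw [this, Finset.mem_union] at h4
        exact h4.resolve_left hl1
      · intro i hi
        have h4 := h1 (l + 2 + i) (by omega)
        have : a + ((l + 2 + i : ℕ) : ZMod m) = a + (l : ZMod m) + 2 + (i : ZMod m) := by
          push_cast
          ring
        rw [this] at h4
        exact h4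
      · have : a + (l : ZMod m) + 2 - 1 = a + (l : ZMod m) + 1 := by ring
        rw [this]
        exact hl1
      · have : a + (l : ZMod m) + 2 + ((L - 1 - l : ℕ) : ZMod m) = a + ((L + 1 : ℕ) : ZMod m) := by
          have e : L + 1 = l + 2 + (L - 1 - l) := by omega
          conv_rhs => rw [e]
          push_cast
          ring
        rw [this]
        exact h3
  · left
    refine ⟨?_, ?_, ?_, ?_⟩
    · have h4 := h1 0 (Nat.succ_pos L)
      rw [Nat.cast_zero, add_zero, Finset.mem_union] at h4
      exact h4.resolve_left ha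
    · intro i hi
      have h4 := h1 (i + 1) (by omega)
      have : a + ((i + 1 : ℕ) : ZMod m) = a + 1 + (i : ZMod m) := by
        push_cast
        ring
      rw [this] at h4
      exact h4
    · rw [add_sub_cancel_right]
      exact ha
    · have : a + 1 + (L : ZMod m) = a + ((L + 1 : ℕ) : ZMod m) := by
        push_cast
        ring
      rw [this]
      exact h3

/-! ### The expectation functional -/

open Classical in
/-- indicator of a proposition -/
noncomputable def ind (P : Prop) : ℝ := if P then 1 else 0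

theorem ind_nonneg (P : Prop) : 0 ≤ ind P := by
  unfold ind
  split_ifs
  · exact zero_le_one
  · exact le_rfl

theorem ind_true {P : Prop} (h : P) : ind P = 1 := if_pos h

theorem ind_false {P : Prop} (h : ¬ P) : ind P = 0 := if_neg h

theorem ind_le_one (P : Prop) : ind P ≤ 1 := by
  unfold ind
  split_ifs
  · exact le_rfl
  · exact zero_le_one

theorem ind_mono {P Q : Prop} (h : P → Q) : ind P ≤ ind Q := by
  by_cases hP : P
  · rw [ind_true hP, ind_true (h hP)]
  · rw [ind_false hP]
    exact ind_nonneg Q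

theorem ind_and (P Q : Prop) : ind (P ∧ Q) = ind P * ind Q := by
  by_cases hP : P
  · by_cases hQ : Q
    · rw [ind_true hP, ind_true hQ, ind_true ⟨hP, hQ⟩, one_mul]
    · rw [ind_false hQ, ind_false fun h => hQ h.2, mul_zero]
  · rw [ind_false hP, ind_false fun h => hP h.1, zero_mul]

section prob

variable {S : Type} [Fintype S] {K : S → S → ℝ} {F : S → S → Finset (ZMod m)}

theorem iter_mono (hK : ∀ s s', 0 ≤ K s s') {ψ φ : S → Finset (ZMod m) → ℝ}
    (h : ∀ s D, ψ s D ≤ φ s D) (k : ℕ) :
    ∀ s D, (opP K F)^[k] ψ s D ≤ (opP K F)^[k] φ s D := by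
  induction k generalizing ψ φ with
  | zero => exact h
  | succ k ih =>
    rw [Function.iterate_succ_apply, Function.iterate_succ_apply]
    refine ih fun s D => ?_
    exact Finset.sum_le_sum fun s' _ => mul_le_mul_of_nonneg_left (h _ _) (hK s s')

theorem iter_add (ψ φ : S → Finset (ZMod m) → ℝ) (k : ℕ) :
    (opP K F)^[k] (fun s D => ψ s D + φ s D) =
      fun s D => (opP K F)^[k] ψ s D + (opP K F)^[k] φ s D := by
  induction k generalizing ψ φ with
  | zero => rfl
  | succ k ih =>
    rw [Function.iterate_succ_apply, Function.iterate_succ_apply, Function.iterate_succ_apply,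
      ← ih]
    congr 1
    funext s D
    show ∑ s', K s s' * (ψ s' _ + φ s' _) = (∑ s', K s s' * ψ s' _) + ∑ s', K s s' * φ s' _
    rw [← Finset.sum_add_distrib]
    exact Finset.sum_congr rfl fun s' _ => mul_add _ _ _

theorem iter_smul (c : ℝ) (ψ : S → Finset (ZMod m) → ℝ) (k : ℕ) :
    (opP K F)^[k] (fun s D => c * ψ s D) = fun s D => c * (opP K F)^[k] ψ s D := by
  induction k generalizing ψ with
  | zero => rfl
  | succ k ih =>
    rw [Function.iterate_succ_apply, Function.iterate_succ_apply, ← ih]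
    congr 1
    funext s D
    show ∑ s', K s s' * (c * ψ s' _) = c * ∑ s', K s s' * ψ s' _
    rw [Finset.mul_sum]
    exact Finset.sum_congr rfl fun s' _ => by ring

variable (K F) in
/-- expectation of `Z (Dh_k) (F_(k+1))` -/
noncomputable def Mk (k : ℕ) (s : S) (Z : Finset (ZMod m) → Finset (ZMod m) → ℝ) : ℝ :=
  (opP K F)^[k] (fun t D => ∑ t', K t t' * Z D (F t t')) s ∅

theorem Mk_mono (hK : ∀ s s', 0 ≤ K s s') {Z W : Finset (ZMod m) → Finset (ZMod m) → ℝ}
    (h : ∀ D E, Z D E ≤ W D E) (k : ℕ) (s : S) : Mk K F k s Z ≤ Mk K F k s W :=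
  iter_mono hK (fun s _ => Finset.sum_le_sum fun s' _ =>
    mul_le_mul_of_nonneg_left (h _ _) (hK s s')) k s ∅

theorem Mk_add (Z W : Finset (ZMod m) → Finset (ZMod m) → ℝ) (k : ℕ) (s : S) :
    Mk K F k s (fun D E => Z D E + W D E) = Mk K F k s Z + Mk K F k s W := by
  unfold Mk
  have e : (fun (t : S) (D : Finset (ZMod m)) => ∑ t', K t t' * (Z D (F t t') + W D (F t t'))) =
      fun t D => (∑ t', K t t' * Z D (F t t')) + ∑ t', K t t' * W D (F t t') := by
    funext t D
    rw [← Finset.sum_add_distrib]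
    exact Finset.sum_congr rfl fun s' _ => mul_add _ _ _
  rw [e, iter_add]

theorem Mk_smul (c : ℝ) (Z : Finset (ZMod m) → Finset (ZMod m) → ℝ) (k : ℕ) (s : S) :
    Mk K F k s (fun D E => c * Z D E) = c * Mk K F k s Z := by
  unfold Mk
  have e : (fun (t : S) (D : Finset (ZMod m)) => ∑ t', K t t' * (c * Z D (F t t'))) =
      fun t D => c * ∑ t', K t t' * Z D (F t t') := by
    funext t D
    rw [Finset.mul_sum]
    exact Finset.sum_congr rfl fun s' _ => by ring
  rw [e, iter_smul]

theorem Mk_sum {ι : Type} (I : Finset ι) (Z : ι → Finset (ZMod m) → Finset (ZMod m) → ℝ)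
    (k : ℕ) (s : S) : Mk K F k s (fun D E => ∑ i ∈ I, Z i D E) = ∑ i ∈ I, Mk K F k s (Z i) := by
  classical
  induction I using Finset.induction_on with
  | empty =>
    simp only [Finset.sum_empty]
    have h := Mk_smul (K := K) (F := F) 0 (fun _ _ => 0) k s
    simpa using h
  | insert i I hi ih =>
    simp only [Finset.sum_insert hi]
    rw [Mk_add, ih]

/-- a monomial: arcs in `𝒥` are maximal, cells in `A` fail -/
noncomputable def mon (𝒥 : Finset (ZMod m × ℕ)) (A D E : Finset (ZMod m)) : ℝ :=
  ind (∀ J ∈ 𝒥, IsMax D J) * ind (A ⊆ E)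

omit [NeZero m] in
theorem mon_nonneg (𝒥 : Finset (ZMod m × ℕ)) (A D E : Finset (ZMod m)) : 0 ≤ mon 𝒥 A D E :=
  mul_nonneg (ind_nonneg _) (ind_nonneg _)

variable (K F) in
def Pr (g : ℕ → ℝ) (k : ℕ) (s : S) (Z : Finset (ZMod m) → Finset (ZMod m) → ℝ) (z : ℝ)
    (V : Set (ZMod m)) : Prop :=
  ∀ (𝒥 : Finset (ZMod m × ℕ)) (A : Finset (ZMod m)), (∀ J ∈ 𝒥, J.1 + 1 ∉ V) →
    (∀ j ∈ A, j ∉ V) → Mk K F k s (fun D E => Z D E * mon 𝒥 A D E) ≤
      z * ((∏ J ∈ 𝒥, g J.2) * (1 / 100) ^ A.card)

variable {g : ℕ → ℝ} {k : ℕ} {s : S}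

omit [NeZero m] in
theorem wt_nonneg (hg : ∀ L, 0 ≤ g L) (𝒥 : Finset (ZMod m × ℕ)) (A : Finset (ZMod m)) :
    0 ≤ (∏ J ∈ 𝒥, g J.2) * (1 / 100 : ℝ) ^ A.card :=
  mul_nonneg (Finset.prod_nonneg fun J _ => hg _) (by positivity)

theorem Pr.mono {Z : Finset (ZMod m) → Finset (ZMod m) → ℝ} {z : ℝ} {V : Set (ZMod m)}
    (h : Pr K F g k s Z z V) {V' : Set (ZMod m)} (hV : V ⊆ V') : Pr K F g k s Z z V' :=
  fun 𝒥 A h1 h2 => h 𝒥 A (fun J hJ hm => h1 J hJ (hV hm)) fun j hj hm => h2 j hj (hV hm)

theorem Pr.le (hK : ∀ s s', 0 ≤ K s s') {Z W : Finset (ZMod m) → Finset (ZMod m) → ℝ} {z : ℝ}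
    {V : Set (ZMod m)} (h : Pr K F g k s Z z V) (hW : ∀ D E, W D E ≤ Z D E) :
    Pr K F g k s W z V :=
  fun 𝒥 A h1 h2 => (Mk_mono hK (fun D E => mul_le_mul_of_nonneg_right (hW D E)
    (mon_nonneg _ _ _ _)) k s).trans (h 𝒥 A h1 h2)

theorem Pr.add {Z W : Finset (ZMod m) → Finset (ZMod m) → ℝ} {z w : ℝ} {V : Set (ZMod m)}
    (h : Pr K F g k s Z z V) (h' : Pr K F g k s W w V) :
    Pr K F g k s (fun D E => Z D E + W D E) (z + w) V := by
  intro 𝒥 A h1 h2
  have e : (fun D E => (Z D E + W D E) * mon 𝒥 A D E) =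
      fun D E => Z D E * mon 𝒥 A D E + W D E * mon 𝒥 A D E := by
    funext D E
    ring
  rw [e, Mk_add, add_mul]
  exact add_le_add (h 𝒥 A h1 h2) (h' 𝒥 A h1 h2)

theorem Pr.zero {V : Set (ZMod m)} : Pr K F g k s (fun _ _ => 0) 0 V := by
  intro 𝒥 A _ _
  have h := Mk_smul (K := K) (F := F) 0 (fun _ _ => 0) k s
  simp only [zero_mul] at h ⊢
  rw [h]

theorem Pr.sum {ι : Type} (I : Finset ι) {Z : ι → Finset (ZMod m) → Finset (ZMod m) → ℝ}
    {z : ι → ℝ} {V : Set (ZMod m)} (h : ∀ i ∈ I, Pr K F g k s (Z i) (z i) V) :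
    Pr K F g k s (fun D E => ∑ i ∈ I, Z i D E) (∑ i ∈ I, z i) V := by
  classical
  induction I using Finset.induction_on with
  | empty =>
    simp only [Finset.sum_empty]
    exact Pr.zero
  | insert i I hi ih =>
    simp only [Finset.sum_insert hi]
    exact (h i (Finset.mem_insert_self i I)).add
      (ih fun j hj => h j (Finset.mem_insert_of_mem hj))

theorem Pr.cell {Z : Finset (ZMod m) → Finset (ZMod m) → ℝ} {z : ℝ} {V : Set (ZMod m)}
    (h : Pr K F g k s Z z V) {a : ZMod m} (ha : a ∉ V) :
    Pr K F g k s (fun D E => ind (a ∈ E) * Z D E) (1 / 100 * z) (insert a V) := by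
  intro 𝒥 A h1 h2
  have haA : a ∉ A := fun hm => h2 a hm (Set.mem_insert a V)
  have e : (fun D E => ind (a ∈ E) * Z D E * mon 𝒥 A D E) =
      fun D E => Z D E * mon 𝒥 (insert a A) D E := by
    funext D E
    have e1 : ind (insert a A ⊆ E) = ind (a ∈ E) * ind (A ⊆ E) := by
      rw [← ind_and, Finset.insert_subset_iff]
    unfold mon
    rw [e1]
    ring
  rw [e]
  have h3 := h 𝒥 (insert a A) (fun J hJ hm => h1 J hJ (Set.mem_insert_of_mem a hm)) ?_
  · rw [Finset.card_insert_of_notMem haA, pow_succ] at h3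
    refine h3.trans (le_of_eq ?_)
    ring
  · intro j hj hm
    rcases Finset.mem_insert.1 hj with rfl | hj
    · exact ha hm
    · exact h2 j hj (Set.mem_insert_of_mem a hm)

theorem Pr.arc {Z : Finset (ZMod m) → Finset (ZMod m) → ℝ} {z : ℝ} {V : Set (ZMod m)}
    (h : Pr K F g k s Z z V) {a : ZMod m} (ha : a ∉ V) (L : ℕ) :
    Pr K F g k s (fun D E => ind (IsMax D (a - 1, L)) * Z D E) (g L * z) (insert a V) := by
  intro 𝒥 A h1 h2
  have haA : (a - 1, L) ∉ 𝒥 := fun hm => h1 _ hm (by
    show a - 1 + 1 ∈ insert a V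
    rw [sub_add_cancel]
    exact Set.mem_insert a V)
  have e : (fun D E => ind (IsMax D (a - 1, L)) * Z D E * mon 𝒥 A D E) =
      fun D E => Z D E * mon (insert (a - 1, L) 𝒥) A D E := by
    funext D E
    have e1 : ind (∀ J ∈ insert (a - 1, L) 𝒥, IsMax D J) =
        ind (IsMax D (a - 1, L)) * ind (∀ J ∈ 𝒥, IsMax D J) := by
      rw [← ind_and]
      congr 1
      exact propext (Finset.forall_mem_insert _ _ _)
    unfold mon
    rw [e1]
    ring
  rw [e]
  have h3 := h (insert (a - 1, L) 𝒥) A ?_ fun j hj hm => h2 j hj (Set.mem_insert_of_mem a hm)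
  · rw [Finset.prod_insert haA] at h3
    refine h3.trans (le_of_eq ?_)
    ring
  · intro J hJ hm
    rcases Finset.mem_insert.1 hJ with rfl | hJ
    · apply ha
      have : a - 1 + 1 ∈ V := hm
      rwa [sub_add_cancel] at this
    · exact h1 J hJ (Set.mem_insert_of_mem a hm)

omit [NeZero m] in
theorem mem_cells_shift {a : ZMod m} {d L : ℕ} {x : ZMod m}
    (hx : x ∈ cells (a + (d : ZMod m)) L) {L' : ℕ} (h : d + L ≤ L') : x ∈ cells a L' := by
  obtain ⟨i, hi, rfl⟩ := hx
  refine ⟨d + i, by omega, ?_⟩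
  push_cast
  ring

/-- the weight of an arc -/
theorem pr_XX (hK : ∀ s s', 0 ≤ K s s') (L : ℕ) : L < m →
    ∀ (a : ZMod m) (Z : Finset (ZMod m) → Finset (ZMod m) → ℝ) (z : ℝ) (V : Set (ZMod m)),
    (∀ D E, 0 ≤ Z D E) → Pr K F g k s Z z V → (∀ x ∈ cells a L, x ∉ V) →
    Pr K F g k s (fun D E => ind (XX (erode D) E a L) * Z D E) (aL g L * z) (V ∪ cells a L) := by
  induction L using Nat.strong_induction_on with
  | _ L ih =>
    intro hLm a Z z V hZ hP hV
    cases L with
    | zero =>
      rw [aL, one_mul]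
      refine (hP.mono Set.subset_union_left).le hK fun D E => ?_
      exact mul_le_of_le_one_left (hZ D E) (ind_le_one _)
    | succ L =>
      have haV : a ∉ V := hV a ⟨0, Nat.succ_pos L, by simp⟩
      -- first letter: a cell
      have t1 : Pr K F g k s (fun D E => ind (a ∈ E) * (ind (XX (erode D) E (a + 1) L) * Z D E))
          (1 / 100 * (aL g L * z)) (V ∪ cells a (L + 1)) := by
        have h1 := ih L (Nat.lt_succ_self L) (by omega) (a + 1) Z z V hZ hP ?_
        · refine (h1.cell (a := a) ?_).mono ?_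
          · rintro (h2 | ⟨i, hi, he⟩)
            · exact haV h2
            · have h3 : ((i + 1 : ℕ) : ZMod m) = 0 := by
                have : a + ((i + 1 : ℕ) : ZMod m) = a + 0 := by
                  rw [add_zero]
                  conv_rhs => rw [he]
                  push_cast
                  ring
                exact add_left_cancel this
              exact natCast_ne_zero (Nat.succ_pos i) (by omega) h3
          · rintro x (rfl | h2 | h2)
            · exact Or.inr ⟨0, Nat.succ_pos L, by simp⟩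
            · exact Or.inl h2
            · refine Or.inr (mem_cells_shift (d := 1) (L := L) ?_ (by omega))
              simpa using h2
        · intro x hx
          refine hV x (mem_cells_shift (d := 1) (L := L) ?_ (by omega))
          simpa using hx
      -- one run
      have t2 : Pr K F g k s (fun D E => ind (IsMax D (a - 1, L + 3)) * Z D E)
          (g (L + 3) * z) (V ∪ cells a (L + 1)) := by
        refine (hP.arc haV (L + 3)).mono ?_
        rintro x (rfl | h2)
        · exact Or.inr ⟨0, Nat.succ_pos L, by simp⟩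
        · exact Or.inl h2
      -- a run, a cell, and the rest
      have t3 : Pr K F g k s (fun D E => ∑ l ∈ Finset.range L, ind (IsMax D (a - 1, l + 3)) *
          (ind (a + (l : ZMod m) + 1 ∈ E) *
            (ind (XX (erode D) E (a + (l : ZMod m) + 2) (L - 1 - l)) * Z D E)))
          (∑ l ∈ Finset.range L, g (l + 3) * (1 / 100 * (aL g (L - 1 - l) * z)))
          (V ∪ cells a (L + 1)) := by
        refine Pr.sum _ fun l hl => ?_
        have hlL := Finset.mem_range.1 hl
        have e2 : a + (l : ZMod m) + 2 = a + ((l + 2 : ℕ) : ZMod m) := by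
          push_cast
          ring
        have e1 : a + (l : ZMod m) + 1 = a + ((l + 1 : ℕ) : ZMod m) := by
          push_cast
          ring
        have h1 := ih (L - 1 - l) (by omega) (by omega) (a + (l : ZMod m) + 2) Z z V hZ hP ?_
        · have h2 := h1.cell (a := a + (l : ZMod m) + 1) ?_
          · refine (h2.arc (a := a) ?_ (l + 3)).mono ?_
            · rintro (h3 | h3 | ⟨i, hi, he⟩)
              · have h4 : ((l + 1 : ℕ) : ZMod m) = 0 := by
                  have : a + ((l + 1 : ℕ) : ZMod m) = a + 0 := by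
                    rw [add_zero, ← e1]
                    exact h3.symm
                  exact add_left_cancel this
                exact natCast_ne_zero (Nat.succ_pos l) (by omega) h4
              · exact haV h3
              · have h4 : ((l + 2 + i : ℕ) : ZMod m) = 0 := by
                  have : a + ((l + 2 + i : ℕ) : ZMod m) = a + 0 := by
                    rw [add_zero]
                    conv_rhs => rw [he]
                    push_cast
                    ring
                  exact add_left_cancel this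
                exact natCast_ne_zero (by omega) (by omega) h4
            · rintro x (rfl | rfl | h3 | h3)
              · exact Or.inr ⟨0, Nat.succ_pos L, by simp⟩
              · exact Or.inr ⟨l + 1, by omega, e1⟩
              · exact Or.inl h3
              · rw [e2] at h3
                exact Or.inr (mem_cells_shift h3 (by omega))
          · rintro (h3 | ⟨i, hi, he⟩)
            · exact hV _ ⟨l + 1, by omega, e1⟩ h3
            · have h4 : ((i + 1 : ℕ) : ZMod m) = 0 := by
                have : a + (l : ZMod m) + 1 + ((i + 1 : ℕ) : ZMod m) =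
                    a + (l : ZMod m) + 1 + 0 := by
                  rw [add_zero]
                  conv_rhs => rw [he]
                  push_cast
                  ring
                exact add_left_cancel this
              exact natCast_ne_zero (Nat.succ_pos i) (by omega) h4
        · intro x hx
          rw [e2] at hx
          exact hV x (mem_cells_shift hx (by omega))
      have t := (t1.add t2).add t3
      have hz : 1 / 100 * (aL g L * z) + g (L + 3) * z +
          ∑ l ∈ Finset.range L, g (l + 3) * (1 / 100 * (aL g (L - 1 - l) * z)) =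
          aL g (L + 1) * z := by
        rw [aL_succ, add_mul, add_mul, Finset.mul_sum, Finset.sum_mul]
        congr 1
        · ring
        · exact Finset.sum_congr rfl fun l _ => by ring
      rw [hz] at t
      refine t.le hK fun D E => ?_
      by_cases hX : XX (erode D) E a (L + 1)
      · rw [ind_true hX, one_mul]
        have n1 : 0 ≤ ind (a ∈ E) * (ind (XX (erode D) E (a + 1) L) * Z D E) :=
          mul_nonneg (ind_nonneg _) (mul_nonneg (ind_nonneg _) (hZ D E))
        have n2 : 0 ≤ ind (IsMax D (a - 1, L + 3)) * Z D E :=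
          mul_nonneg (ind_nonneg _) (hZ D E)
        have n3 : ∀ l ∈ Finset.range L, 0 ≤ ind (IsMax D (a - 1, l + 3)) *
            (ind (a + (l : ZMod m) + 1 ∈ E) *
              (ind (XX (erode D) E (a + (l : ZMod m) + 2) (L - 1 - l)) * Z D E)) :=
          fun l _ => mul_nonneg (ind_nonneg _)
            (mul_nonneg (ind_nonneg _) (mul_nonneg (ind_nonneg _) (hZ D E)))
        have n4 := Finset.sum_nonneg n3
        rcases XX_step hX with ⟨h1, h2⟩ | h1 | ⟨l, hl, h1, h2, h3⟩
        · rw [ind_true h1, ind_true h2, one_mul, one_mul] at n1 ⊢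
          linarith
        · rw [ind_true h1, one_mul] at n2 ⊢
          linarith
        · have h4 := Finset.single_le_sum n3 (Finset.mem_range.2 hl)
          rw [ind_true h1, ind_true h2, ind_true h3, one_mul, one_mul, one_mul] at h4
          linarith
      · rw [ind_false hX, zero_mul]
        exact add_nonneg (add_nonneg (mul_nonneg (ind_nonneg _) (mul_nonneg (ind_nonneg _)
          (hZ D E))) (mul_nonneg (ind_nonneg _) (hZ D E))) (Finset.sum_nonneg fun l _ =>
          mul_nonneg (ind_nonneg _) (mul_nonneg (ind_nonneg _) (mul_nonneg (ind_nonneg _)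
            (hZ D E))))

/-- the base case -/
theorem pr_one (hK : ∀ s s', 0 ≤ K s s')
    (hF : ∀ s A, ∑ s', (if A ⊆ F s s' then K s s' else 0) ≤ (1 / 100 : ℝ) ^ A.card)
    (hE : ∀ 𝒥 : Finset (ZMod m × ℕ),
      (opP K F)^[k] (fun _ D => ind (∀ J ∈ 𝒥, IsMax D J)) s ∅ ≤ ∏ J ∈ 𝒥, g J.2) :
    Pr K F g k s (fun _ _ => 1) 1 ∅ := by
  intro 𝒥 A _ _
  have h1 : Mk K F k s (fun D E => 1 * mon 𝒥 A D E) ≤
      (opP K F)^[k] (fun _ D => (1 / 100 : ℝ) ^ A.card * ind (∀ J ∈ 𝒥, IsMax D J)) s ∅ := by
    refine iter_mono hK (fun t D => ?_) k s ∅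
    have h2 : ∑ t', K t t' * (1 * mon 𝒥 A D (F t t')) =
        ind (∀ J ∈ 𝒥, IsMax D J) * ∑ t', (if A ⊆ F t t' then K t t' else 0) := by
      rw [Finset.mul_sum]
      refine Finset.sum_congr rfl fun t' _ => ?_
      unfold mon
      by_cases hA : A ⊆ F t t'
      · rw [ind_true hA, if_pos hA]
        ring
      · rw [ind_false hA, if_neg hA]
        ring
    rw [h2, mul_comm]
    exact mul_le_mul_of_nonneg_right (hF t A) (ind_nonneg _)
  rw [iter_smul] at h1
  refine h1.trans ?_
  rw [one_mul, mul_comm (∏ J ∈ 𝒥, g J.2)]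
  exact mul_le_mul_of_nonneg_left (hE 𝒥) (by positivity)

/-- families of arcs -/
theorem pr_family (hK : ∀ s s', 0 ≤ K s s') (hg : ∀ L, 0 ≤ g L)
    (h1 : Pr K F g k s (fun _ _ => 1) 1 ∅) (𝒥 : Finset (ZMod m × ℕ)) :
    Pr K F g k s (fun D E => ind (∀ J ∈ 𝒥, IsMax (erode D ∪ E) J))
      (∏ J ∈ 𝒥, (if J.2 = 0 then 0 else aL g J.2)) {x | ∃ J ∈ 𝒥, x ∈ cells J.1 J.2} := by
  classical
  have hnn : ∀ 𝒥 : Finset (ZMod m × ℕ), 0 ≤ ∏ J ∈ 𝒥, (if J.2 = 0 then 0 else aL g J.2) := by
    intro 𝒥
    refine Finset.prod_nonneg fun J _ => ?_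
    split_ifs
    · exact le_rfl
    · exact aL_nonneg hg _
  induction 𝒥 using Finset.induction_on with
  | empty =>
    rw [Finset.prod_empty]
    exact (h1.mono (Set.empty_subset _)).le hK fun D E => ind_le_one _
  | insert J 𝒥 hJ ih =>
    have hins : ∀ D E : Finset (ZMod m), ind (∀ J' ∈ insert J 𝒥, IsMax (erode D ∪ E) J') =
        ind (IsMax (erode D ∪ E) J) * ind (∀ J' ∈ 𝒥, IsMax (erode D ∪ E) J') := by
      intro D E
      rw [← ind_and]
      congr 1
      exact propext (Finset.forall_mem_insert _ _ _)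
    have hzero : (∀ D E : Finset (ZMod m),
        ind (∀ J' ∈ insert J 𝒥, IsMax (erode D ∪ E) J') = 0) →
        Pr K F g k s (fun D E => ind (∀ J' ∈ insert J 𝒥, IsMax (erode D ∪ E) J'))
          (∏ J' ∈ insert J 𝒥, (if J'.2 = 0 then 0 else aL g J'.2))
          {x | ∃ J' ∈ insert J 𝒥, x ∈ cells J'.1 J'.2} := by
      intro h0 𝒥' A h3 h4
      have h5 := (Pr.zero (K := K) (F := F) (g := g) (k := k) (s := s)
        (V := {x | ∃ J' ∈ insert J 𝒥, x ∈ cells J'.1 J'.2})) 𝒥' A h3 h4
      simp only [h0]
      refine h5.trans ?_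
      rw [zero_mul]
      exact mul_nonneg (hnn _) (wt_nonneg hg _ _)
    by_cases hJ2 : 1 ≤ J.2 ∧ J.2 < m
    · by_cases hdis : ∀ x ∈ cells J.1 J.2, x ∉ {x | ∃ J ∈ 𝒥, x ∈ cells J.1 J.2}
      · have h2 := pr_XX hK J.2 hJ2.2 J.1 _ _ _ (fun D E => ind_nonneg _) ih hdis
        rw [Finset.prod_insert hJ, if_neg (by omega)]
        refine (h2.le hK fun D E => ?_).mono ?_
        · rw [hins]
          refine mul_le_mul_of_nonneg_right (ind_mono fun h => ?_) (ind_nonneg _)
          refine ⟨h.2.2.1, fun h3 => h.2.2.2.1 (Finset.mem_union_left _ h3),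
            fun h3 => h.2.2.2.2 (Finset.mem_union_left _ h3)⟩
        · rintro x (⟨J', hJ', hx⟩ | hx)
          · exact ⟨J', Finset.mem_insert_of_mem hJ', hx⟩
          · exact ⟨J, Finset.mem_insert_self J 𝒥, hx⟩
      · push Not at hdis
        obtain ⟨x, ⟨i, hi, hxi⟩, J', hJ', i', hi', hxi'⟩ := hdis
        refine hzero fun D E => ind_false fun hall => ?_
        have h3 := hall J (Finset.mem_insert_self J 𝒥)
        have h4 := hall J' (Finset.mem_insert_of_mem hJ')
        have h5 := h3.eq_of_mem h4 hi hi' (hxi.symm.trans hxi')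
        exact hJ (h5 ▸ hJ')
    · refine hzero fun D E => ind_false fun hall => ?_
      have h3 := hall J (Finset.mem_insert_self J 𝒥)
      exact hJ2 ⟨h3.1, h3.2.1⟩

end prob

/-! ### Conclusion -/

/-- the weights of the arcs at time `k` -/
noncomputable def gk : ℕ → ℕ → ℝ
  | 0 => fun _ => 0
  | k + 1 => fun L => if L = 0 then 0 else aL (gk k) L

theorem gk_nonneg (k L : ℕ) : 0 ≤ gk k L := by
  induction k generalizing L with
  | zero => exact le_rfl
  | succ k ih =>
    show 0 ≤ if L = 0 then 0 else aL (gk k) L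
    split_ifs
    · exact le_rfl
    · exact aL_nonneg ih L

theorem gk_sum (k N : ℕ) : ∑ L ∈ Finset.range N, 4 ^ L * gk k L ≤ 1 / 20 := by
  induction k generalizing N with
  | zero =>
    have : ∀ L ∈ Finset.range N, (4 : ℝ) ^ L * gk 0 L = 0 := fun L _ => mul_zero _
    rw [Finset.sum_congr rfl this, Finset.sum_const_zero]
    norm_num
  | succ k ih =>
    cases N with
    | zero =>
      rw [Finset.sum_range_zero]
      norm_num
    | succ N =>
      rw [Finset.sum_range_succ']
      have e0 : (4 : ℝ) ^ 0 * gk (k + 1) 0 = 0 := by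
        show (4 : ℝ) ^ 0 * (if (0 : ℕ) = 0 then 0 else aL (gk k) 0) = 0
        simp
      have e1 : ∀ L ∈ Finset.range N, (4 : ℝ) ^ (L + 1) * gk (k + 1) (L + 1) =
          4 ^ (L + 1) * aL (gk k) (L + 1) := fun L _ => rfl
      rw [e0, add_zero, Finset.sum_congr rfl e1]
      exact sum_aL (gk_nonneg k) ih N

end R150.Perc

namespace R150

open Perc in
/-- **PERC** -/
theorem perc : PercStatement := by
  classical
  intro m _ hm S _ K F hK hK1 hF k s
  have hE : ∀ (k : ℕ) (s : S) (𝒥 : Finset (ZMod m × ℕ)),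
      (opP K F)^[k] (fun _ D => ind (∀ J ∈ 𝒥, IsMax D J)) s ∅ ≤ ∏ J ∈ 𝒥, gk k J.2 := by
    intro k
    induction k with
    | zero =>
      intro s 𝒥
      show ind (∀ J ∈ 𝒥, IsMax ∅ J) ≤ _
      rcases 𝒥.eq_empty_or_nonempty with rfl | ⟨J, hJ⟩
      · rw [Finset.prod_empty]
        exact ind_le_one _
      · rw [ind_false]
        · exact Finset.prod_nonneg fun J _ => gk_nonneg 0 J.2
        · intro h
          have h1 := (h J hJ).2.2.1 0 (h J hJ).1
          exact absurd h1 (Finset.notMem_empty _)
    | succ k ih =>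
      intro s 𝒥
      rw [Function.iterate_succ_apply]
      have h1 := pr_family (K := K) (F := F) (k := k) (s := s) hK (gk_nonneg k)
        (pr_one hK hF (ih s)) 𝒥
      have h2 := h1 ∅ ∅ (fun J hJ => absurd hJ (Finset.notMem_empty _))
        (fun j hj => absurd hj (Finset.notMem_empty _))
      have e1 : (fun D E : Finset (ZMod m) => ind (∀ J ∈ 𝒥, IsMax (erode D ∪ E) J) *
          mon ∅ ∅ D E) = fun D E => ind (∀ J ∈ 𝒥, IsMax (erode D ∪ E) J) := by
        funext D E
        have e2 : mon (∅ : Finset (ZMod m × ℕ)) ∅ D E = 1 := by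
          unfold mon
          rw [ind_true (fun J hJ => absurd hJ (Finset.notMem_empty _)),
            ind_true (Finset.empty_subset _), one_mul]
        rw [e2, mul_one]
      rw [e1, Finset.prod_empty, Finset.card_empty, pow_zero, mul_one, mul_one] at h2
      exact h2
  induction k with
  | zero =>
    have h0 : ((∅ : Finset (ZMod m)) = Finset.univ) ↔ False := by
      refine iff_false_intro fun h => ?_
      have : (0 : ZMod m) ∈ (∅ : Finset (ZMod m)) := by
        rw [h]
        exact Finset.mem_univ _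
      exact absurd this (Finset.notMem_empty _)
    show (if (∅ : Finset (ZMod m)) = Finset.univ then (1 : ℝ) else 0) ≤ _
    rw [if_neg (fun h => h0.1 h)]
    simp
  | succ k ih =>
    rw [Function.iterate_succ_apply]
    have hP := pr_one (s := s) hK hF (hE k s)
    -- new full configurations
    have hnew : ∀ w : ZMod m, Mk K F k s (fun D E => ind (w ∈ E) *
        (ind (XX (erode D) E (w + 1) (m - 1)) * 1)) ≤ 1 / 2000 * (1 / 4) ^ (m - 1) := by
      intro w
      have h1 := pr_XX (K := K) (F := F) (k := k) (s := s) hK (m - 1) (by omega) (w + 1)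
        (fun _ _ => 1) 1 ∅ (fun _ _ => zero_le_one) hP (fun x _ hx => hx)
      have h2 := h1.cell (a := w) ?_
      · have h3 := h2 ∅ ∅ (fun J hJ => absurd hJ (Finset.notMem_empty _))
          (fun j hj => absurd hj (Finset.notMem_empty _))
        have e2 : ∀ D E : Finset (ZMod m), mon (∅ : Finset (ZMod m × ℕ)) ∅ D E = 1 := by
          intro D E
          unfold mon
          rw [ind_true (fun J hJ => absurd hJ (Finset.notMem_empty _)),
            ind_true (Finset.empty_subset _), one_mul]
        simp only [e2, mul_one, Finset.prod_empty, Finset.card_empty, pow_zero] at h3 ⊢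
        refine h3.trans ?_
        obtain ⟨M, hM⟩ : ∃ M, m - 1 = M + 1 := ⟨m - 2, by omega⟩
        rw [hM]
        have h4 := sum_aL (gk_nonneg k) (gk_sum k) (M + 1)
        have h5 := Finset.single_le_sum (f := fun L => (4 : ℝ) ^ (L + 1) * aL (gk k) (L + 1))
          (fun L _ => mul_nonneg (by positivity) (aL_nonneg (gk_nonneg k) _))
          (Finset.mem_range.2 (Nat.lt_succ_self M))
        have h6 : (4 : ℝ) ^ (M + 1) * aL (gk k) (M + 1) ≤ 1 / 20 := h5.trans h4
        have h7 : aL (gk k) (M + 1) ≤ 1 / 20 * (1 / 4) ^ (M + 1) := by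
          have h8 : (0 : ℝ) < (1 / 4) ^ (M + 1) := by positivity
          have h9 : (1 / 4 : ℝ) ^ (M + 1) * 4 ^ (M + 1) = 1 := by
            rw [← mul_pow]
            norm_num
          calc aL (gk k) (M + 1) = ((1 / 4 : ℝ) ^ (M + 1) * 4 ^ (M + 1)) * aL (gk k) (M + 1) := by
                rw [h9, one_mul]
            _ = (1 / 4 : ℝ) ^ (M + 1) * (4 ^ (M + 1) * aL (gk k) (M + 1)) := by ring
            _ ≤ (1 / 4 : ℝ) ^ (M + 1) * (1 / 20) := mul_le_mul_of_nonneg_left h6 h8.le
            _ = 1 / 20 * (1 / 4) ^ (M + 1) := by ring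
        linarith
      · rintro (h3 | ⟨i, hi, he⟩)
        · exact h3
        · have h4 : ((i + 1 : ℕ) : ZMod m) = 0 := by
            have : w + ((i + 1 : ℕ) : ZMod m) = w + 0 := by
              rw [add_zero]
              conv_rhs => rw [he]
              push_cast
              ring
            exact add_left_cancel this
          exact natCast_ne_zero (Nat.succ_pos i) (by omega) h4
    have hstep : (opP K F)^[k] (opP K F fun _ D => if D = Finset.univ then (1 : ℝ) else 0) s ∅ ≤
        (opP K F)^[k] (fun _ D => if D = Finset.univ then (1 : ℝ) else 0) s ∅ +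
          ∑ w : ZMod m, Mk K F k s (fun D E => ind (w ∈ E) *
            (ind (XX (erode D) E (w + 1) (m - 1)) * 1)) := by
      rw [← Mk_sum]
      have e3 : (opP K F)^[k] (fun _ D => if D = Finset.univ then (1 : ℝ) else 0) s ∅ =
          Mk K F k s (fun D _ => if D = Finset.univ then (1 : ℝ) else 0) := by
        unfold Mk
        have e4 : (fun (t : S) (D : Finset (ZMod m)) =>
            ∑ t', K t t' * (if D = Finset.univ then (1 : ℝ) else 0)) =
            fun _ D => if D = Finset.univ then (1 : ℝ) else 0 := by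
          funext t D
          rw [← Finset.sum_mul, hK1, one_mul]
        rw [e4]
      rw [e3, ← Mk_add]
      refine iter_mono hK (fun t D => ?_) k s ∅
      refine Finset.sum_le_sum fun t' _ => mul_le_mul_of_nonneg_left ?_ (hK t t')
      have n1 : ∀ w ∈ (Finset.univ : Finset (ZMod m)), 0 ≤ ind (w ∈ F t t') *
          (ind (XX (erode D) (F t t') (w + 1) (m - 1)) * 1) := fun w _ =>
        mul_nonneg (ind_nonneg _) (mul_nonneg (ind_nonneg _) zero_le_one)
      have n2 := Finset.sum_nonneg n1
      show (if erode D ∪ F t t' = Finset.univ then (1 : ℝ) else 0) ≤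
        (if D = Finset.univ then (1 : ℝ) else 0) + ∑ w : ZMod m, ind (w ∈ F t t') *
          (ind (XX (erode D) (F t t') (w + 1) (m - 1)) * 1)
      by_cases hfull : erode D ∪ F t t' = Finset.univ
      · rw [if_pos hfull]
        by_cases hD : D = Finset.univ
        · rw [if_pos hD]
          linarith
        · rw [if_neg hD]
          obtain ⟨w, hw⟩ : ∃ w, w ∉ D := by
            by_contra hcon
            push Not at hcon
            exact hD (Finset.eq_univ_iff_forall.2 hcon)
          have hwE : w ∉ erode D := fun h => hw (mem_erode.1 h).2.1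
          have hwF : w ∈ F t t' := by
            have : w ∈ erode D ∪ F t t' := by
              rw [hfull]
              exact Finset.mem_univ w
            exact (Finset.mem_union.1 this).resolve_left hwE
          have hX : XX (erode D) (F t t') (w + 1) (m - 1) := by
            refine ⟨fun i _ => ?_, ?_, ?_⟩
            · rw [hfull]
              exact Finset.mem_univ _
            · rw [add_sub_cancel_right]
              exact hwE
            · have e5 : w + 1 + ((m - 1 : ℕ) : ZMod m) = w := by
                have e6 : ((m - 1 : ℕ) : ZMod m) + 1 = 0 := by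
                  have : ((m - 1 + 1 : ℕ) : ZMod m) = 0 := by
                    rw [Nat.sub_add_cancel (by omega)]
                    exact ZMod.natCast_self m
                  rw [← this]
                  push_cast
                  ring
                calc w + 1 + ((m - 1 : ℕ) : ZMod m) = w + (((m - 1 : ℕ) : ZMod m) + 1) := by ring
                  _ = w := by rw [e6, add_zero]
              rw [e5]
              exact hwE
          have h9 := Finset.single_le_sum n1 (Finset.mem_univ w)
          rw [ind_true hwF, ind_true hX, one_mul, one_mul] at h9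
          linarith
      · rw [if_neg hfull]
        have n3 : (0 : ℝ) ≤ if D = Finset.univ then 1 else 0 := by
          split_ifs
          · exact zero_le_one
          · exact le_rfl
        linarith
    refine hstep.trans ?_
    have hsum : ∑ w : ZMod m, Mk K F k s (fun D E => ind (w ∈ E) *
        (ind (XX (erode D) E (w + 1) (m - 1)) * 1)) ≤ m * (1 / 2000 * (1 / 4) ^ (m - 1)) := by
      refine (Finset.sum_le_sum fun w _ => hnew w).trans ?_
      rw [Finset.sum_const, Finset.card_univ, ZMod.card, nsmul_eq_mul]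
    have hpow : (1 / 4 : ℝ) ^ (m - 1) = 4 * (1 / 4) ^ m := by
      obtain ⟨M, rfl⟩ : ∃ M, m = M + 1 := ⟨m - 1, by omega⟩
      rw [Nat.add_sub_cancel, pow_succ]
      ring
    rw [hpow] at hsum
    have hpos : (0 : ℝ) ≤ m * (1 / 4) ^ m := by positivity
    push_cast
    nlinarith

end R150
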